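import Pool.Agent.Lib.MP_ca56d1_nt.RM.StubA

/-! Elementary facts on periods, parallelograms and cones. -/

namespace Pool.Agent.RM

variable {K : Type*} [Field K] [CharZero K] {σ σ' : K →+* ℝ}

omit [CharZero K] in
theorem emb_ne (σ : K →+* ℝ) {x : K} (hx : x ≠ 0) : σ x ≠ 0 := (map_ne_zero σ).2 hx

theorem RQ.symm (h : RQ σ σ') : RQ σ' σ := ⟨h.two, h.ne.symm⟩

omit [CharZero K] in
theorem Eps.pos {ε : K} (h : Eps σ σ' ε) : 0 < σ ε := one_pos.trans h.one_lt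

omit [CharZero K] in
theorem Eps.ne {ε : K} (h : Eps σ σ' ε) : ε ≠ 0 := fun h0 => by
  have := h.pos
  simp [h0] at this

omit [CharZero K] in
theorem Eps.snd {ε : K} (h : Eps σ σ' ε) : σ' ε = (σ ε)⁻¹ :=
  eq_inv_of_mul_eq_one_right h.norm

omit [CharZero K] in
theorem Eps.pos' {ε : K} (h : Eps σ σ' ε) : 0 < σ' ε := by
  rw [h.snd]; exact inv_pos.2 h.pos

omit [CharZero K] in
theorem Eps.lt_one {ε : K} (h : Eps σ σ' ε) : σ' ε < 1 := by
  rw [h.snd]; exact inv_lt_one_of_one_lt₀ h.one_lt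

omit [CharZero K] in
theorem Eps.inv {ε : K} (h : Eps σ σ' ε) : Eps σ' σ ε⁻¹ := by
  refine ⟨?_, ?_⟩
  · rw [map_inv₀, h.snd, inv_inv]; exact h.one_lt
  · rw [map_inv₀, map_inv₀, ← mul_inv, mul_comm, h.norm, inv_one]

omit [CharZero K] in
theorem Eps.pow {ε : K} (h : Eps σ σ' ε) {n : ℕ} (hn : n ≠ 0) : Eps σ σ' (ε ^ n) :=
  ⟨by rw [map_pow]; exact one_lt_pow₀ h.one_lt hn, by
    rw [map_pow, map_pow, ← mul_pow, h.norm, one_pow]⟩

omit [CharZero K] in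
theorem Stab.inv {ε : K} {Λ : Set K} (h : Stab ε Λ) (hε : ε ≠ 0) : Stab ε⁻¹ Λ := fun y => by
  rw [← h, ← mul_assoc, mul_inv_cancel₀ hε, one_mul]

omit [CharZero K] in
theorem Stab.pow {ε : K} {Λ : Set K} (h : Stab ε Λ) (n : ℕ) : Stab (ε ^ n) Λ := fun y => by
  induction n with
  | zero => simp
  | succ n ih => rw [pow_succ', mul_assoc, h, ih]

omit [CharZero K] in
theorem Stab.zpow {ε : K} {Λ : Set K} (h : Stab ε Λ) (hε : ε ≠ 0) (n : ℤ) : Stab (ε ^ n) Λ := by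
  cases n with
  | ofNat n => simpa using h.pow n
  | negSucc n => simpa using (h.pow (n + 1)).inv (pow_ne_zero _ hε)

omit [CharZero K] in
theorem mem_per {Λ : Set K} {w : K} : w ∈ per Λ ↔ ∀ y, y + w ∈ Λ ↔ y ∈ Λ := Iff.rfl

omit [CharZero K] in
theorem Stab.mul_per {ε : K} {Λ : Set K} (h : Stab ε Λ) (hε : ε ≠ 0) {w : K} (hw : w ∈ per Λ) :
    ε * w ∈ per Λ := fun y => by
  have e : y + ε * w = ε * (ε⁻¹ * y + w) := by field_simp
  rw [e, h, hw, h.inv hε]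

omit [CharZero K] in
theorem dt_self (x : K) : dt σ σ' x x = 0 := by simp [dt, mul_comm]

omit [CharZero K] in
theorem dt_swap (x y : K) : dt σ σ' y x = -dt σ σ' x y := by simp only [dt]; ring

omit [CharZero K] in
theorem dt_symm (x y : K) : dt σ' σ x y = -dt σ σ' x y := by simp only [dt]; ring

theorem dt_left (a b : ℚ) (p q : K) : dt σ σ' (a * p + b * q) q = a * dt σ σ' p q := by
  simp only [dt, map_add, map_mul, map_ratCast]; ring

theorem dt_right (a b : ℚ) (p q : K) : dt σ σ' p (a * p + b * q) = b * dt σ σ' p q := by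
  simp only [dt, map_add, map_mul, map_ratCast]; ring

omit [CharZero K] in
theorem dt_mul (u x y : K) : dt σ σ' (u * x) (u * y) = σ u * σ' u * dt σ σ' x y := by
  simp only [dt, map_mul]; ring

omit [CharZero K] in
theorem dt_eps {ε : K} (h : Eps σ σ' ε) (w : K) :
    dt σ σ' w (ε * w) = -((σ ε - σ' ε) * (σ w * σ' w)) := by
  simp only [dt, map_mul]; ring

omit [CharZero K] in
theorem dt_eps_ne {ε : K} (h : Eps σ σ' ε) {w : K} (hw : w ≠ 0) : dt σ σ' w (ε * w) ≠ 0 := by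
  rw [dt_eps h]
  have := h.one_lt
  have := h.lt_one
  exact neg_ne_zero.2 (mul_ne_zero (by linarith) (mul_ne_zero (emb_ne σ hw) (emb_ne σ' hw)))

theorem coord_inj {p q : K} (h : dt σ σ' p q ≠ 0) {a b a' b' : ℚ}
    (e : (a : K) * p + b * q = a' * p + b' * q) : a = a' ∧ b = b' := by
  have h1 := dt_left (σ := σ) (σ' := σ') a b p q
  have h2 := dt_right (σ := σ) (σ' := σ') a b p q
  rw [e, dt_left] at h1
  rw [e, dt_right] at h2
  exact ⟨by exact_mod_cast (mul_right_cancel₀ h h1).symm,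
    by exact_mod_cast (mul_right_cancel₀ h h2).symm⟩

theorem span_of_indep (h2 : Module.finrank ℚ K = 2) {p q : K}
    (h : ∀ a b : ℚ, (a : K) * p + b * q = 0 → a = 0 ∧ b = 0) (y : K) :
    ∃ a b : ℚ, y = a * p + b * q := by
  have hl : LinearIndependent ℚ ![p, q] := by
    rw [LinearIndependent.pair_iff]
    intro a b hab
    exact h a b (by simpa [Rat.smul_def] using hab)
  have := hl.span_eq_top_of_card_eq_finrank (by simp [h2])
  have hy : y ∈ Submodule.span ℚ (Set.range ![p, q]) := this ▸ Submodule.mem_top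
  rw [Matrix.range_cons, Matrix.range_cons, Matrix.range_empty, Set.union_empty,
    Set.singleton_union, Submodule.mem_span_pair] at hy
  obtain ⟨a, b, hab⟩ := hy
  exact ⟨a, b, by simpa [Rat.smul_def] using hab.symm⟩

theorem RQ.coord (hK : RQ σ σ') {p q : K} (h : dt σ σ' p q ≠ 0) (y : K) :
    ∃ a b : ℚ, y = a * p + b * q :=
  span_of_indep hK.two (fun a b e => coord_inj h (a' := 0) (b' := 0) (by simpa using e)) y

theorem RQ.rat (hK : RQ σ σ') {u : K} (h : σ u = σ' u) : ∃ c : ℚ, u = c := by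
  by_contra hc
  push Not at hc
  refine hK.ne (RingHom.ext fun y => ?_)
  obtain ⟨a, b, rfl⟩ := span_of_indep hK.two (p := 1) (q := u) (fun a b e => by
    by_cases hb : b = 0
    · simpa [hb] using e
    · refine absurd ?_ (hc (-a / b))
      have hb' : (b : K) ≠ 0 := by exact_mod_cast hb
      push_cast
      field_simp
      linear_combination e) y
  simp [h]

theorem RQ.dep (hK : RQ σ σ') {x y : K} (hx : x ≠ 0) (h : dt σ σ' x y = 0) :
    ∃ c : ℚ, y = c * x := by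
  obtain ⟨c, hc⟩ := hK.rat (u := y / x) (by
    rw [map_div₀, map_div₀, div_eq_div_iff (emb_ne σ hx) (emb_ne σ' hx)]
    simp only [dt] at h
    linarith)
  exact ⟨c, by rw [← hc]; field_simp⟩

theorem Lat.exists_pos {Λ : Set K} (h : Lat Λ) (σ σ' : K →+* ℝ) :
    ∃ w, w ∈ per Λ ∧ 0 < σ w ∧ 0 < σ' w := by
  obtain ⟨n, hn, hw⟩ := h.full 1
  exact ⟨_, hw, by simp [Nat.pos_of_ne_zero hn], by simp [Nat.pos_of_ne_zero hn]⟩

theorem RQ.exists_mixed (hK : RQ σ σ') : ∃ u : K, 0 < σ u ∧ σ' u < 0 := by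
  obtain ⟨u, hu⟩ : ∃ u, σ u ≠ σ' u := by
    by_contra hc
    push Not at hc
    exact hK.ne (RingHom.ext hc)
  rcases lt_or_gt_of_ne hu with h | h
  · obtain ⟨c, h1, h2⟩ := exists_rat_btwn h
    exact ⟨c - u, by simpa using h1, by simpa using h2⟩
  · obtain ⟨c, h1, h2⟩ := exists_rat_btwn h
    exact ⟨u - c, by simpa using h2, by simpa using h1⟩

theorem Lat.exists_neg {Λ : Set K} (h : Lat Λ) (hK : RQ σ σ') :
    ∃ w, w ∈ per Λ ∧ 0 < σ w ∧ σ' w < 0 := by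
  obtain ⟨u, h1, h2⟩ := hK.exists_mixed
  obtain ⟨n, hn, hw⟩ := h.full u
  have hn' : (0 : ℝ) < n := by exact_mod_cast Nat.pos_of_ne_zero hn
  exact ⟨_, hw, by simpa using mul_pos hn' h1, by simpa using mul_neg_of_pos_of_neg hn' h2⟩

theorem Lat.base_spec {Λ : Set K} (h : Lat Λ) (σ σ' : K →+* ℝ) :
    base σ σ' Λ ∈ per Λ ∧ 0 < σ (base σ σ' Λ) ∧ 0 < σ' (base σ σ' Λ) :=
  Classical.epsilon_spec (p := fun w => w ∈ per Λ ∧ 0 < σ w ∧ 0 < σ' w) (h.exists_pos σ σ')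

theorem Lat.exists_periods {Λ : Set K} (h : Lat Λ) (hK : RQ σ σ') :
    ∃ p q, p ∈ per Λ ∧ q ∈ per Λ ∧ dt σ σ' p q ≠ 0 := by
  obtain ⟨p, hp, h1, h2⟩ := h.exists_pos σ σ'
  obtain ⟨q, hq, h3, h4⟩ := h.exists_neg hK
  refine ⟨p, q, hp, hq, ?_⟩
  have := mul_neg_of_pos_of_neg h1 h4
  have := mul_pos h2 h3
  simp only [dt]
  linarith

theorem exists_den (hK : RQ σ σ') {p q : K} (h : dt σ σ' p q ≠ 0) {M : Submodule ℤ K}
    (hM : M.FG) : ∃ N : ℕ, N ≠ 0 ∧ ∀ y ∈ M, ∃ i j : ℤ, (N : K) * y = i * p + j * q := by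
  obtain ⟨s, rfl⟩ := hM
  have key : ∀ y : K, ∃ N : ℕ, N ≠ 0 ∧ ∃ i j : ℤ, (N : K) * y = i * p + j * q := fun y => by
    obtain ⟨a, b, rfl⟩ := hK.coord h y
    refine ⟨a.den * b.den, mul_ne_zero a.den_nz b.den_nz, a.num * b.den, b.num * a.den, ?_⟩
    have h1 : (a.den : K) * a = a.num := by exact_mod_cast Rat.den_mul_eq_num a
    have h2 : (b.den : K) * b = b.num := by exact_mod_cast Rat.den_mul_eq_num b
    push_cast
    rw [← h1, ← h2]; ring
  choose n hn i j hij using key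
  refine ⟨∏ y ∈ s, n y, Finset.prod_ne_zero_iff.2 fun y _ => hn y, fun y hy => ?_⟩
  induction hy using Submodule.span_induction with
  | mem y hy =>
    obtain ⟨c, hc⟩ := Finset.dvd_prod_of_mem n hy
    refine ⟨c * i y, c * j y, ?_⟩
    rw [hc]; push_cast
    linear_combination (c : K) * hij y
  | zero => exact ⟨0, 0, by simp⟩
  | add x y _ _ hx hy =>
    obtain ⟨a, b, h1⟩ := hx
    obtain ⟨c, d, h2⟩ := hy
    exact ⟨a + c, b + d, by push_cast at h1 h2 ⊢; linear_combination h1 + h2⟩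
  | smul c x _ hx =>
    obtain ⟨a, b, h1⟩ := hx
    exact ⟨c * a, c * b, by push_cast at h1 ⊢; rw [zsmul_eq_mul]; linear_combination (c : K) * h1⟩

theorem Lat.par_finite {Λ : Set K} (hΛ : Lat Λ) (hK : RQ σ σ') {p q : K} (h : dt σ σ' p q ≠ 0) :
    (Λ ∩ par p q).Finite := by
  obtain ⟨M, hM, hs⟩ := hΛ.fg
  obtain ⟨N, hN, hd⟩ := exists_den hK h hM
  have hN' : (N : K) ≠ 0 := by exact_mod_cast hN
  have hNq : (0 : ℚ) < N := by exact_mod_cast Nat.pos_of_ne_zero hN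
  refine (((Set.finite_Icc (0 : ℤ) N).prod (Set.finite_Icc (0 : ℤ) N)).image
    fun c : ℤ × ℤ => ((c.1 : K) * p + c.2 * q) / N).subset ?_
  rintro y ⟨hy, a, b, h1, h2, h3, h4, rfl⟩
  obtain ⟨i, j, hij⟩ := hd _ (hs hy)
  have := coord_inj h (a := N * a) (b := N * b) (a' := i) (b' := j) (by
    push_cast; linear_combination hij)
  refine ⟨(i, j), ⟨⟨?_, ?_⟩, ?_, ?_⟩, ?_⟩
  · have : (0 : ℚ) ≤ i := by rw [← this.1]; positivity
    exact_mod_cast this
  · have : (i : ℚ) ≤ N := by rw [← this.1]; nlinarith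
    exact_mod_cast this
  · have : (0 : ℚ) ≤ j := by rw [← this.2]; positivity
    exact_mod_cast this
  · have : (j : ℚ) ≤ N := by rw [← this.2]; nlinarith
    exact_mod_cast this
  · simp only
    rw [← hij]; field_simp

omit [CharZero K] in
theorem add_per {Λ : Set K} {p q : K} (hp : p ∈ per Λ) (hq : q ∈ per Λ) (m n : ℤ) (z : K) :
    z + m * p + n * q ∈ Λ ↔ z ∈ Λ := by
  have h1 : (m : K) * p ∈ per Λ := by simpa [zsmul_eq_mul] using (per Λ).zsmul_mem hp m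
  have h2 : (n : K) * q ∈ per Λ := by simpa [zsmul_eq_mul] using (per Λ).zsmul_mem hq n
  rw [h2, h1]

theorem par_inj {p q : K} (h : dt σ σ' p q ≠ 0) {z z' : K} (hz : z ∈ par p q) (hz' : z' ∈ par p q)
    {m n m' n' : ℤ} (e : z + m * p + n * q = z' + m' * p + n' * q) :
    z = z' ∧ m = m' ∧ n = n' := by
  obtain ⟨a, b, h1, h2, h3, h4, rfl⟩ := hz
  obtain ⟨a', b', h1', h2', h3', h4', rfl⟩ := hz'
  have := coord_inj h (a := a + m) (b := b + n) (a' := a' + m') (b' := b' + n') (by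
    push_cast; linear_combination e)
  have hm : m = m' := by
    have h5 : (m : ℚ) < m' + 1 := by linarith [this.1]
    have h6 : (m' : ℚ) < m + 1 := by linarith [this.1]
    have h5' : m < m' + 1 := by exact_mod_cast h5
    have h6' : m' < m + 1 := by exact_mod_cast h6
    omega
  have hn : n = n' := by
    have h5 : (n : ℚ) < n' + 1 := by linarith [this.2]
    have h6 : (n' : ℚ) < n + 1 := by linarith [this.2]
    have h5' : n < n' + 1 := by exact_mod_cast h5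
    have h6' : n' < n + 1 := by exact_mod_cast h6
    omega
  subst hm hn
  refine ⟨?_, rfl, rfl⟩
  rw [add_right_cancel this.1, add_right_cancel this.2]

theorem par_red (p q : K) (a b : ℚ) : ∃ z ∈ par p q,
    (a : K) * p + b * q = z + (⌈a⌉ - 1 : ℤ) * p + (⌊b⌋ : ℤ) * q := by
  refine ⟨((a - (⌈a⌉ - 1 : ℤ) : ℚ) : K) * p + ((b - ⌊b⌋ : ℚ) : K) * q,
    ⟨_, _, ?_, ?_, ?_, ?_, rfl⟩, by push_cast; ring⟩
  · push_cast; linarith [Int.ceil_lt_add_one a]
  · push_cast; linarith [Int.le_ceil a]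
  · linarith [Int.floor_le b]
  · linarith [Int.lt_floor_add_one b]

/-- Decomposition of `Λ` into cosets of the lattice spanned by two periods. -/
theorem par_equiv (hK : RQ σ σ') {Λ : Set K} {p q : K} (hp : p ∈ per Λ) (hq : q ∈ per Λ)
    (h : dt σ σ' p q ≠ 0) : ∃ e : ↥(Λ ∩ par p q) × (Fin 2 → ℤ) ≃ Λ,
      ∀ c, (e c : K) = c.1 + c.2 0 * p + c.2 1 * q := by
  refine ⟨Equiv.ofBijective (fun c => ⟨c.1 + c.2 0 * p + c.2 1 * q,
    (add_per hp hq _ _ _).2 c.1.2.1⟩) ⟨fun c c' e => ?_, fun y => ?_⟩, fun c => rfl⟩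
  · obtain ⟨h1, h2, h3⟩ := par_inj h c.1.2.2 c'.1.2.2 (congrArg Subtype.val e)
    refine Prod.ext (Subtype.ext h1) (funext fun i => ?_)
    fin_cases i
    exacts [h2, h3]
  · obtain ⟨a, b, hab⟩ := hK.coord h y
    obtain ⟨z, hz, e⟩ := par_red p q a b
    refine ⟨(⟨z, (add_per hp hq (⌈a⌉ - 1) ⌊b⌋ z).1 (by rw [← e, ← hab]; exact y.2), hz⟩,
      ![⌈a⌉ - 1, ⌊b⌋]), Subtype.ext ?_⟩
    simp only [Matrix.cons_val_zero, Matrix.cons_val_one]
    rw [← e, ← hab]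

/-- Decomposition of the points of `Λ` in a cone. -/
theorem cone_equiv {Λ : Set K} {p q : K} (hp : p ∈ per Λ) (hq : q ∈ per Λ)
    (h : dt σ σ' p q ≠ 0) : ∃ e : ↥(Λ ∩ par p q) × (ℕ × ℕ) ≃ ↥(Λ ∩ cone p q),
      ∀ c, (e c : K) = c.1 + c.2.1 * p + c.2.2 * q := by
  refine ⟨Equiv.ofBijective (fun c => ⟨c.1 + c.2.1 * p + c.2.2 * q, ?_, ?_⟩)
    ⟨fun c c' e => ?_, fun y => ?_⟩, fun c => rfl⟩
  · simpa using (add_per hp hq c.2.1 c.2.2 _).2 c.1.2.1
  · obtain ⟨a, b, h1, -, h3, -, e⟩ := c.1.2.2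
    exact ⟨a + c.2.1, b + c.2.2, by positivity, by positivity, by rw [e]; push_cast; ring⟩
  · obtain ⟨h1, h2, h3⟩ := par_inj h c.1.2.2 c'.1.2.2 (m := c.2.1) (n := c.2.2) (m' := c'.2.1)
      (n' := c'.2.2) (by simpa using congrArg Subtype.val e)
    exact Prod.ext (Subtype.ext h1) (Prod.ext (by exact_mod_cast h2) (by exact_mod_cast h3))
  · obtain ⟨y, hy, a, b, h1, h2, hab⟩ := y
    obtain ⟨z, hz, e⟩ := par_red p q a b
    have ha : 0 ≤ ⌈a⌉ - 1 := by have := Int.ceil_pos.2 h1; omega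
    have hb : 0 ≤ ⌊b⌋ := Int.floor_nonneg.2 h2
    refine ⟨(⟨z, (add_per hp hq (⌈a⌉ - 1) ⌊b⌋ z).1 (by rw [← e, ← hab]; exact hy), hz⟩,
      (⌈a⌉ - 1).toNat, ⌊b⌋.toNat), Subtype.ext ?_⟩
    simp only
    rw [hab, e, ← Int.cast_natCast (⌈a⌉ - 1).toNat, ← Int.cast_natCast ⌊b⌋.toNat,
      Int.toNat_of_nonneg ha, Int.toNat_of_nonneg hb]

theorem par_bounds {p q z : K} (hp : 0 < σ p) (hq : 0 < σ q) (hz : z ∈ par p q) :
    0 < σ z ∧ σ z < σ p + σ q := by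
  obtain ⟨a, b, h1, h2, h3, h4, rfl⟩ := hz
  have h1' : (0 : ℝ) < a := by exact_mod_cast h1
  have h2' : (a : ℝ) ≤ 1 := by exact_mod_cast h2
  have h3' : (0 : ℝ) ≤ b := by exact_mod_cast h3
  have h4' : (b : ℝ) < 1 := by exact_mod_cast h4
  simp only [map_add, map_mul, map_ratCast]
  constructor
  · positivity
  · nlinarith

theorem mem_cone (hK : RQ σ σ') {p q : K} (h : dt σ σ' p q ≠ 0) {y : K} :
    y ∈ cone p q ↔ 0 < dt σ σ' y q / dt σ σ' p q ∧ 0 ≤ dt σ σ' p y / dt σ σ' p q := by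
  obtain ⟨a, b, rfl⟩ := hK.coord h y
  rw [dt_left, dt_right, mul_div_cancel_right₀ _ h, mul_div_cancel_right₀ _ h]
  constructor
  · rintro ⟨a', b', h1, h2, e⟩
    obtain ⟨rfl, rfl⟩ := coord_inj h e
    exact ⟨by exact_mod_cast h1, by exact_mod_cast h2⟩
  · rintro ⟨h1, h2⟩
    exact ⟨a, b, by exact_mod_cast h1, by exact_mod_cast h2, rfl⟩

end Pool.Agent.RM
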