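import Pool.Agent.Lib.MP_ca56d1_nt.RM.ConeLim1

/-! The double Mellin transform of the generating function of a shifted cone. -/

namespace Pool.Agent.RM.ConeLimAux

open Complex Filter Topology Set MeasureTheory

theorem ofReal_cpow_eq {a : ℝ} (ha : 0 < a) (z : ℂ) :
    (a : ℂ) ^ z = cexp ((Real.log a : ℂ) * z) := by
  rw [cpow_def_of_ne_zero (ofReal_ne_zero.mpr ha.ne'), ofReal_log ha.le]

theorem integral_comp_exp {E : Type*} [NormedAddCommGroup E] [NormedSpace ℝ E] (g : ℝ → E) :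
    ∫ x, Real.exp x • g (Real.exp x) = ∫ y in Ioi 0, g y := by
  have h := integral_image_eq_integral_abs_deriv_smul MeasurableSet.univ
    (fun x _ => (Real.hasDerivAt_exp x).hasDerivWithinAt) Real.exp_injective.injOn g
  rw [image_univ, Real.range_exp, Measure.restrict_univ] at h
  rw [h]
  simp only [abs_of_pos (Real.exp_pos _)]

/-- The Gamma integrand in logarithmic coordinates. -/
noncomputable def ff (a : ℝ) (s : ℂ) (x : ℝ) : ℂ :=
  cexp (s * x) * (Real.exp (-(a * Real.exp x)) : ℂ)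

theorem integral_ff {a : ℝ} (ha : 0 < a) {s : ℂ} (hs : 0 < s.re) :
    ∫ x, ff a s x = Gamma s * (a : ℂ) ^ (-s) := by
  have h1 := integral_cpow_mul_exp_neg_mul_Ioi hs ha
  rw [← integral_comp_exp] at h1
  have h2 : (1 / (a : ℂ)) ^ s = (a : ℂ) ^ (-s) := by
    have : (1 / (a : ℂ)) = ((1 / a : ℝ) : ℂ) := by push_cast; ring
    rw [this, ofReal_cpow_eq (by positivity), ofReal_cpow_eq ha, one_div, Real.log_inv]
    congr 1
    push_cast
    ring
  rw [h2, mul_comm] at h1
  rw [← h1]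
  congr 1
  ext x
  unfold ff
  rw [ofReal_cpow_eq (Real.exp_pos x), Real.log_exp, real_smul]
  have e : cexp (s * x) = cexp x * cexp (x * (s - 1)) := by
    rw [← Complex.exp_add]; congr 1; ring
  rw [e]
  push_cast
  ring

theorem integrable_ff {a : ℝ} (ha : 0 < a) {s : ℂ} (hs : 0 < s.re) : Integrable (ff a s) := by
  apply Integrable.of_integral_ne_zero
  rw [integral_ff ha hs, ofReal_cpow_eq ha]
  exact mul_ne_zero (Complex.Gamma_ne_zero_of_re_pos hs) (Complex.exp_ne_zero _)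

theorem norm_ff (a : ℝ) (s : ℂ) (x : ℝ) : ((‖ff a s x‖ : ℝ) : ℂ) = ff a s.re x := by
  unfold ff
  rw [norm_mul, Complex.norm_exp, Complex.norm_real, Real.norm_eq_abs,
    abs_of_pos (Real.exp_pos _)]
  have : (s * x).re = s.re * x := by simp
  rw [this]
  push_cast
  ring

theorem integral_norm_ff {a : ℝ} (ha : 0 < a) {s : ℂ} (hs : 0 < s.re) :
    ∫ x, ‖ff a s x‖ = Real.Gamma s.re * a ^ (-s.re) := by
  apply Complex.ofReal_injective
  rw [← integral_complex_ofReal]
  simp only [norm_ff]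
  rw [integral_ff ha (by simpa using hs), Complex.Gamma_ofReal, Complex.ofReal_mul,
    Complex.ofReal_cpow ha.le]
  push_cast
  ring

theorem integrable_tsum {α ι : Type*} [MeasurableSpace α] {μ : Measure α} [Countable ι]
    {F : ι → α → ℂ} (hF : ∀ i, Integrable (F i) μ) (hs : Summable fun i => ∫ a, ‖F i a‖ ∂μ)
    (hm : AEStronglyMeasurable (fun a => ∑' i, F i a) μ) :
    Integrable (fun a => ∑' i, F i a) μ := by
  refine ⟨hm, ?_⟩
  have h1 : ∫⁻ a, ‖∑' i, F i a‖ₑ ∂μ ≤ ∫⁻ a, ∑' i, ‖F i a‖ₑ ∂μ :=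
    lintegral_mono fun a => enorm_tsum_le_tsum_enorm
  rw [lintegral_tsum fun i => (hF i).1.enorm] at h1
  refine h1.trans_lt ?_
  have h2 (i : ι) : ∫⁻ a, ‖F i a‖ₑ ∂μ = ENNReal.ofReal (∫ a, ‖F i a‖ ∂μ) :=
    (ofReal_integral_norm_eq_lintegral_enorm (hF i)).symm
  simp only [h2]
  rw [← ENNReal.ofReal_tsum_of_nonneg (fun i => integral_nonneg fun a => norm_nonneg _) hs]
  exact ENNReal.ofReal_lt_top

/-- The pairing with the point `(exp w.1, exp w.2)`. -/
noncomputable def dot (p w : ℝ × ℝ) : ℝ := p.1 * Real.exp w.1 + p.2 * Real.exp w.2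

/-- The generating function of a shifted cone. -/
noncomputable def gen (P Q Z : ℝ) : ℝ :=
  Real.exp (-Z) / ((1 - Real.exp (-P)) * (1 - Real.exp (-Q)))

theorem hasSum_gen {P Q : ℝ} (hP : 0 < P) (hQ : 0 < Q) (Z : ℝ) :
    HasSum (fun c : ℕ × ℕ => Real.exp (-(Z + c.1 * P + c.2 * Q))) (gen P Q Z) := by
  have h1 := hasSum_geometric_of_lt_one (Real.exp_pos (-P)).le
    (Real.exp_lt_one_iff.mpr (by linarith))
  have h2 := hasSum_geometric_of_lt_one (Real.exp_pos (-Q)).le
    (Real.exp_lt_one_iff.mpr (by linarith))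
  have h3 := (h1.mul h2 (h1.summable.mul_of_nonneg h2.summable
    (fun _ => pow_nonneg (Real.exp_pos _).le _)
    (fun _ => pow_nonneg (Real.exp_pos _).le _))).mul_left (Real.exp (-Z))
  have e1 : gen P Q Z = Real.exp (-Z) * ((1 - Real.exp (-P))⁻¹ * (1 - Real.exp (-Q))⁻¹) := by
    unfold gen
    rw [div_eq_mul_inv, mul_inv]
  have e2 : (fun c : ℕ × ℕ => Real.exp (-(Z + c.1 * P + c.2 * Q))) =
      fun c : ℕ × ℕ => Real.exp (-Z) * (Real.exp (-P) ^ c.1 * Real.exp (-Q) ^ c.2) := by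
    ext c
    rw [← Real.exp_nat_mul, ← Real.exp_nat_mul, ← Real.exp_add, ← Real.exp_add]
    congr 1
    ring
  rw [e1, e2]
  exact h3

/-- The integrand of the double Mellin transform. -/
noncomputable def HE (p q z : ℝ × ℝ) (s : ℂ) (w : ℝ × ℝ) : ℂ :=
  cexp (s * (w.1 + w.2)) * (gen (dot p w) (dot q w) (dot z w) : ℂ)

theorem dot_pos {p : ℝ × ℝ} (h1 : 0 < p.1) (h2 : 0 < p.2) (w : ℝ × ℝ) : 0 < dot p w := by
  unfold dot
  positivity

theorem mellin_cone {p q z : ℝ × ℝ} (hp1 : 0 < p.1) (hp2 : 0 < p.2) (hq1 : 0 < q.1)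
    (hq2 : 0 < q.2) (hz1 : 0 < z.1) (hz2 : 0 < z.2) {s : ℂ} (hs : 0 < s.re)
    (hsum : Summable fun c => cn p q z c ^ (-s.re)) :
    Integrable (HE p q z s) (volume.prod volume) ∧
      ∫ w, HE p q z s w ∂(volume.prod volume) = Gamma s ^ 2 * ∑' c, (cn p q z c : ℂ) ^ (-s) := by
  set a : ℕ × ℕ → ℝ := fun c => z.1 + c.1 * p.1 + c.2 * q.1 with ha
  set b : ℕ × ℕ → ℝ := fun c => z.2 + c.1 * p.2 + c.2 * q.2 with hb
  have ha0 : ∀ c, 0 < a c := fun c => by simp only [ha]; positivity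
  have hb0 : ∀ c, 0 < b c := fun c => by simp only [hb]; positivity
  have hcn : ∀ c, cn p q z c = a c * b c := fun c => rfl
  set F : ℕ × ℕ → ℝ × ℝ → ℂ := fun c w => ff (a c) s w.1 * ff (b c) s w.2 with hF
  have hFi : ∀ c, Integrable (F c) (volume.prod volume) := fun c =>
    (integrable_ff (ha0 c) hs).mul_prod (integrable_ff (hb0 c) hs)
  have hFn : ∀ c, ∫ w, ‖F c w‖ ∂(volume.prod volume) =
      Real.Gamma s.re ^ 2 * cn p q z c ^ (-s.re) := fun c => by
    simp only [hF, norm_mul]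
    rw [integral_prod_mul (fun x => ‖ff (a c) s x‖) (fun x => ‖ff (b c) s x‖),
      integral_norm_ff (ha0 c) hs, integral_norm_ff (hb0 c) hs, hcn,
      Real.mul_rpow (ha0 c).le (hb0 c).le]
    ring
  have hFs : Summable fun c => ∫ w, ‖F c w‖ ∂(volume.prod volume) := by
    simp only [hFn]
    exact hsum.mul_left _
  have hFv : ∀ c, ∫ w, F c w ∂(volume.prod volume) = Gamma s ^ 2 * (cn p q z c : ℂ) ^ (-s) :=
    fun c => by
    simp only [hF]
    rw [integral_prod_mul (ff (a c) s) (ff (b c) s), integral_ff (ha0 c) hs,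
      integral_ff (hb0 c) hs, hcn, Complex.ofReal_mul,
      Complex.mul_cpow_ofReal_nonneg (ha0 c).le (hb0 c).le]
    ring
  have hH : (fun w => ∑' c, F c w) = HE p q z s := by
    ext w
    have h1 := (Complex.hasSum_ofReal.mpr
      (hasSum_gen (dot_pos hp1 hp2 w) (dot_pos hq1 hq2 w) (dot z w))).mul_left
      (cexp (s * (w.1 + w.2)))
    unfold HE
    rw [← h1.tsum_eq]
    congr 1
    ext c
    simp only [hF, ff, ha, hb, dot]
    rw [mul_add s, Complex.exp_add, mul_mul_mul_comm, ← Complex.ofReal_mul, ← Real.exp_add]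
    congr 3
    ring
  have hm : AEStronglyMeasurable (HE p q z s) (volume.prod volume) := by
    apply Measurable.aestronglyMeasurable
    unfold HE gen dot
    fun_prop
  constructor
  · rw [← hH] at hm ⊢
    exact integrable_tsum hFi hFs hm
  · have h2 := (hasSum_integral_of_summable_integral_norm hFi hFs).tsum_eq
    rw [hH] at h2
    rw [← h2]
    simp only [hFv]
    rw [tsum_mul_left]

/-- Splitting a plane integral along the diagonal. -/
theorem integral_split {H : ℝ × ℝ → ℂ} (hH : Integrable H (volume.prod volume)) :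
    ∫ w, H w ∂(volume.prod volume) =
      (∫ u in Ioi (0 : ℝ), ∫ x, H (x, x - u)) + ∫ u in Ioi (0 : ℝ), ∫ y, H (y - u, y) := by
  have hS := measurePreserving_prod_add (volume : Measure ℝ) (volume : Measure ℝ)
  have hE : MeasurableEmbedding fun z : ℝ × ℝ => (z.1, z.1 + z.2) :=
    (MeasurableEquiv.shearAddRight ℝ).measurableEmbedding
  have h1 := hS.integral_comp hE H
  have h2 : Integrable (fun z : ℝ × ℝ => H (z.1, z.1 + z.2)) (volume.prod volume) :=
    (hS.integrable_comp_emb hE).mpr hH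
  have h3 := h2.integral_prod_right
  rw [← h1, integral_prod_symm _ h2, ← setIntegral_univ, ← Iic_union_Ioi (a := (0 : ℝ)),
    setIntegral_union (Iic_disjoint_Ioi le_rfl) measurableSet_Ioi h3.integrableOn h3.integrableOn]
  congr 1
  · have := integral_comp_neg_Ioi 0 (fun y : ℝ => ∫ x : ℝ, H (x, x + y))
    rw [neg_zero] at this
    rw [← this]
    simp only [sub_eq_add_neg]
  · refine setIntegral_congr_fun measurableSet_Ioi fun u _ => ?_
    have := integral_sub_right_eq_self (μ := volume) (fun x : ℝ => H (x, x + u)) u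
    simp only [sub_add_cancel] at this
    exact this.symm

end Pool.Agent.RM.ConeLimAux
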