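import Pool.Agent.Lib.MP_ca56d1_nt.RM.ConeLim2
import Pool.Agent.Lib.MP_ca56d1_nt.RM.ConeLim3

/-! The behaviour at `s = 0` of the odd zeta function of one shifted cone. -/

namespace Pool.Agent.RM

open Complex Filter Topology Set MeasureTheory

namespace ConeLimAux

/-- The pairing with `(1, v)`. -/
def lin (p : ℝ × ℝ) (v : ℝ) : ℝ := p.1 + v * p.2

/-- The kernel of the sector `t₂ ≤ t₁`. -/
noncomputable def kk (p q z : ℝ × ℝ) (v x : ℝ) : ℝ := kap (lin p v) (lin q v) (lin z v) x

/-- The residue of the kernel. -/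
noncomputable def AA (p q z : ℝ × ℝ) (v : ℝ) : ℝ :=
  (lin p v + lin q v - 2 * lin z v) / (lin p v * lin q v)

theorem lin_mem {p : ℝ × ℝ} (hp : 0 < p.2) {v : ℝ} (hv : v ∈ Icc (0 : ℝ) 1) :
    p.1 ≤ lin p v ∧ lin p v ≤ p.1 + p.2 := by
  unfold lin
  constructor <;> nlinarith [hv.1, hv.2]

theorem kk_eq (p q z : ℝ × ℝ) (v x : ℝ) : kk p q z v x =
    gOdd (lin p v) (lin q v) (lin z v) (Real.exp x) -
      (Iic (0 : ℝ)).indicator (fun x => Real.exp (-x)) x * AA p q z v := by
  unfold kk kap AA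
  by_cases hx : x ∈ Iic (0 : ℝ)
  · rw [indicator_of_mem hx, indicator_of_mem hx, mul_comm]
  · rw [indicator_of_notMem hx, indicator_of_notMem hx, zero_mul]

theorem good {p q z : ℝ × ℝ} (hp1 : 0 < p.1) (hp2 : 0 < p.2) (hq1 : 0 < q.1) (hq2 : 0 < q.2)
    (hz1 : 0 < z.1) (hz2 : 0 < z.2) (h1 : z.1 < p.1 + q.1) (h2 : z.2 < p.2 + q.2) :
    Good (kk p q z) (AA p q z) := by
  set m := min (min p.1 q.1) (min z.1 (p.1 + q.1 - z.1)) with hm
  set M := max (p.1 + p.2) (q.1 + q.2) with hM
  have hm0 : 0 < m := lt_min (lt_min hp1 hq1) (lt_min hz1 (by linarith))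
  have hb : ∀ v ∈ Icc (0 : ℝ) 1, m ≤ lin p v ∧ m ≤ lin q v ∧ lin p v ≤ M ∧ lin q v ≤ M ∧
      m ≤ lin z v ∧ m ≤ lin p v + lin q v - lin z v := by
    intro v hv
    have a1 : m ≤ p.1 := (min_le_left _ _).trans (min_le_left _ _)
    have a2 : m ≤ q.1 := (min_le_left _ _).trans (min_le_right _ _)
    have a3 : m ≤ z.1 := (min_le_right _ _).trans (min_le_left _ _)
    have a4 : m ≤ p.1 + q.1 - z.1 := (min_le_right _ _).trans (min_le_right _ _)
    refine ⟨a1.trans (lin_mem hp2 hv).1, a2.trans (lin_mem hq2 hv).1,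
      (lin_mem hp2 hv).2.trans (le_max_left _ _), (lin_mem hq2 hv).2.trans (le_max_right _ _),
      a3.trans (lin_mem hz2 hv).1, a4.trans ?_⟩
    unfold lin
    nlinarith [hv.1]
  have hA : Measurable (AA p q z) := by
    unfold AA lin
    fun_prop
  have hcA : ContinuousAt (AA p q z) 0 := by
    unfold AA lin
    refine ContinuousAt.div (by fun_prop) (by fun_prop) ?_
    simp only [zero_mul, add_zero]
    positivity
  refine ⟨?_, hA, ⟨2 * M / m ^ 2, fun v hv => ?_⟩, fun R => ?_, fun x => ?_, hcA⟩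
  · simp only [kk_eq]
    have a1 : Measurable fun w : ℝ × ℝ =>
        gOdd (lin p w.1) (lin q w.1) (lin z w.1) (Real.exp w.2) := by
      unfold gOdd lin
      fun_prop
    have a2 : Measurable ((Iic (0 : ℝ)).indicator fun x : ℝ => Real.exp (-x)) :=
      Measurable.indicator (by fun_prop) measurableSet_Iic
    exact a1.sub ((a2.comp measurable_snd).mul (hA.comp measurable_fst))
  · obtain ⟨b1, b2, b3, b4, b5, b6⟩ := hb v hv
    unfold AA
    have c1 : 0 < lin p v := hm0.trans_le b1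
    have c2 : 0 < lin q v := hm0.trans_le b2
    rw [abs_div, abs_of_pos (mul_pos c1 c2)]
    apply div_le_div₀ (by linarith) _ (by positivity)
    · rw [sq]
      exact mul_le_mul b1 b2 hm0.le c1.le
    · rw [abs_le]
      constructor <;> linarith
  · obtain ⟨C, hC⟩ := kap_bound (M := M) hm0 R
    refine ⟨C, fun v hv σ hσ x => ?_⟩
    obtain ⟨b1, b2, b3, b4, b5, b6⟩ := hb v hv
    exact hC _ _ _ b1 b2 b3 b4 b5 b6 σ hσ x
  · simp only [kk_eq]
    refine ContinuousAt.sub ?_ (continuousAt_const.mul hcA)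
    unfold gOdd lin
    refine ContinuousAt.div (by fun_prop) (by fun_prop) ?_
    simp only [zero_mul, add_zero]
    have e := Real.exp_pos x
    have c1 := Real.exp_lt_one_iff.mpr (show -p.1 * Real.exp x < 0 by nlinarith)
    have c2 := Real.exp_lt_one_iff.mpr (show -q.1 * Real.exp x < 0 by nlinarith)
    exact (mul_pos (by linarith) (by linarith)).ne'

theorem dot_eq (p : ℝ × ℝ) (x u : ℝ) :
    dot p (x, x - u) = lin p (Real.exp (-u)) * Real.exp x := by
  unfold dot lin
  rw [sub_eq_add_neg, Real.exp_add]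
  ring

theorem HE_sub (p q z : ℝ × ℝ) (s : ℂ) (x u : ℝ) :
    HE p q z s (x, x - u) - HE p q (p + q - z) s (x, x - u) =
      cexp (-s * u) * (cexp (2 * s * x) * (gOdd (lin p (Real.exp (-u))) (lin q (Real.exp (-u)))
        (lin z (Real.exp (-u))) (Real.exp x) : ℂ)) := by
  unfold HE
  rw [← mul_sub, ← Complex.ofReal_sub, ← mul_assoc, ← Complex.exp_add]
  congr 2
  · push_cast
    ring
  · simp only [dot_eq]
    have e : lin (p + q - z) (Real.exp (-u)) =
        lin p (Real.exp (-u)) + lin q (Real.exp (-u)) - lin z (Real.exp (-u)) := by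
      simp only [lin, Prod.fst_sub, Prod.fst_add, Prod.snd_sub, Prod.snd_add]
      ring
    unfold gen gOdd
    rw [e, ← sub_div]
    simp only [neg_mul]

theorem HE_swap (p q z : ℝ × ℝ) (s : ℂ) (x y : ℝ) :
    HE p q z s (y, x) = HE p.swap q.swap z.swap s (x, y) := by
  have e : ∀ p : ℝ × ℝ, dot p (y, x) = dot p.swap (x, y) := fun p => by
    simp only [dot, Prod.fst_swap, Prod.snd_swap]
    ring
  unfold HE
  rw [e, e, e, add_comm]

theorem radial {p q z : ℝ × ℝ} (h : Good (kk p q z) (AA p q z)) {v : ℝ} (hv : v ∈ Icc (0 : ℝ) 1)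
    {s : ℂ} (hs : 1 < s.re) :
    (s - 1 / 2) * ∫ x : ℝ, cexp (2 * s * x) *
      (gOdd (lin p v) (lin q v) (lin z v) (Real.exp x) : ℂ) = Psi (kk p q z) (AA p q z) v s := by
  have hs2 : 0 < (2 * s - 1).re := by
    have : (2 * s - 1).re = 2 * s.re - 1 := by simp
    rw [this]
    linarith
  have e : ∀ x : ℝ, cexp (2 * s * x) * (gOdd (lin p v) (lin q v) (lin z v) (Real.exp x) : ℂ) =
      cexp (2 * s * x) * (kk p q z v x : ℂ) +
        (Iic (0 : ℝ)).indicator (fun x : ℝ => cexp ((2 * s - 1) * x)) x * AA p q z v := by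
    intro x
    rw [kk_eq]
    by_cases hx : x ∈ Iic (0 : ℝ)
    · rw [indicator_of_mem hx, indicator_of_mem hx]
      have : cexp ((2 * s - 1) * x) = cexp (2 * s * x) * cexp (-x) := by
        rw [← Complex.exp_add]; congr 1; ring
      rw [this]
      push_cast
      ring
    · rw [indicator_of_notMem hx, indicator_of_notMem hx]
      push_cast
      ring
  simp only [e]
  rw [integral_add (h.int_term hv (by linarith))
    (((integrableOn_exp_mul_complex_Iic hs2 0).integrable_indicator measurableSet_Iic).mul_const _),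
    integral_mul_const, integral_indicator measurableSet_Iic, integral_exp_mul_complex_Iic hs2]
  have hne : 2 * s - 1 ≠ 0 := fun h0 => by simp [h0] at hs2
  unfold Psi NN
  simp only [ofReal_zero, mul_zero, Complex.exp_zero]
  have e3 : (s - 1 / 2) * (1 / (2 * s - 1)) = 1 / 2 := by
    rw [mul_one_div, div_eq_iff hne]
    ring
  rw [mul_add, ← mul_assoc, e3]
  ring

theorem sector {p q z : ℝ × ℝ} (h : Good (kk p q z) (AA p q z)) {s : ℂ} (hs : 1 < s.re) :
    (s - 1 / 2) * ∫ u in Ioi (0 : ℝ), ∫ x : ℝ,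
      (HE p q z s (x, x - u) - HE p q (p + q - z) s (x, x - u)) = WW (kk p q z) (AA p q z) s := by
  unfold WW
  rw [← integral_const_mul]
  refine setIntegral_congr_fun measurableSet_Ioi fun u hu => ?_
  simp only [HE_sub]
  rw [integral_const_mul, ← radial h (exp_neg_mem (le_of_lt hu)) hs]
  ring

theorem Psi_zero {p q z : ℝ × ℝ} (h : Good (kk p q z) (AA p q z)) :
    Psi (kk p q z) (AA p q z) 0 0 = -(1 / 2) * (J p.1 q.1 z.1 : ℂ) := by
  have hl : ∀ p : ℝ × ℝ, lin p 0 = p.1 := fun p => by simp [lin]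
  have hi := h.int_term (v := 0) ⟨le_rfl, zero_le_one⟩ (s := 0) (by simp)
  simp only [mul_zero, zero_mul, Complex.exp_zero, one_mul] at hi
  have hi' : Integrable fun x : ℝ => kk p q z 0 x := by simpa using hi.re
  have e : J p.1 q.1 z.1 = (∫ x, kk p q z 0 x) - AA p q z 0 := by
    unfold J
    rw [← integral_comp_exp]
    have e1 : ∀ x : ℝ, Real.exp x • ((gOdd p.1 q.1 z.1 (Real.exp x) -
        (p.1 + q.1 - 2 * z.1) / (p.1 * q.1) / Real.exp x) / Real.exp x) =
        kk p q z 0 x - (Ioi (0 : ℝ)).indicator (fun x => Real.exp (-x)) x * AA p q z 0 := by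
      intro x
      have e2 : AA p q z 0 = (p.1 + q.1 - 2 * z.1) / (p.1 * q.1) := by
        simp only [AA, hl]
      rw [kk_eq, smul_eq_mul, mul_div_cancel₀ _ (Real.exp_pos x).ne', hl, hl, hl, ← e2,
        div_eq_mul_inv, ← Real.exp_neg]
      rcases le_or_gt x 0 with hx | hx
      · rw [indicator_of_mem (show x ∈ Iic 0 from hx),
          indicator_of_notMem (show x ∉ Ioi 0 from not_lt.mpr hx)]
        ring
      · rw [indicator_of_notMem (show x ∉ Iic 0 from not_le.mpr hx),
          indicator_of_mem (show x ∈ Ioi 0 from hx)]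
        ring
    simp only [e1]
    rw [integral_sub hi'
      (((integrableOn_exp_neg_Ioi 0).integrable_indicator measurableSet_Ioi).mul_const _),
      integral_mul_const, integral_indicator measurableSet_Ioi, integral_exp_neg_Ioi_zero, one_mul]
  rw [e]
  unfold Psi NN
  simp only [mul_zero, zero_mul, Complex.exp_zero, one_mul]
  rw [integral_complex_ofReal]
  push_cast
  ring

end ConeLimAux

open ConeLimAux in
theorem coneLim : ConeLim := by
  intro p q z hp1 hp2 hq1 hq2 hz1 hz2 h1 h2 hs1 hs2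
  have g1 := good hp1 hp2 hq1 hq2 hz1 hz2 h1 h2
  have g2 := good (p := p.swap) (q := q.swap) (z := z.swap) hp2 hp1 hq2 hq1 hz2 hz1 h2 h1
  refine ⟨fun s => WW (kk p q z) (AA p q z) s +
    WW (kk p.swap q.swap z.swap) (AA p.swap q.swap z.swap) s, g1.WW_diff.add g2.WW_diff,
    fun s hs => ?_, ?_⟩
  · have hs0 : 0 < s.re := by linarith
    obtain ⟨i1, v1⟩ := mellin_cone hp1 hp2 hq1 hq2 hz1 hz2 hs0 (hs1 _ hs)
    obtain ⟨i2, v2⟩ := mellin_cone (z := p + q - z) hp1 hp2 hq1 hq2
      (by simp only [Prod.fst_sub, Prod.fst_add]; linarith)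
      (by simp only [Prod.snd_sub, Prod.snd_add]; linarith) hs0 (hs2 _ hs)
    have key := integral_split (i1.sub i2)
    simp only [Pi.sub_apply] at key
    rw [integral_sub i1 i2, v1, v2] at key
    have e : ∀ u y : ℝ, HE p q z s (y - u, y) - HE p q (p + q - z) s (y - u, y) =
        HE p.swap q.swap z.swap s (y, y - u) -
          HE p.swap q.swap (p.swap + q.swap - z.swap) s (y, y - u) := by
      intro u y
      rw [HE_swap p q z, HE_swap p q (p + q - z)]
      rfl
    simp only [e] at key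
    simp only
    rw [← sector g1 hs, ← sector g2 hs, ← mul_add, ← key]
    ring
  · have := g1.WW_lim.add g2.WW_lim
    rw [Psi_zero g1, Psi_zero g2] at this
    simp only [mul_add]
    have e : -(1 / 2) * ((J p.1 q.1 z.1 + J p.2 q.2 z.2 : ℝ) : ℂ) =
        -(1 / 2) * (J p.1 q.1 z.1 : ℂ) + -(1 / 2) * (J p.swap.1 q.swap.1 z.swap.1 : ℂ) := by
      simp only [Prod.fst_swap]
      push_cast
      ring
    rw [e]
    exact this

end Pool.Agent.RM
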