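import Pool.Agent.Lib.MP_ca56d1_nt.RM.Cone2

/-! The real part of `dl` at real points. -/

namespace Pool.Agent.RM

open Complex MeasureTheory Set Filter Topology

namespace ReDlAux

theorem den_far {a : ℝ} (ha : 0 < a) {w : ℂ} (h : a ≤ |w.re|) :
    1 - Real.exp (-a) ≤ ‖1 - cexp (-w)‖ ∧
      (1 - Real.exp (-a)) * Real.exp (-w.re) ≤ ‖1 - cexp (-w)‖ := by
  have h1 : |1 - Real.exp (-w.re)| ≤ ‖1 - cexp (-w)‖ := by
    have := abs_norm_sub_norm_le (1 : ℂ) (cexp (-w))
    rwa [norm_one, Complex.norm_exp, neg_re] at this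
  have h2 : Real.exp (-a) < 1 := Real.exp_lt_one_iff.2 (by linarith)
  have h3 := Real.exp_pos (-a)
  have h4 := Real.exp_pos (-w.re)
  rcases le_abs.1 h with h | h
  · have h5 : Real.exp (-w.re) ≤ Real.exp (-a) := Real.exp_le_exp.2 (by linarith)
    have h6 := le_abs_self (1 - Real.exp (-w.re))
    constructor
    · linarith
    · nlinarith
  · have h5 : 1 ≤ Real.exp (-w.re) * Real.exp (-a) := by
      rw [← Real.exp_add]; exact Real.one_le_exp (by linarith)
    have h6 := neg_le_abs (1 - Real.exp (-w.re))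
    have h7 : 1 ≤ Real.exp (-w.re) := Real.one_le_exp (by linarith)
    constructor <;> nlinarith

theorem kern_far {p q : ℝ} (hp : 0 < p) (hq : 0 < q) {z : ℝ} (hz : 0 < z) (hz' : z < p + q) :
    ∃ C : ℝ, 0 < C ∧ ∀ t : ℂ, 1 ≤ |t.re| → ‖kern p q z t‖ ≤ C / t.re ^ 2 := by
  set m := min z (p + q - z) with hm
  have hm0 : 0 < m := lt_min hz (by linarith)
  set c1 := 1 - Real.exp (-p)
  set c2 := 1 - Real.exp (-q)
  have hc1 : 0 < c1 := sub_pos.2 (Real.exp_lt_one_iff.2 (by linarith))
  have hc2 : 0 < c2 := sub_pos.2 (Real.exp_lt_one_iff.2 (by linarith))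
  refine ⟨1 / (c1 * c2 * m), by positivity, fun t ht => ?_⟩
  obtain ⟨g1, g2⟩ := den_far hp (w := p * t) (by
    rw [re_ofReal_mul, abs_mul, abs_of_pos hp]; nlinarith)
  obtain ⟨g3, g4⟩ := den_far hq (w := q * t) (by
    rw [re_ofReal_mul, abs_mul, abs_of_pos hq]; nlinarith)
  have g5 : |t.re| ≤ ‖t‖ := Complex.abs_re_le_norm t
  rw [← neg_mul] at g1 g2 g3 g4
  simp only [re_ofReal_mul] at g2 g4
  have g6 : Real.exp (-m * |t.re|) * (m * |t.re|) ≤ 1 := by
    have := Real.add_one_le_exp (m * |t.re|)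
    calc _ ≤ Real.exp (-m * |t.re|) * Real.exp (m * |t.re|) := by gcongr; linarith
      _ = 1 := by rw [← Real.exp_add]; simp
  have hD : Real.exp (-z * t.re) * (c1 * c2) ≤
      Real.exp (-m * |t.re|) * (‖1 - cexp (-p * t)‖ * ‖1 - cexp (-q * t)‖) := by
    rcases le_total 0 t.re with h | h
    · rw [abs_of_nonneg h]
      refine mul_le_mul (Real.exp_le_exp.2 ?_) (by gcongr) (by positivity) (by positivity)
      nlinarith [min_le_left z (p + q - z)]
    · rw [abs_of_nonpos h]
      calc _ ≤ Real.exp (-m * -t.re) * (Real.exp (-(p * t.re)) * Real.exp (-(q * t.re))) *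
            (c1 * c2) := by
            gcongr
            rw [← Real.exp_add, ← Real.exp_add, Real.exp_le_exp]
            nlinarith [min_le_right z (p + q - z)]
        _ = Real.exp (-m * -t.re) *
            (c1 * Real.exp (-(p * t.re)) * (c2 * Real.exp (-(q * t.re)))) := by ring
        _ ≤ _ := by gcongr
  have hN : 0 < ‖1 - cexp (-p * t)‖ * ‖1 - cexp (-q * t)‖ :=
    mul_pos (hc1.trans_le g1) (hc2.trans_le g3)
  have e3 : (-(z : ℂ) * t).re = -z * t.re := by simp
  have ht0 : 0 < |t.re| := by linarith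
  rw [kern, norm_div, norm_mul, norm_mul, Complex.norm_exp, e3, ← sq_abs,
    div_le_div_iff₀ (mul_pos hN (by linarith)) (by positivity), div_mul_eq_mul_div,
    le_div_iff₀ (by positivity)]
  set N := ‖1 - cexp (-p * t)‖ * ‖1 - cexp (-q * t)‖
  calc Real.exp (-z * t.re) * |t.re| ^ 2 * (c1 * c2 * m)
      = Real.exp (-z * t.re) * (c1 * c2) * (m * |t.re|) * |t.re| := by ring
    _ ≤ Real.exp (-m * |t.re|) * N * (m * |t.re|) * ‖t‖ := by gcongr
    _ = Real.exp (-m * |t.re|) * (m * |t.re|) * (N * ‖t‖) := by ring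
    _ ≤ _ := by gcongr

/-- `(1 - exp (-p t)) / t`. -/
noncomputable def dd (p : ℝ) : ℂ → ℂ := dslope (fun t => 1 - cexp (-p * t)) 0

theorem dd_diff (p : ℝ) : Differentiable ℂ (dd p) :=
  differentiableOn_univ.1 ((differentiableOn_dslope univ_mem).2
    (Differentiable.differentiableOn (by fun_prop)))

theorem dd_zero (p : ℝ) : dd p 0 = p := by
  rw [dd, dslope_same]
  have : HasDerivAt (fun t : ℂ => 1 - cexp (-p * t)) (-(cexp (-p * 0) * (-p * 1))) 0 :=
    (((hasDerivAt_id (0 : ℂ)).const_mul (-p : ℂ)).cexp).const_sub 1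
  rw [this.deriv]; simp

theorem dd_ne (p : ℝ) {t : ℂ} (ht : t ≠ 0) : dd p t = (1 - cexp (-p * t)) / t := by
  rw [dd, dslope_of_ne _ ht, slope_def_field]; simp

theorem dd_ne_zero {p : ℝ} (hp : 0 < p) {t : ℂ} (h : |t.im| * p ≤ Real.pi) : dd p t ≠ 0 := by
  by_cases ht : t = 0
  · rw [ht, dd_zero]; exact_mod_cast hp.ne'
  rw [dd_ne p ht]
  refine div_ne_zero (fun h0 => ?_) ht
  obtain ⟨n, hn⟩ := Complex.exp_eq_one_iff.1 (sub_eq_zero.1 h0).symm
  have h1 := congrArg Complex.im hn
  have h2 := congrArg Complex.re hn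
  simp at h1 h2
  have h3 : |(n : ℝ)| * (2 * Real.pi) ≤ Real.pi := by
    rw [← abs_of_pos (show 0 < 2 * Real.pi by positivity), ← abs_mul, ← h1, abs_neg, abs_mul,
      abs_of_pos hp, mul_comm]
    exact h
  have h4 : |(n : ℝ)| < 1 := by nlinarith [Real.pi_pos, abs_nonneg (n : ℝ)]
  have h5 : n = 0 := by
    have : |n| < 1 := by exact_mod_cast h4
    exact Int.abs_lt_one_iff.1 this
  subst h5
  simp at hn
  rcases hn with h | h
  exacts [hp.ne' h, ht h]

/-- `t ^ 2` times the odd kernel. -/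
noncomputable def ph (p q z : ℝ) (t : ℂ) : ℂ := (dd (p + q - z) t - dd z t) / (dd p t * dd q t)

theorem ph_ne (p q z : ℝ) {t : ℂ} (ht : t ≠ 0) :
    ph p q z t = t ^ 2 * (kern p q z t - kern p q (p + q - z : ℝ) t) := by
  simp only [ph, dd_ne _ ht, kern]
  by_cases h1 : 1 - cexp (-p * t) = 0
  · simp only [h1]; simp
  by_cases h2 : 1 - cexp (-q * t) = 0
  · simp only [h2]; simp
  field_simp
  ring

theorem kern_neg (p q z : ℝ) (t : ℂ) : kern p q (p + q - z : ℝ) (-t) = -kern p q z t := by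
  simp only [kern]
  have h1 : ∀ c : ℝ, 1 - cexp (-c * -t) = -cexp (c * t) * (1 - cexp (-c * t)) := fun c => by
    have h2 : cexp (c * t) * cexp (-c * t) = 1 := by rw [← Complex.exp_add]; simp
    rw [neg_mul_neg]
    linear_combination -h2
  rw [h1, h1, show -((p + q - z : ℝ) : ℂ) * -t = p * t + q * t + -z * t by push_cast; ring,
    Complex.exp_add, Complex.exp_add,
    show -cexp (p * t) * (1 - cexp (-p * t)) * (-cexp (q * t) * (1 - cexp (-q * t))) * -t
      = -(cexp (p * t) * cexp (q * t) * ((1 - cexp (-p * t)) * (1 - cexp (-q * t)) * t)) by ring,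
    div_neg, mul_div_mul_left _ _ (mul_ne_zero (Complex.exp_ne_zero _) (Complex.exp_ne_zero _))]

theorem ph_even (p q z : ℝ) (t : ℂ) : ph p q z (-t) = ph p q z t := by
  by_cases ht : t = 0
  · simp [ht]
  have h := kern_neg p q (p + q - z) t
  rw [show p + q - (p + q - z) = z by ring] at h
  rw [ph_ne _ _ _ ht, ph_ne _ _ _ (neg_ne_zero.2 ht), kern_neg, h]
  ring

theorem ph_zero (p q z : ℝ) : ph p q z 0 = ((p + q - 2 * z) / (p * q) : ℝ) := by
  simp only [ph, dd_zero]; push_cast; ring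

theorem ph_diff {p q : ℝ} (hp : 0 < p) (hq : 0 < q) (z : ℝ) {t : ℂ}
    (h : |t.im| * (p + q) ≤ Real.pi) : DifferentiableAt ℂ (ph p q z) t := by
  have := abs_nonneg t.im
  exact ((dd_diff _ t).sub (dd_diff _ t)).div ((dd_diff _ t).mul (dd_diff _ t))
    (mul_ne_zero (dd_ne_zero hp (by nlinarith)) (dd_ne_zero hq (by nlinarith)))

theorem int_inv_sq {δ : ℝ} (hδ : 0 < δ) : Integrable (fun r : ℝ => 1 / ((r : ℂ) - δ * I) ^ 2) ∧
    ∫ r : ℝ, 1 / ((r : ℂ) - δ * I) ^ 2 = 0 := by
  have hne : ∀ r : ℝ, (r : ℂ) - δ * I ≠ 0 := fun r h => by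
    have := congrArg Complex.im h
    simp at this
    exact hδ.ne' this
  have hi : Integrable (fun r : ℝ => 1 / ((r : ℂ) - δ * I) ^ 2) := by
    refine (integrable_inv_one_add_sq.const_mul (1 + 1 / δ ^ 2)).mono'
      (Continuous.aestronglyMeasurable (continuous_const.div (by fun_prop)
        fun r => pow_ne_zero 2 (hne r))) (Eventually.of_forall fun r => ?_)
    rw [norm_div, norm_one, norm_pow, Complex.sq_norm, Complex.normSq_apply]
    simp only [sub_re, ofReal_re, mul_re, I_re, mul_zero, ofReal_im, I_im, mul_one, sub_self,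
      sub_zero, sub_im, mul_im, add_zero, zero_sub]
    rw [← div_eq_mul_inv, div_le_div_iff₀ (by nlinarith [mul_self_nonneg r, mul_pos hδ hδ])
      (by positivity)]
    have : 1 / δ ^ 2 * (δ * δ) = 1 := by field_simp
    nlinarith [mul_nonneg (show 0 ≤ 1 / δ ^ 2 by positivity) (mul_self_nonneg r), mul_self_nonneg δ]
  refine ⟨hi, ?_⟩
  have ht : ∀ l : Filter ℝ, Tendsto (fun r : ℝ => |r|) l atTop →
      Tendsto (fun r : ℝ => -((r : ℂ) - δ * I)⁻¹) l (𝓝 0) := fun l hl => by
    rw [← neg_zero]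
    refine (tendsto_inv₀_cobounded.comp (tendsto_norm_atTop_iff_cobounded.1
      (tendsto_atTop_mono (fun r => ?_) hl))).neg
    simpa using Complex.abs_re_le_norm ((r : ℂ) - δ * I)
  have := integral_of_hasDerivAt_of_tendsto (f := fun r : ℝ => -((r : ℂ) - δ * I)⁻¹)
    (fun r => by
      have := ((((hasDerivAt_id (r : ℂ)).sub_const (δ * I)).inv (hne r)).neg).comp_ofReal
      refine this.congr_deriv ?_
      simp [neg_div]) hi (ht _ tendsto_abs_atBot_atTop) (ht _ tendsto_abs_atTop_atTop)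
  simpa using this

end ReDlAux

open ReDlAux in
theorem reDl : ReDl := by
  intro p q z hp hq hz hz'
  set A : ℝ := (p + q - 2 * z) / (p * q) with hA
  set δ : ℝ := 1 / (p + q) with hδ
  have hδ0 : 0 < δ := by positivity
  have hδ1 : δ * (p + q) = 1 := one_div_mul_cancel (by positivity)
  have hpi := Real.pi_gt_three
  set f : ℂ → ℂ := dslope (dslope (ph p q z) 0) 0 with hf
  have hs : ∀ a : ℝ, 0 < a → Shared.HoloIntegral.strip a ∈ 𝓝 (0 : ℂ) := fun a ha =>
    (Shared.HoloIntegral.isOpen_strip a).mem_nhds (by simpa [Shared.HoloIntegral.strip] using ha)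
  have hd : DifferentiableOn ℂ f (Shared.HoloIntegral.strip (3 * δ)) :=
    (differentiableOn_dslope (hs _ (by positivity))).2
      ((differentiableOn_dslope (hs _ (by positivity))).2 fun t ht =>
        (ph_diff hp hq z (by
          have : |t.im| < 3 * δ := ht
          nlinarith)).differentiableWithinAt)
  have h0 : deriv (ph p q z) 0 = 0 := by
    have h1 := (ph_diff hp hq z (t := 0) (by simp; positivity)).hasDerivAt
    have h2 : HasDerivAt (ph p q z) (deriv (ph p q z) 0) (-0) := by simpa using h1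
    have h3 := h2.comp (0 : ℂ) (hasDerivAt_neg (0 : ℂ))
    have h4 : ph p q z ∘ Neg.neg = ph p q z := funext (ph_even p q z)
    rw [h4] at h3
    have := h1.unique h3
    linear_combination this / 2
  have hfe : ∀ t : ℂ, t ≠ 0 →
      f t = kern p q z t - kern p q (p + q - z : ℝ) t - A * (1 / t ^ 2) := fun t ht => by
    rw [hf, dslope_of_ne _ ht, slope_def_field, dslope_same, h0, dslope_of_ne _ ht, slope_def_field,
      ph_zero, ph_ne _ _ _ ht, sub_zero, sub_zero, ← hA]
    field_simp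
  obtain ⟨C1, hC1, k1⟩ := kern_far hp hq hz hz'
  obtain ⟨C2, hC2, k2⟩ := kern_far hp hq (z := p + q - z) (by linarith) (by linarith)
  obtain ⟨M, hM⟩ := (isCompact_Icc.reProdIm isCompact_Icc :
    IsCompact (Icc (-1 : ℝ) 1 ×ℂ Icc (-(2 * δ)) (2 * δ))).exists_bound_of_continuousOn
    (hd.continuousOn.mono fun t ht => by
      have : |t.im| ≤ 2 * δ := abs_le.2 ht.2
      show |t.im| < 3 * δ
      linarith)
  have hM0 : 0 ≤ M := (norm_nonneg _).trans (hM 0 ⟨by simp, by simp; positivity⟩)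
  have key := Shared.HoloIntegral.integral_shift (f := f) (a := 2 * δ) (by positivity)
    (hd.mono fun t ht => by
      have : |t.im| < 2 * δ := ht
      show |t.im| < 3 * δ
      linarith)
    (integrable_inv_one_add_sq.const_mul (5 * (M + C1 + C2 + |A|)))
    (fun x w hw hx => by
      have hw' : |w.im| < 2 * δ := hw
      have h1 : |x| ≤ |w.re| + 1 := by
        have := abs_sub_abs_le_abs_sub x w.re
        rw [abs_sub_comm] at this
        linarith
      have h2 : x ^ 2 ≤ (|w.re| + 1) ^ 2 := by rw [← sq_abs]; gcongr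
      rw [← div_eq_mul_inv, le_div_iff₀ (by positivity)]
      rcases le_total |w.re| 1 with h | h
      · have := hM w ⟨abs_le.1 h, abs_le.1 hw'.le⟩
        have h3 : 1 + x ^ 2 ≤ 5 := by nlinarith [abs_nonneg w.re]
        calc _ ≤ M * 5 := by gcongr
          _ ≤ _ := by nlinarith [abs_nonneg A]
      · have hw0 : w ≠ 0 := fun h0 => by simp [h0] at h; linarith
        have h3 : 1 + x ^ 2 ≤ 5 * w.re ^ 2 := by rw [← sq_abs w.re]; nlinarith
        have h4 : 0 < w.re ^ 2 := by rw [← sq_abs w.re]; positivity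
        have h5 : ‖(A : ℂ) * (1 / w ^ 2)‖ ≤ |A| / w.re ^ 2 := by
          rw [norm_mul, Complex.norm_real, Real.norm_eq_abs, norm_div, norm_one, norm_pow,
            mul_one_div, ← sq_abs w.re]
          gcongr
          exact Complex.abs_re_le_norm w
        have h6 : ‖f w‖ ≤ (M + C1 + C2 + |A|) / w.re ^ 2 := by
          rw [hfe w hw0]
          refine (norm_sub_le _ _).trans ((add_le_add ((norm_sub_le _ _).trans
            (add_le_add (k1 w h) (k2 w h))) h5).trans ?_)
          rw [← add_div, ← add_div]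
          gcongr
          linarith
        calc _ ≤ (M + C1 + C2 + |A|) / w.re ^ 2 * (5 * w.re ^ 2) := by gcongr
          _ = _ := by rw [mul_comm 5, ← mul_assoc, div_mul_cancel₀ _ h4.ne', mul_comm])
    (y := -δ) (by rw [abs_neg, abs_of_pos hδ0]; linarith)
  have hne : ∀ r : ℝ, (r : ℂ) - δ * I ≠ 0 := fun r h => by
    have := congrArg Complex.im h
    simp at this
    exact hδ0.ne' this
  have i1 := kern_integrable' hp hq (z := z) hz hz' hδ0 (by linarith)
  have i2 := kern_integrable' hp hq (z := (p + q - z : ℝ)) (by simp; linarith) (by simp; linarith)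
    hδ0 (by linarith)
  obtain ⟨i3, i4⟩ := int_inv_sq hδ0
  have e1 : ∫ x : ℝ, f (x + (-δ : ℝ) * I) = dl p q z - dl p q (p + q - z : ℝ) := by
    have : ∀ x : ℝ, (x : ℂ) + (-δ : ℝ) * I = x - δ * I := fun x => by push_cast; ring
    simp only [this, hfe _ (hne _)]
    have i5 : Integrable fun r : ℝ =>
        kern p q z (r - δ * I) - kern p q (p + q - z : ℝ) (r - δ * I) := i1.sub i2
    rw [integral_sub i5 (i3.const_mul _), integral_sub i1 i2, integral_const_mul, i4,
      mul_zero, sub_zero]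
    rfl
  have e2 : ∫ x : ℝ, f x = ((2 * J p q z : ℝ) : ℂ) := by
    rw [J, ← integral_comp_abs, ← integral_complex_ofReal]
    refine integral_congr_ae ?_
    filter_upwards [compl_mem_ae_iff.2 (measure_singleton (0 : ℝ))] with x hx
    have hx0 : x ≠ 0 := hx
    have hpos : ∀ y : ℝ, y ≠ 0 → f y = (((gOdd p q z y - A / y) / y : ℝ) : ℂ) := fun y hy => by
      have hy' : (y : ℂ) ≠ 0 := by exact_mod_cast hy
      rw [hfe _ hy', gOdd, kern, kern]
      push_cast
      rw [← sub_div, ← div_div, sub_div _ _ (y : ℂ)]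
      congr 1
      field_simp
    rcases lt_or_gt_of_ne hx0 with h | h
    · rw [abs_of_neg h, ← hpos _ (neg_ne_zero.2 hx0)]
      have hx' : (x : ℂ) ≠ 0 := by exact_mod_cast hx0
      have h1 := kern_neg p q (p + q - z) x
      rw [show p + q - (p + q - z) = z by ring] at h1
      rw [ofReal_neg, hfe _ hx', hfe _ (neg_ne_zero.2 hx'), kern_neg, h1]
      ring
    · rw [abs_of_pos h, hpos _ hx0]
  rw [e1, e2, dl_conj, sub_neg_eq_add, Complex.add_conj] at key
  have := ofReal_injective key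
  linarith

end Pool.Agent.RM
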