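import Pool.Agent.Lib.MP_ca56d1_nt.RM.StubA
import Pool.Agent.Lib.MP_ca56d1_nt.Theta

/-! Bounds for shifted theta series of a plane lattice. -/

namespace Pool.Agent.RM

open Stark Filter Topology

namespace ThetaBdAux

/-- One term of the theta series. -/
noncomputable def tm (j : ℕ) (x y p q : ℝ) : ℝ :=
  (Real.exp y * q) ^ j * Real.exp (-Real.pi * ((Real.exp x * p) ^ 2 + (Real.exp y * q) ^ 2))

/-- A Gaussian. -/
noncomputable def gs (a b p q : ℝ) : ℝ := Real.exp (-Real.pi * (a * p ^ 2 + b * q ^ 2))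

theorem gs_pos (a b p q : ℝ) : 0 < gs a b p q := Real.exp_pos _

theorem thS_eq (j : ℕ) (B : Matrix (Fin 2) (Fin 2) ℝ) (c : Fin 2 → ℝ) (x y : ℝ) :
    thS j B c x y = ∑' k, tm j x y (lpt B k 0 + c 0) (lpt B k 1 + c 1) := rfl

theorem abs_tm (j : ℕ) (x y p q : ℝ) : |tm j x y p q| =
    |Real.exp y * q| ^ j * Real.exp (-Real.pi * ((Real.exp x * p) ^ 2 + (Real.exp y * q) ^ 2)) := by
  rw [tm, abs_mul, abs_pow, abs_of_pos (Real.exp_pos _)]

theorem summable_gs {B : Matrix (Fin 2) (Fin 2) ℝ} (hB : B.det ≠ 0) (c : Fin 2 → ℝ) {a b : ℝ}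
    (ha : 0 < a) (hb : 0 < b) :
    Summable fun k => gs a b (lpt B k 0 + c 0) (lpt B k 1 + c 1) := by
  have h := summable_gauss B hB (fun i => ((![a, b] i : ℝ) : ℂ))
    (fun i => by rw [Complex.ofReal_re]; fin_cases i <;> simpa) c
  refine h.congr fun k => ?_
  rw [← Real.norm_of_nonneg (gs_pos _ _ _ _).le, ← Complex.norm_real, gs, Fin.sum_univ_two]
  congr 1
  simp

theorem sq_exp (x p : ℝ) : (Real.exp x * p) ^ 2 = Real.exp (2 * x) * p ^ 2 := by
  rw [mul_pow, ← Real.exp_nat_mul]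
  norm_num

theorem tm_le (j : ℕ) {x y a b : ℝ} (p q : ℝ) (ha : a ≤ Real.exp (2 * x) / 2)
    (hb : b ≤ Real.exp (2 * y) / 2) :
    |tm j x y p q| ≤ j.factorial * Real.exp 1 * gs a b p q := by
  rw [abs_tm, gs]
  have h1 := Real.pow_div_factorial_le_exp _ (abs_nonneg (Real.exp y * q)) j
  have hf : (0 : ℝ) < j.factorial := by exact_mod_cast j.factorial_pos
  rw [div_le_iff₀ hf] at h1
  refine (mul_le_mul_of_nonneg_right h1 (Real.exp_pos _).le).trans ?_
  rw [mul_comm (Real.exp _) (j.factorial : ℝ), mul_assoc, mul_assoc, ← Real.exp_add,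
    ← Real.exp_add]
  refine mul_le_mul_of_nonneg_left (Real.exp_le_exp.2 ?_) hf.le
  have h2 : a * p ^ 2 ≤ (Real.exp x * p) ^ 2 / 2 := by
    rw [sq_exp]
    nlinarith [sq_nonneg p]
  have h3 : b * q ^ 2 ≤ (Real.exp y * q) ^ 2 / 2 := by
    rw [sq_exp]
    nlinarith [sq_nonneg q]
  rw [← sq_abs (Real.exp y * q)] at h3 ⊢
  generalize |Real.exp y * q| = t at h3 ⊢
  have h4 := sq_nonneg (Real.exp x * p)
  generalize (Real.exp x * p) ^ 2 = s at h2 h4 ⊢
  have h5 := Real.pi_gt_three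
  have h6 := mul_le_mul_of_nonneg_left h2 Real.pi_pos.le
  have h7 := mul_le_mul_of_nonneg_left h3 Real.pi_pos.le
  nlinarith [sq_nonneg (t - 1), sq_nonneg t, mul_nonneg Real.pi_pos.le h4]

theorem summable_abs {B : Matrix (Fin 2) (Fin 2) ℝ} (hB : B.det ≠ 0) (c : Fin 2 → ℝ) (j : ℕ)
    (x y : ℝ) : Summable fun k => |tm j x y (lpt B k 0 + c 0) (lpt B k 1 + c 1)| :=
  Summable.of_nonneg_of_le (fun _ => abs_nonneg _) (fun _ => tm_le j _ _ le_rfl le_rfl)
    ((summable_gs hB c (by positivity) (by positivity)).mul_left _)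

theorem cont {B : Matrix (Fin 2) (Fin 2) ℝ} (hB : B.det ≠ 0) (c : Fin 2 → ℝ) (j : ℕ) :
    Continuous fun v : ℝ × ℝ => thS j B c v.1 v.2 := by
  rw [continuous_iff_continuousAt]
  intro v₀
  have hopen : IsOpen {v : ℝ × ℝ | v₀.1 - 1 < v.1 ∧ v₀.2 - 1 < v.2} :=
    (isOpen_lt continuous_const continuous_fst).inter (isOpen_lt continuous_const continuous_snd)
  refine ContinuousOn.continuousAt ?_ (hopen.mem_nhds ⟨by linarith, by linarith⟩)
  simp only [thS_eq]
  refine continuousOn_tsum (fun k => Continuous.continuousOn (by unfold tm; fun_prop))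
    ((summable_gs hB c (a := Real.exp (2 * (v₀.1 - 1)) / 2) (b := Real.exp (2 * (v₀.2 - 1)) / 2)
      (by positivity) (by positivity)).mul_left (j.factorial * Real.exp 1)) fun k v hv => ?_
  refine tm_le j _ _ ?_ ?_
  · have := Real.exp_le_exp.2 (show 2 * (v₀.1 - 1) ≤ 2 * v.1 by linarith [hv.1])
    linarith
  · have := Real.exp_le_exp.2 (show 2 * (v₀.2 - 1) ≤ 2 * v.2 by linarith [hv.2])
    linarith

theorem decay (l R : ℝ) {μ : ℝ} (hμ : 0 < μ) : ∃ C : ℝ, 0 ≤ C ∧ ∀ τ x y : ℝ, 0 ≤ τ → τ - l ≤ x →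
    τ - l ≤ y → ∀ j ≤ 1, ∀ p q : ℝ, μ ≤ p ^ 2 + q ^ 2 → |tm j x y p q| ≤
      C * Real.exp (-R * τ) * gs (Real.exp (-(2 * l)) / 2) (Real.exp (-(2 * l)) / 2) p q := by
  set E : ℝ := Real.exp (-(2 * l)) / 2 with hE
  have hE0 : 0 < E := by positivity
  set δ : ℝ := Real.pi * E * μ with hδ
  have hδ0 : 0 < δ := by have := Real.pi_pos; positivity
  refine ⟨Real.exp (1 + R ^ 2 / δ), (Real.exp_pos _).le, fun τ x y hτ hx hy j hj p q hpq => ?_⟩
  have h1 : ∀ z, τ - l ≤ z → E * Real.exp (2 * τ) ≤ Real.exp (2 * z) / 2 := fun z hz => by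
    have := Real.exp_le_exp.2 (show -(2 * l) + 2 * τ ≤ 2 * z by linarith)
    rw [Real.exp_add] at this
    rw [hE]
    linarith
  refine (tm_le j p q (h1 x hx) (h1 y hy)).trans ?_
  have hj' : (j.factorial : ℝ) = 1 := by
    interval_cases j <;> simp
  rw [hj', one_mul, gs, gs, ← Real.exp_add, ← Real.exp_add, ← Real.exp_add, Real.exp_le_exp]
  have h2 := Real.quadratic_le_exp_of_nonneg (show 0 ≤ 2 * τ by linarith)
  generalize Real.exp (2 * τ) = t at h2
  have h3 : 0 ≤ Real.pi * E * ((t - 1) * (p ^ 2 + q ^ 2 - μ)) := by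
    have := Real.pi_pos
    have h5 : 0 ≤ t - 1 := by nlinarith
    have h6 : 0 ≤ p ^ 2 + q ^ 2 - μ := by linarith
    positivity
  have h4 : δ * τ ^ 2 ≤ δ * (t - 1) := mul_le_mul_of_nonneg_left (by nlinarith) hδ0.le
  have h5 : R * τ ≤ δ * τ ^ 2 + R ^ 2 / δ := by
    have h6 : R ^ 2 / δ = δ * (R / δ) ^ 2 := by field_simp
    have h7 : R * τ = δ * (R / δ * τ) := by field_simp
    rw [h6, h7, ← mul_add]
    exact mul_le_mul_of_nonneg_left (by nlinarith [sq_nonneg (τ - R / δ), sq_nonneg τ, sq_nonneg (R / δ)])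
      hδ0.le
  nlinarith

theorem lower {B : Matrix (Fin 2) (Fin 2) ℝ} (hB : B.det ≠ 0) {c : Fin 2 → ℝ}
    (hc : ∀ k, lpt B k + c ≠ 0) :
    ∃ μ : ℝ, 0 < μ ∧ ∀ k, μ ≤ (lpt B k 0 + c 0) ^ 2 + (lpt B k 1 + c 1) ^ 2 := by
  have h := (summable_gs hB c one_pos one_pos).tendsto_cofinite_zero.eventually
    (gt_mem_nhds (Real.exp_pos (-Real.pi)))
  rw [eventually_cofinite] at h
  obtain ⟨k, -, hk⟩ := Set.exists_min_image _
    (fun k => (lpt B k 0 + c 0) ^ 2 + (lpt B k 1 + c 1) ^ 2) (h.insert 0) ⟨0, Set.mem_insert _ _⟩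
  refine ⟨min 1 ((lpt B k 0 + c 0) ^ 2 + (lpt B k 1 + c 1) ^ 2), lt_min one_pos ?_, fun k' => ?_⟩
  · by_contra h0
    refine hc k (funext fun i => ?_)
    fin_cases i
    · exact pow_eq_zero_iff (two_ne_zero) |>.1 (show (lpt B k 0 + c 0) ^ 2 = 0 by
        nlinarith [sq_nonneg (lpt B k 0 + c 0), sq_nonneg (lpt B k 1 + c 1)])
    · exact pow_eq_zero_iff (two_ne_zero) |>.1 (show (lpt B k 1 + c 1) ^ 2 = 0 by
        nlinarith [sq_nonneg (lpt B k 0 + c 0), sq_nonneg (lpt B k 1 + c 1)])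
  · by_cases h1 : gs 1 1 (lpt B k' 0 + c 0) (lpt B k' 1 + c 1) < Real.exp (-Real.pi)
    · rw [gs, Real.exp_lt_exp] at h1
      refine (min_le_left _ _).trans ?_
      nlinarith [Real.pi_pos]
    · exact (min_le_right _ _).trans (hk k' (Set.mem_insert_of_mem _ h1))

theorem poisson {B : Matrix (Fin 2) (Fin 2) ℝ} (hB : B.det ≠ 0) (c : Fin 2 → ℝ) (x y : ℝ) :
    (thS 0 B c x y : ℂ) = ((Real.exp (-(x + y)) / |B.det| : ℝ) : ℂ) *
      ∑' k, (tm 0 (-x) (-y) (lpt (B⁻¹).transpose k 0) (lpt (B⁻¹).transpose k 1) : ℂ) *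
        Complex.exp (Complex.I * ((2 * Real.pi * (lpt (B⁻¹).transpose k 0 * c 0 +
          lpt (B⁻¹).transpose k 1 * c 1) : ℝ) : ℂ)) := by
  have h := poisson_gauss B hB (fun i => ((Real.exp (2 * ![x, y] i) : ℝ) : ℂ))
    (fun i => by rw [Complex.ofReal_re]; exact Real.exp_pos _) c
  have h0 : ∀ z : ℝ, 1 / ((Real.exp (2 * z) : ℝ) : ℂ) ^ (1 / 2 : ℂ) = (Real.exp (-z) : ℝ) := by
    intro z
    have h1 : ((1 / 2 : ℂ)) = ((1 / 2 : ℝ) : ℂ) := by push_cast; ring
    have h2 : 2 * z * (1 / 2) = z := by ring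
    rw [h1, ← Complex.ofReal_cpow (Real.exp_pos _).le, ← Real.exp_mul, Real.exp_neg, h2,
      Complex.ofReal_inv, one_div]
  simp only [Fin.sum_univ_two, Fin.prod_univ_two, Matrix.cons_val_zero, Matrix.cons_val_one,
    h0] at h
  rw [thS_eq, Complex.ofReal_tsum]
  refine Eq.trans (tsum_congr fun k => ?_) (h.trans ?_)
  · rw [tm, pow_zero, one_mul, sq_exp, sq_exp, Complex.ofReal_exp]
    congr 1
    push_cast
    ring
  · congr 1
    · rw [neg_add, Real.exp_add]
      push_cast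
      ring
    · refine tsum_congr fun k => ?_
      rw [tm, pow_zero, one_mul, sq_exp, sq_exp, mul_neg 2 x, mul_neg 2 y, Real.exp_neg,
        Real.exp_neg]
      generalize Real.exp (2 * x) = a
      generalize Real.exp (2 * y) = b
      rw [Complex.ofReal_exp, ← Complex.exp_add]
      congr 1
      push_cast
      ring

theorem lpt_zero (B : Matrix (Fin 2) (Fin 2) ℝ) (i : Fin 2) : lpt B 0 i = 0 := by
  simp [lpt, Matrix.mulVec, dotProduct]

theorem norm_ph (r t : ℝ) : ‖(r : ℂ) * Complex.exp (Complex.I * (t : ℂ))‖ = |r| := by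
  rw [norm_mul, Complex.norm_exp_I_mul_ofReal, mul_one, Complex.norm_real, Real.norm_eq_abs]

theorem summable_dual {B : Matrix (Fin 2) (Fin 2) ℝ} (hB : B.det ≠ 0) (j : ℕ) (x y : ℝ) :
    Summable fun k => |tm j x y (lpt (B⁻¹).transpose k 0) (lpt (B⁻¹).transpose k 1)| := by
  simpa using summable_abs (ThetaAux.det_inv_ne hB) 0 j x y

theorem even_le {B : Matrix (Fin 2) (Fin 2) ℝ} (hB : B.det ≠ 0) (c : Fin 2 → ℝ) (x y : ℝ)
    {g : (Fin 2 → ℤ) → ℝ} {s : ℝ} (hg : HasSum g s) (h0 : 0 ≤ g 0) (h1 : ∀ k, k ≠ 0 →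
      |tm 0 (-x) (-y) (lpt (B⁻¹).transpose k 0) (lpt (B⁻¹).transpose k 1)| ≤ g k) :
    |thS 0 B c x y - Real.exp (-(x + y)) / (|B.det|)| ≤ Real.exp (-(x + y)) / |B.det| * s := by
  classical
  rw [← Real.norm_eq_abs, ← Complex.norm_real, Complex.ofReal_sub, poisson hB,
    Summable.tsum_eq_add_tsum_ite (Summable.of_norm (by
      simp only [norm_ph]; exact summable_dual hB 0 _ _)) 0]
  simp only [lpt_zero]
  rw [show (tm 0 (-x) (-y) 0 0 : ℂ) = 1 by simp [tm]]
  simp only [zero_mul, add_zero, mul_zero, Complex.ofReal_zero, Complex.exp_zero, mul_one]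
  rw [mul_add, mul_one, add_sub_cancel_left, norm_mul, Complex.norm_real,
    Real.norm_of_nonneg (by positivity)]
  refine mul_le_mul_of_nonneg_left (tsum_of_norm_bounded hg fun k => ?_) (by positivity)
  split_ifs with hk
  · rw [norm_zero, hk]
    exact h0
  · rw [norm_ph]
    exact h1 k hk

theorem hasDerivAt_tm (x y p q h : ℝ) : HasDerivAt (fun h => tm 0 x y p (q + h))
    (-(2 * Real.pi * Real.exp y) * tm 1 x y p (q + h)) h := by
  have h1 : HasDerivAt (fun h => Real.exp y * (q + h)) (Real.exp y * 1) h :=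
    ((hasDerivAt_id h).const_add q).const_mul _
  have h2 := (((h1.pow 2).const_add ((Real.exp x * p) ^ 2)).const_mul (-Real.pi)).exp
  simp only [tm, pow_zero, one_mul]
  refine h2.congr_deriv ?_
  simp only [Pi.pow_apply]
  ring

theorem hasDerivAt_thS {B : Matrix (Fin 2) (Fin 2) ℝ} (hB : B.det ≠ 0) (c : Fin 2 → ℝ) (x y : ℝ) :
    HasDerivAt (fun h => thS 0 B ![c 0, c 1 + h] x y)
      (-(2 * Real.pi * Real.exp y) * thS 1 B c x y) 0 := by
  have h := hasDerivAt_tsum_of_isPreconnected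
    (g := fun k h => tm 0 x y (lpt B k 0 + c 0) (lpt B k 1 + c 1 + h))
    (g' := fun k h => -(2 * Real.pi * Real.exp y) *
      tm 1 x y (lpt B k 0 + c 0) (lpt B k 1 + c 1 + h)) (y₀ := 0) (y := 0)
    ((summable_gs hB c (a := Real.exp (2 * x) / 2) (b := Real.exp (2 * y) / 4)
      (by positivity) (by positivity)).mul_left (2 * Real.pi * Real.exp y *
        (Real.exp 1 * Real.exp (Real.pi * (Real.exp (2 * y) / 2)))))
    (isOpen_Ioo (a := -1) (b := 1)) isPreconnected_Ioo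
    (fun k h _ => hasDerivAt_tm _ _ _ _ _) (fun k h hh => ?_) ⟨by norm_num, by norm_num⟩
    (by simpa using (summable_abs hB c 0 x y).of_abs) ⟨by norm_num, by norm_num⟩
  · simp only [add_zero, tsum_mul_left] at h
    simp only [thS_eq, Matrix.cons_val_zero, Matrix.cons_val_one, ← add_assoc]
    exact h
  · have hp : 0 < 2 * Real.pi * Real.exp y := by have := Real.pi_pos; positivity
    rw [norm_mul, norm_neg, Real.norm_of_nonneg hp.le, mul_assoc _ (_ * _)]
    refine mul_le_mul_of_nonneg_left ((tm_le 1 _ _ le_rfl le_rfl).trans ?_) hp.le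
    rw [Nat.factorial_one, Nat.cast_one, one_mul, gs, gs, ← Real.exp_add, ← Real.exp_add,
      ← Real.exp_add, Real.exp_le_exp]
    generalize lpt B k 1 + c 1 = q
    have h1 : q ^ 2 / 2 - 1 ≤ (q + h) ^ 2 := by
      nlinarith [sq_nonneg (q + 2 * h), hh.1, hh.2]
    have h2 := mul_le_mul_of_nonneg_left h1
      (show 0 ≤ Real.pi * (Real.exp (2 * y) / 2) by have := Real.pi_pos; positivity)
    nlinarith

theorem odd_le {B : Matrix (Fin 2) (Fin 2) ℝ} (hB : B.det ≠ 0) (c : Fin 2 → ℝ) (x y : ℝ)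
    {g : (Fin 2 → ℤ) → ℝ} {s : ℝ} (hg : HasSum g s) (h0 : 0 ≤ g 0) (h1 : ∀ k, k ≠ 0 →
      |tm 1 (-x) (-y) (lpt (B⁻¹).transpose k 0) (lpt (B⁻¹).transpose k 1)| ≤ g k) :
    |thS 1 B c x y| ≤ Real.exp (-(x + y)) / |B.det| * s := by
  have hp : 0 < 2 * Real.pi * Real.exp y := by have := Real.pi_pos; positivity
  have h2 : ∀ k, |tm 1 (-x) (-y) (lpt (B⁻¹).transpose k 0) (lpt (B⁻¹).transpose k 1)| ≤ g k := by
    intro k
    by_cases hk : k = 0
    · simpa [hk, lpt_zero, tm] using h0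
    · exact h1 k hk
  have hs : 0 ≤ s := hg.nonneg fun k => (abs_nonneg _).trans (h2 k)
  have h := (hasDerivAt_thS hB c x y).le_of_lip'
    (C := 2 * Real.pi * Real.exp y * (Real.exp (-(x + y)) / |B.det| * s)) (by positivity)
    (Eventually.of_forall fun h => ?_)
  · rw [norm_mul, norm_neg, Real.norm_of_nonneg hp.le] at h
    exact le_of_mul_le_mul_left h hp
  · rw [← Complex.norm_real, Complex.ofReal_sub, poisson hB, poisson hB, ← mul_sub,
      ← Summable.tsum_sub (Summable.of_norm (by simp only [norm_ph]; exact summable_dual hB 0 _ _))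
        (Summable.of_norm (by simp only [norm_ph]; exact summable_dual hB 0 _ _)), norm_mul,
      Complex.norm_real, Real.norm_of_nonneg (by positivity), sub_zero]
    refine (mul_le_mul_of_nonneg_left (tsum_of_norm_bounded
      (hg.mul_left (2 * Real.pi * Real.exp y * ‖h‖)) fun k => ?_) (by positivity)).trans_eq
      (by ring)
    refine le_trans ?_ (mul_le_mul_of_nonneg_left (h2 k) (by positivity))
    simp only [Matrix.cons_val_zero, Matrix.cons_val_one, add_zero]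
    generalize lpt (B⁻¹).transpose k 0 = p
    generalize lpt (B⁻¹).transpose k 1 = q
    have e : Complex.exp (Complex.I * ((2 * Real.pi * (p * c 0 + q * (c 1 + h)) : ℝ) : ℂ)) =
        Complex.exp (Complex.I * ((2 * Real.pi * (p * c 0 + q * c 1) : ℝ) : ℂ)) *
          Complex.exp (Complex.I * ((2 * Real.pi * q * h : ℝ) : ℂ)) := by
      rw [← Complex.exp_add]
      congr 1
      push_cast
      ring
    rw [e, ← mul_assoc, ← mul_sub_one, norm_mul, norm_ph]
    refine (mul_le_mul_of_nonneg_left Real.norm_exp_I_mul_ofReal_sub_one_le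
      (abs_nonneg _)).trans_eq ?_
    rw [abs_tm, abs_tm, pow_zero, pow_one, abs_mul (Real.exp (-y)), abs_of_pos (Real.exp_pos _),
      norm_mul, norm_mul, Real.norm_of_nonneg (by positivity : 0 ≤ 2 * Real.pi), Real.exp_neg y,
      Real.norm_eq_abs q]
    have := Real.exp_pos y
    field_simp

end ThetaBdAux

open ThetaBdAux

theorem thetaBd : ThetaBd := by
  intro B c l hB hc
  refine ⟨cont hB c, fun j x y => ?_, fun R => ?_⟩
  · simp only [← abs_tm]
    exact summable_abs hB c j x y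
  obtain ⟨μ, hμ, hk⟩ := lower hB hc
  obtain ⟨μ', hμ', hk'⟩ := ThetaAux.exists_lower (ThetaAux.det_inv_ne hB)
  simp only [Fin.sum_univ_two] at hk'
  obtain ⟨C, hC, h⟩ := decay l R hμ
  obtain ⟨C', hC', h'⟩ := decay l (R + 2) hμ'
  have hE : 0 < Real.exp (-(2 * l)) / 2 := by positivity
  have hs := (summable_gs hB c hE hE).hasSum
  have hs' := (summable_gs (ThetaAux.det_inv_ne hB) 0 hE hE).hasSum
  simp only [Pi.zero_apply, add_zero] at hs'
  generalize (∑' k, gs _ _ (lpt B k 0 + c 0) (lpt B k 1 + c 1)) = s at hs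
  generalize (∑' k, gs _ _ (lpt (B⁻¹).transpose k 0) (lpt (B⁻¹).transpose k 1)) = s' at hs'
  refine ⟨max (C * s) (C' * s' / |B.det|), fun u τ hu => ⟨fun hτ j hj => ?_, fun hτ => ?_⟩⟩
  · rw [abs_le] at hu
    refine le_trans ?_ (mul_le_mul_of_nonneg_right (le_max_left _ _) (Real.exp_pos _).le)
    rw [thS_eq, ← Real.norm_eq_abs]
    refine (tsum_of_norm_bounded (hs.mul_left (C * Real.exp (-R * τ))) fun k =>
      h τ _ _ hτ (by linarith) (by linarith) j hj _ _ (hk k)).trans_eq (by ring)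
  · rw [abs_le] at hu
    have e1 : -(τ + u + (τ - u)) = -2 * τ := by ring
    have e2 : Real.exp (-2 * τ) / |B.det| * (C' * Real.exp (-(R + 2) * -τ) * s') ≤
        max (C * s) (C' * s' / |B.det|) * Real.exp (R * τ) := by
      refine le_trans (le_of_eq ?_)
        (mul_le_mul_of_nonneg_right (le_max_right _ _) (Real.exp_pos _).le)
      rw [show R * τ = -2 * τ + -(R + 2) * -τ by ring, Real.exp_add]
      ring
    have h0 : 0 ≤ C' * Real.exp (-(R + 2) * -τ) * gs (Real.exp (-(2 * l)) / 2)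
        (Real.exp (-(2 * l)) / 2) (lpt (B⁻¹).transpose 0 0) (lpt (B⁻¹).transpose 0 1) :=
      mul_nonneg (by positivity) (gs_pos _ _ _ _).le
    have a1 := even_le hB c (τ + u) (τ - u) (hs'.mul_left (C' * Real.exp (-(R + 2) * -τ))) h0
      fun k hk0 => h' (-τ) _ _ (by linarith) (by linarith) (by linarith) 0 zero_le_one _ _
        (hk' k hk0)
    have a2 := odd_le hB c (τ + u) (τ - u) (hs'.mul_left (C' * Real.exp (-(R + 2) * -τ))) h0
      fun k hk0 => h' (-τ) _ _ (by linarith) (by linarith) (by linarith) 1 le_rfl _ _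
        (hk' k hk0)
    rw [e1] at a1 a2
    exact ⟨a1.trans e2, a2.trans e2⟩

end Pool.Agent.RM
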