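import Pool.Agent.Lib.MP_ca56d1_nt.RM.ThetaCont1
import Pool.Agent.Lib.MP_ca56d1_nt.RM.Basic

/-! Continuation of the even and the odd zeta function of a union of lattice cosets. -/

namespace Pool.Agent.RM

open Complex MeasureTheory Set

namespace ThetaContAux

variable {ι : Type} {Z : Type*} [Fintype Z] {B : Matrix (Fin 2) (Fin 2) ℝ} {c : Z → Fin 2 → ℝ}
  {l : ℝ} {α β : ι → ℝ}

/-- The total theta series on the strip. -/
noncomputable def Th (j : ℕ) (B : Matrix (Fin 2) (Fin 2) ℝ) (c : Z → Fin 2 → ℝ) (p : ℝ × ℝ) : ℝ :=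
  ∑ z, thS j B (c z) (p.2 + p.1) (p.2 - p.1)

theorem th_sum (h : ThetaBd) (hB : B.det ≠ 0)
    (hc : ∀ z (k : Fin 2 → ℤ), B.mulVec (fun i => (k i : ℝ)) + c z ≠ 0)
    (e : ι × ℤ ≃ Z × (Fin 2 → ℤ))
    (h0 : ∀ q, B.mulVec (fun i => ((e q).2 i : ℝ)) 0 + c (e q).1 0 = Real.exp (q.2 * l) * α q.1)
    (h1 : ∀ q, B.mulVec (fun i => ((e q).2 i : ℝ)) 1 + c (e q).1 1 = Real.exp (-(q.2 * l)) * β q.1)
    (j : ℕ) (s : ℂ) (p : ℝ × ℝ) :
    HasSum (fun q : ι × ℤ => G j (α q.1) (β q.1) s (sh (q.2 * l) p))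
      ((Th j B c p : ℂ) * cexp (2 * s * p.2)) := by
  let F : Z × (Fin 2 → ℤ) → ℝ := fun q => tm j (B.mulVec (fun i => (q.2 i : ℝ)) 0 + c q.1 0)
    (B.mulVec (fun i => (q.2 i : ℝ)) 1 + c q.1 1) (p.2 + p.1) (p.2 - p.1)
  have h2 : Summable F := by
    refine Summable.of_abs ((summable_prod_of_nonneg fun q => abs_nonneg _).2
      ⟨fun z => (((h B (c z) l hB (hc z)).2.1 j (p.2 + p.1) (p.2 - p.1))).congr fun k => ?_,
        Summable.of_finite⟩)
    simp only [F, tm]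
    rw [abs_mul (_ ^ j), abs_pow, Real.abs_exp]
  have h3 : HasSum F (Th j B c p) := by
    have h4 := h2.hasSum
    rwa [h2.tsum_prod, tsum_fintype] at h4
  have h4 := (hasSum_ofReal.2 (e.hasSum_iff.2 h3)).mul_right (cexp (2 * s * p.2))
  refine (congrArg (HasSum · _) (funext fun q => ?_)).mp h4
  simp only [F, Function.comp_apply, h0, h1, tm_shift, G, sh, Prod.fst_add, Prod.snd_add,
    add_zero, add_assoc, sub_add_eq_sub_sub]

theorem th_meas (h : ThetaBd) (hB : B.det ≠ 0)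
    (hc : ∀ z (k : Fin 2 → ℤ), B.mulVec (fun i => (k i : ℝ)) + c z ≠ 0) (j : ℕ) :
    Measurable (Th j B c) :=
  Continuous.measurable (continuous_finsetSum _ fun z _ => ((h B (c z) 0 hB (hc z)).1 j).comp
    (f := fun p : ℝ × ℝ => (p.2 + p.1, p.2 - p.1)) (by fun_prop))

theorem th_bd (h : ThetaBd) (hB : B.det ≠ 0)
    (hc : ∀ z (k : Fin 2 → ℤ), B.mulVec (fun i => (k i : ℝ)) + c z ≠ 0) (l R : ℝ) :
    ∃ C : ℝ, ∀ u τ : ℝ, |u| ≤ l →
      |Th 0 B c (u, τ) - (Iic 0).indicator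
        (fun τ => Fintype.card Z / |B.det| * Real.exp (-2 * τ)) τ| ≤ C * Real.exp (-R * |τ|) ∧
      |Th 1 B c (u, τ)| ≤ C * Real.exp (-R * |τ|) := by
  choose C hC using fun z => (h B (c z) l hB (hc z)).2.2 R
  refine ⟨∑ z, C z, fun u τ hu => ?_⟩
  rw [Finset.sum_mul]
  rcases le_or_gt τ 0 with hτ | hτ
  · have e1 : Fintype.card Z / |B.det| * Real.exp (-2 * τ) =
        ∑ _z : Z, Real.exp (-2 * τ) / |B.det| := by
      rw [Finset.sum_const, Finset.card_univ, nsmul_eq_mul]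
      ring
    rw [indicator_of_mem (show τ ∈ Iic 0 from hτ), abs_of_nonpos hτ, neg_mul_neg, e1, Th, Th,
      ← Finset.sum_sub_distrib]
    exact ⟨(Finset.abs_sum_le_sum_abs _ _).trans
        (Finset.sum_le_sum fun z _ => ((hC z u τ hu).2 hτ).1),
      (Finset.abs_sum_le_sum_abs _ _).trans (Finset.sum_le_sum fun z _ => ((hC z u τ hu).2 hτ).2)⟩
  · rw [indicator_of_notMem (show τ ∉ Iic 0 from not_le.2 hτ), abs_of_pos hτ, sub_zero, Th, Th]
    exact ⟨(Finset.abs_sum_le_sum_abs _ _).trans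
        (Finset.sum_le_sum fun z _ => (hC z u τ hu).1 hτ.le 0 zero_le_one),
      (Finset.abs_sum_le_sum_abs _ _).trans
        (Finset.sum_le_sum fun z _ => (hC z u τ hu).1 hτ.le 1 le_rfl)⟩

theorem cont_even {H f : ℂ → ℂ} {A : ℂ} (hH : Differentiable ℂ H)
    (hf : ∀ s : ℂ, 1 < s.re → H s + A / (2 * (s - 1)) = Gammaℝ s * Gammaℝ s / 8 * f s) :
    ∃ W : ℂ → ℂ, StarkStmt.IsCont f W ∧ W 0 = 0 ∧ deriv W 0 = 0 := by
  have hG := differentiable_Gammaℝ_inv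
  have h0 : (Gammaℝ 0)⁻¹ = 0 := by rw [Gammaℝ_eq_zero_iff.2 ⟨0, by simp⟩, inv_zero]
  have h1 : AnalyticAt ℂ (fun s => 8 * (H s + A / (2 * (s - 1)))) 0 :=
    analyticAt_const.mul ((hH.analyticAt 0).add (analyticAt_const.div (by fun_prop) (by simp)))
  refine ⟨fun s => 8 * (H s + A / (2 * (s - 1))) * (Gammaℝ s)⁻¹ * (Gammaℝ s)⁻¹,
    ⟨fun s _ => ?_, (h1.mul (hG.analyticAt 0)).mul (hG.analyticAt 0), fun s hs => ?_⟩,
    by simp only [h0, mul_zero], ?_⟩
  · have h2 := (hH.analyticAt s).meromorphicAt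
    have h3 := (hG.analyticAt s).meromorphicAt
    have h4 : MeromorphicAt (fun s : ℂ => 2 * (s - 1)) s :=
      AnalyticAt.meromorphicAt (by fun_prop)
    exact (((MeromorphicAt.const 8 s).mul (h2.add ((MeromorphicAt.const A s).div h4))).mul h3).mul h3
  · have h2 := Gammaℝ_ne_zero_of_re_pos (one_pos.trans hs)
    simp only [hf s hs]
    field_simp
  · have h2 := ((h1.differentiableAt.hasDerivAt.mul (hG 0).hasDerivAt).mul (hG 0).hasDerivAt).deriv
    simp only [Pi.mul_apply, h0, mul_zero, zero_mul, add_zero] at h2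
    exact h2

theorem main (h : ThetaBd) (hB : B.det ≠ 0) (hl : 0 < l) (hα : ∀ i, α i ≠ 0) (hβ : ∀ i, β i ≠ 0)
    (e : ι × ℤ ≃ Z × (Fin 2 → ℤ))
    (h0 : ∀ q, B.mulVec (fun i => ((e q).2 i : ℝ)) 0 + c (e q).1 0 = Real.exp (q.2 * l) * α q.1)
    (h1 : ∀ q, B.mulVec (fun i => ((e q).2 i : ℝ)) 1 + c (e q).1 1 = Real.exp (-(q.2 * l)) * β q.1) :
    (∀ x : ℝ, 1 < x → Summable fun i => |α i * β i| ^ (-x)) ∧
    (∃ W : ℂ → ℂ, StarkStmt.IsCont (fun s => ∑' i, ((|α i * β i| : ℝ) : ℂ) ^ (-s)) W ∧ W 0 = 0 ∧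
      deriv W 0 = 0) ∧
    ∃ W : ℂ → ℂ, Differentiable ℂ W ∧ ∀ s : ℂ, 1 < s.re →
      W s = ∑' i, ((SignType.sign (β i) : ℝ) : ℂ) * ((|α i * β i| : ℝ) : ℂ) ^ (-s) := by
  have hc : ∀ z (k : Fin 2 → ℤ), B.mulVec (fun i => (k i : ℝ)) + c z ≠ 0 := fun z k hk => by
    have h2 := h0 (e.symm (z, k))
    rw [e.apply_symm_apply] at h2
    exact mul_ne_zero (Real.exp_ne_zero _) (hα _) (h2.symm.trans (congrFun hk 0))
  have : Countable (ι × ℤ) := e.injective.countable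
  have : Countable ι := (Prod.mk_left_injective (0 : ℤ)).countable
  have hs := th_sum h hB hc e h0 h1
  obtain ⟨a1, a2⟩ := entire (l := l) (Ψ := fun p => Th 0 B c p - (Iic 0).indicator
    (fun τ => Fintype.card Z / |B.det| * Real.exp (-2 * τ)) p.2)
    ((th_meas h hB hc 0).sub ((Measurable.indicator (by fun_prop) measurableSet_Iic).comp
      measurable_snd)) fun R => (th_bd h hB hc l R).imp fun C hC u τ hu => (hC u τ hu).1
  obtain ⟨b1, b2⟩ := entire (l := l) (th_meas h hB hc 1)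
    fun R => (th_bd h hB hc l R).imp fun C hC u τ hu => (hC u τ hu).2
  have e0 : ∀ s : ℂ, (fun p : ℝ × ℝ => (Th 0 B c p : ℂ) * cexp (2 * s * p.2)) = fun p =>
      ((Th 0 B c p - (Iic 0).indicator
        (fun τ => Fintype.card Z / |B.det| * Real.exp (-2 * τ)) p.2 : ℝ) : ℂ) * cexp (2 * s * p.2) +
      (((Iic 0).indicator (fun τ => Fintype.card Z / |B.det| * Real.exp (-2 * τ)) p.2 : ℝ) : ℂ) *
        cexp (2 * s * p.2) := fun s => funext fun p => by
    rw [ofReal_sub]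
    ring
  have hS : ∀ x : ℝ, 1 < x → Summable fun i => |α i * β i| ^ (-x) := fun x hx =>
    summ hl hα hβ (one_pos.trans hx) (by rw [e0]; exact (a1 x).add (pole hl _ (s := x) hx).1)
      (hs 0 x)
  have hu := fun j (s : ℂ) (hs : 1 < s.re) => unfold hl hα hβ j (one_pos.trans hs) (hS _ hs)
  simp only [(hs _ _ _).tsum_eq] at hu
  refine ⟨hS, cont_even (A := l * (Fintype.card Z / |B.det| : ℝ)) a2 fun s hs => ?_,
    fun s => 8 * (∫ p, (Th 1 B c p : ℂ) * cexp (2 * s * p.2) ∂mu l) * (Gammaℝ s)⁻¹ *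
      (Gammaℝ (s + 1))⁻¹, ?_, fun s hs => ?_⟩
  · have h2 := hu 0 s hs
    rw [e0, integral_add (a1 s) (pole hl _ hs).1, (pole hl _ hs).2] at h2
    simpa only [Nat.cast_zero, add_zero, pow_zero, one_mul] using h2
  · exact ((b2.const_mul 8).mul differentiable_Gammaℝ_inv).mul
      (differentiable_Gammaℝ_inv.comp (differentiable_id.add_const 1))
  · have h2 := Gammaℝ_ne_zero_of_re_pos (one_pos.trans hs)
    have h3 : Gammaℝ (s + 1) ≠ 0 := Gammaℝ_ne_zero_of_re_pos (by simp only [add_re, one_re]; linarith)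
    simp only [hu 1 s hs, Nat.cast_one, pow_one]
    field_simp

end ThetaContAux

theorem thetaCont (h : ThetaBd) {K : Type*} [Field K] [CharZero K] {σ σ' : K →+* ℝ}
    (hK : RQ σ σ') : ThetaCont σ σ' := by
  intro ε Λ hε hΛ hst h0 ι a ha
  obtain ⟨p, q, hp, hq, hd⟩ := hΛ.exists_periods hK
  obtain ⟨e, he⟩ := par_equiv hK hp hq hd
  have := (hΛ.par_finite hK hd).fintype
  let f : ι × ℤ ≃ Λ := Equiv.ofBijective
    (fun c => ⟨ε ^ c.2 * a c.1, (hst.zpow hε.ne c.2 _).2 (ha.1 c.1)⟩)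
    ⟨fun c c' hc => (ha.2 _ ((hst.zpow hε.ne c.2 _).2 (ha.1 c.1))).unique rfl
      (congrArg Subtype.val hc), fun y => (ha.2 y.1 y.2).exists.imp fun c hc => Subtype.ext hc.symm⟩
  have hf : ∀ c, ((f.trans e.symm c).1 : K) + (f.trans e.symm c).2 0 * p +
      (f.trans e.symm c).2 1 * q = ε ^ c.2 * a c.1 := fun c => by
    rw [← he, Equiv.trans_apply, e.apply_symm_apply]
    rfl
  have ha0 : ∀ i, a i ≠ 0 := fun i hi => h0 (hi ▸ ha.1 i)
  have hz : ∀ n : ℤ, Real.exp (n * Real.log (σ ε)) = σ ε ^ n := fun n => by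
    rw [← Real.log_zpow, Real.exp_log (zpow_pos hε.pos n)]
  refine ThetaContAux.main (B := !![σ p, σ q; σ' p, σ' q]) (l := Real.log (σ ε))
    (c := fun z : ↥(Λ ∩ par p q) => ![σ z, σ' z]) h ?_ (Real.log_pos hε.one_lt)
    (fun i => emb_ne σ (ha0 i)) (fun i => emb_ne σ' (ha0 i)) (f.trans e.symm)
    (fun c => ?_) fun c => ?_
  · rw [Matrix.det_fin_two_of, mul_comm (σ q)]
    exact hd
  · have h1 := congrArg σ (hf c)
    rw [map_add, map_add, map_mul, map_mul, map_mul, map_zpow₀, map_intCast, map_intCast] at h1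
    rw [hz, ← h1]
    simp [Matrix.mulVec, dotProduct]
    ring
  · have h1 := congrArg σ' (hf c)
    rw [map_add, map_add, map_mul, map_mul, map_mul, map_zpow₀, map_intCast, map_intCast,
      hε.snd, inv_zpow] at h1
    rw [Real.exp_neg, hz, ← h1]
    simp [Matrix.mulVec, dotProduct]
    ring

end Pool.Agent.RM
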