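import Pool.Agent.Lib.MP_ca56d1_nt.RM.FD
import Pool.Agent.Lib.MP_ca56d1_nt.RM.ReDl
import Pool.Agent.Lib.MP_ca56d1_nt.RM.ThetaBd
import Pool.Agent.Lib.MP_ca56d1_nt.RM.ThetaCont
import Pool.Agent.Lib.MP_ca56d1_nt.RM.ConeLim

/-! The Shintani formula and the assembly of part A. -/

namespace Pool.Agent.RM

open Complex Set Filter Topology

variable {K : Type*} [Field K] [CharZero K] {σ σ' : K →+* ℝ} {ε : K}

/-- The absolute value of the norm. -/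
def nm (σ σ' : K →+* ℝ) (y : K) : ℝ := |σ y * σ' y|

omit [CharZero K] in
theorem nm_zpow (hε : Eps σ σ' ε) (k : ℤ) (y : K) : nm σ σ' (ε ^ k * y) = nm σ σ' y := by
  simp only [nm, map_mul, map_zpow₀]
  rw [mul_mul_mul_comm, ← mul_zpow, hε.norm, one_zpow, one_mul]

omit [CharZero K] in
theorem nm_neg (y : K) : nm σ σ' (-y) = nm σ σ' y := by simp [nm]

theorem summable_cpow {ι : Type*} {f : ι → ℝ} (hf : ∀ i, 0 < f i) {s : ℂ}
    (h : Summable fun i => f i ^ (-s.re)) : Summable fun i => (f i : ℂ) ^ (-s) :=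
  Summable.of_norm (by simpa [norm_cpow_eq_rpow_re_of_pos (hf _)] using h)

theorem quad_W {v : K} {η : ℝ} (hη : η = 1 ∨ η = -1) (hε : Eps σ σ' ε) (hv : 0 < σ v)
    (hv' : 0 < η * σ' v) {n : ℕ} (z : Fin n → K) (hz : ∀ i, z i ∈ par v (ε * v))
    (h1 : ∀ x : ℝ, 1 < x → Summable fun c : Fin n × (ℕ × ℕ) =>
      nm σ σ' (z c.1 + c.2.1 * v + c.2.2 * (ε * v)) ^ (-x))
    (h2 : ∀ x : ℝ, 1 < x → Summable fun c : Fin n × (ℕ × ℕ) =>
      nm σ σ' ((v + ε * v - z c.1) + c.2.1 * v + c.2.2 * (ε * v)) ^ (-x)) :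
    ∃ W : ℂ → ℂ, DifferentiableOn ℂ W {s | 0 < s.re} ∧
      (∀ s : ℂ, 1 < s.re → W s = (s - 1 / 2) * Gamma s ^ 2 *
        (∑' c : Fin n × (ℕ × ℕ), (nm σ σ' (z c.1 + c.2.1 * v + c.2.2 * (ε * v)) : ℂ) ^ (-s) -
        ∑' c : Fin n × (ℕ × ℕ),
          (nm σ σ' ((v + ε * v - z c.1) + c.2.1 * v + c.2.2 * (ε * v)) : ℂ) ^ (-s))) ∧
      Tendsto (fun x : ℝ => (x : ℂ) * W x) (𝓝[>] 0)
        (𝓝 (-(1 / 2) * (((∑ i, dl (σ v) (σ (ε * v)) (σ (z i))).re +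
          (∑ i, dl (η * σ' v) (η * σ' (ε * v)) ((η * σ' (z i) : ℝ) : ℂ)).re : ℝ) : ℂ))) := by
  have hev : 0 < σ (ε * v) := by rw [map_mul]; exact mul_pos hε.pos hv
  have hev' : 0 < η * σ' (ε * v) := by rw [map_mul, mul_left_comm]; exact mul_pos hε.pos' hv'
  have b1 := fun i => par_bounds hv hev (hz i)
  have b2 : ∀ i, 0 < η * σ' (z i) ∧ η * σ' (z i) < η * σ' v + η * σ' (ε * v) := fun i => by
    rcases hη with rfl | rfl
    · simpa using par_bounds (σ := σ') (by simpa using hv') (by simpa using hev') (hz i)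
    · have := par_bounds (σ := σ') (p := -1 * v) (q := -1 * (ε * v)) (by simpa using hv')
        (by simpa using hev') ((mul_mem_par (by simp)).2 (hz i))
      simpa using this
  set p : ℝ × ℝ := (σ v, η * σ' v)
  set q : ℝ × ℝ := (σ (ε * v), η * σ' (ε * v))
  have hcn : ∀ (y : K) (c : ℕ × ℕ), 0 < σ y → 0 < η * σ' y →
      cn p q (σ y, η * σ' y) c = nm σ σ' (y + c.1 * v + c.2 * (ε * v)) ∧
        0 < cn p q (σ y, η * σ' y) c := fun y c g1 g2 => by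
    have g3 : 0 < cn p q (σ y, η * σ' y) c := by simp only [cn, p, q]; positivity
    refine ⟨?_, g3⟩
    rw [← abs_of_pos g3]
    simp only [cn, nm, p, q, map_add, map_mul σ (_ : K) v, map_mul σ' (_ : K) v, map_natCast,
      map_mul σ (_ : K) (ε * v), map_mul σ' (_ : K) (ε * v)]
    rcases hη with rfl | rfl
    · simp
    · rw [← abs_neg]; congr 1; ring
  have hst : ∀ i, p + q - (σ (z i), η * σ' (z i)) =
      (σ (v + ε * v - z i), η * σ' (v + ε * v - z i)) := fun i => by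
    ext
    · simp [p, q]
    · simp [p, q]; ring
  have b3 : ∀ i, 0 < σ (v + ε * v - z i) ∧ 0 < η * σ' (v + ε * v - z i) := fun i => by
    rw [map_sub, map_add, map_sub, map_add, mul_sub, mul_add]
    exact ⟨by linarith [(b1 i).2], by linarith [(b2 i).2]⟩
  have key := fun i => coneLim p q (σ (z i), η * σ' (z i)) hv hv' hev hev' (b1 i).1 (b2 i).1
    (b1 i).2 (b2 i).2
    (fun x hx => ((h1 x hx).prod_factor i).congr fun c => by rw [(hcn _ c (b1 i).1 (b2 i).1).1])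
    (fun x hx => ((h2 x hx).prod_factor i).congr fun c => by
      rw [hst, (hcn _ c (b3 i).1 (b3 i).2).1])
  choose W hW1 hW2 hW3 using key
  refine ⟨fun s => ∑ i, W i s, DifferentiableOn.fun_sum fun i _ => hW1 i, fun s hs => ?_, ?_⟩
  · have s1 := summable_cpow (fun c => by
      rw [← (hcn _ c.2 (b1 c.1).1 (b2 c.1).1).1]; exact (hcn _ c.2 (b1 c.1).1 (b2 c.1).1).2)
      (h1 _ hs)
    have s2 := summable_cpow (fun c => by
      rw [← (hcn _ c.2 (b3 c.1).1 (b3 c.1).2).1]; exact (hcn _ c.2 (b3 c.1).1 (b3 c.1).2).2)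
      (h2 _ hs)
    rw [s1.tsum_prod, s2.tsum_prod, tsum_fintype, tsum_fintype, ← Finset.sum_sub_distrib,
      Finset.mul_sum]
    refine Finset.sum_congr rfl fun i _ => ?_
    rw [hW2 i s hs, hst]
    simp only [fun c => (hcn _ c (b1 i).1 (b2 i).1).1, fun c => (hcn _ c (b3 i).1 (b3 i).2).1]
  · have := tendsto_finsetSum Finset.univ fun i _ => hW3 i
    simp only [← Finset.mul_sum] at this
    refine this.congr' (Eventually.of_forall fun x => rfl) |>.mono_right (le_of_eq ?_)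
    congr 2
    rw [Complex.re_sum, Complex.re_sum, ← Finset.sum_add_distrib, ofReal_sum]
    refine Finset.sum_congr rfl fun i _ => ?_
    rw [reDl _ _ _ hv hev (b1 i).1 (b1 i).2, reDl _ _ _ hv' hev' (b2 i).1 (b2 i).2]

theorem deriv_of_W {Z W : ℂ → ℂ} {c : ℂ} (hZ : Differentiable ℂ Z)
    (hW : DifferentiableOn ℂ W {s | 0 < s.re})
    (h : ∀ s : ℂ, 1 < s.re → W s = (s - 1 / 2) * Gamma s ^ 2 * Z s)
    (hl : Tendsto (fun x : ℝ => (x : ℂ) * W x) (𝓝[>] 0) (𝓝 (-(1 / 2) * c))) :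
    Z 0 = 0 ∧ deriv Z 0 = c := by
  have ho : IsOpen {s : ℂ | 0 < s.re} := isOpen_lt continuous_const continuous_re
  have hG : ∀ s : ℂ, 0 < s.re → DifferentiableAt ℂ Gamma s := fun s hs =>
    differentiableAt_Gamma s fun m hm => by
      rw [hm] at hs
      simp at hs
      linarith [Nat.cast_nonneg (α := ℝ) m]
  have hE : EqOn W (fun s => (s - 1 / 2) * Gamma s ^ 2 * Z s) {s | 0 < s.re} :=
    (hW.analyticOnNhd ho).eqOn_of_preconnected_of_eventuallyEq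
      (DifferentiableOn.analyticOnNhd (fun s hs => ((((differentiableAt_id.sub_const _).mul
        ((hG s hs).pow 2)).mul (hZ s))).differentiableWithinAt) ho)
      (convex_halfSpace_re_gt 0).isPreconnected (z₀ := 2) (by simp) (by
        filter_upwards [(isOpen_lt continuous_const continuous_re).mem_nhds
          (show (1 : ℝ) < (2 : ℂ).re by simp)] with s hs using h s hs)
  have t0 : Tendsto (fun x : ℝ => (x : ℂ)) (𝓝[>] 0) (𝓝 0) :=
    (continuous_ofReal.tendsto' 0 0 ofReal_zero).mono_left nhdsWithin_le_nhds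
  have t1 : Tendsto (fun x : ℝ => ((x : ℂ) - 1 / 2) * Gamma (x + 1) ^ 2) (𝓝[>] 0)
      (𝓝 (-(1 / 2))) := by
    have g1 : Tendsto (fun x : ℝ => Gamma (x + 1)) (𝓝[>] 0) (𝓝 1) := by
      have := (hG 1 (by simp)).continuousAt.tendsto
      rw [Gamma_one] at this
      exact this.comp (by simpa using t0.add_const 1)
    simpa using (t0.sub_const (1 / 2)).mul (g1.pow 2)
  have t2 : Tendsto (fun x : ℝ => Z x / x) (𝓝[>] 0) (𝓝 c) := by
    have := hl.div t1 (by norm_num)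
    rw [mul_div_cancel_left₀ _ (by norm_num)] at this
    refine this.congr' ?_
    filter_upwards [self_mem_nhdsWithin, t1.eventually_ne (show (-(1 / 2) : ℂ) ≠ 0 by norm_num)]
      with x hx hx'
    have hx0 : (x : ℂ) ≠ 0 := by exact_mod_cast (ne_of_gt hx)
    rw [Pi.div_apply, hE (show 0 < (x : ℂ).re from hx), div_eq_iff hx', Gamma_add_one _ hx0]
    field_simp
  have z0 : Z 0 = 0 := by
    have a1 : Tendsto (fun x : ℝ => Z x) (𝓝[>] 0) (𝓝 (Z 0)) := (hZ 0).continuousAt.tendsto.comp t0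
    have a2 := t0.mul t2
    rw [zero_mul] at a2
    refine tendsto_nhds_unique a1 (a2.congr' ?_)
    filter_upwards [self_mem_nhdsWithin] with x hx
    have hx0 : (x : ℂ) ≠ 0 := by exact_mod_cast (ne_of_gt hx)
    field_simp
  refine ⟨z0, ?_⟩
  have a3 := (hasDerivAt_iff_tendsto_slope_zero.1 (hZ 0).hasDerivAt).comp
    (tendsto_nhdsWithin_iff.2 ⟨t0, by
      filter_upwards [self_mem_nhdsWithin] with x hx
      exact ofReal_ne_zero.2 (ne_of_gt hx)⟩ : Tendsto (fun x : ℝ => (x : ℂ)) (𝓝[>] 0) (𝓝[≠] 0))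
  refine tendsto_nhds_unique a3 (t2.congr fun x => ?_)
  simp [z0, div_eq_inv_mul]

theorem LF_neg (τ : K →+* ℝ) (Λ : Set K) (p q : K) : LF τ {y | -y ∈ Λ} (-p) (-q) =
    ∑ᶠ y ∈ Λ ∩ par p q, dl (-1 * τ p) (-1 * τ q) ((-1 * τ y : ℝ) : ℂ) := by
  have h : ∀ y, -y ∈ par (-p) (-q) ↔ y ∈ par p q := fun y => by
    simpa using mul_mem_par (u := (-1 : K)) (by simp) (p := p) (q := q) (z := y)
  symm
  exact finsum_mem_eq_of_bijOn (fun y => -y) ⟨fun y hy => ⟨by simpa using hy.1, (h y).2 hy.2⟩,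
    neg_injective.injOn, fun y hy => ⟨-y, ⟨hy.1, (h _).1 (by simpa using hy.2)⟩, neg_neg y⟩⟩
    fun y _ => by simp

theorem theta4 (hK : RQ σ σ') {Λ : Set K} (hε : Eps σ σ' ε) (hΛ : Lat Λ) (hs : Stab ε Λ)
    (h0 : 0 ∉ Λ) {A B : Type} (bp : A → K) (bm : B → K)
    (f1 : IsFD ε {y | y ∈ Λ ∧ 0 < σ' y} bp) (f2 : IsFD ε {y | y ∈ Λ ∧ σ' y < 0} bm) :
    (∀ x : ℝ, 1 < x → Summable fun i => nm σ σ' (bp i) ^ (-x)) ∧
    (∀ x : ℝ, 1 < x → Summable fun i => nm σ σ' (bm i) ^ (-x)) ∧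
    (∀ s : ℂ, 1 < s.re → Summable fun i => (nm σ σ' (bp i) : ℂ) ^ (-s)) ∧
    (∀ s : ℂ, 1 < s.re → Summable fun i => (nm σ σ' (bm i) : ℂ) ^ (-s)) ∧
    ∃ Z Z1 : ℂ → ℂ, StarkStmt.IsCont (fun s => ∑' i, (nm σ σ' (bp i) : ℂ) ^ (-s)) Z ∧
      Z 0 = Z1 0 / 2 ∧ deriv Z 0 = deriv Z1 0 / 2 ∧ Differentiable ℂ Z1 ∧ ∀ s : ℂ, 1 < s.re →
        Z1 s = ∑' i, (nm σ σ' (bp i) : ℂ) ^ (-s) - ∑' i, (nm σ σ' (bm i) : ℂ) ^ (-s) := by
  have hne : ∀ y ∈ Λ, σ y ≠ 0 ∧ σ' y ≠ 0 := fun y hy =>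
    ⟨emb_ne σ fun h => h0 (h ▸ hy), emb_ne σ' fun h => h0 (h ▸ hy)⟩
  have f3 := f1.sum hε.ne f2
    (fun y => by simp only [mem_ofPred_eq, hs y, map_mul, mul_pos_iff_of_pos_left hε.pos'])
    (fun y => by
      simp only [mem_ofPred_eq, hs y, map_mul]
      rw [← neg_pos, ← mul_neg, mul_pos_iff_of_pos_left hε.pos', neg_pos])
    (Set.disjoint_left.2 fun y h1 h2 => by linarith [h1.2, h2.2])
  have e3 : {y | y ∈ Λ ∧ 0 < σ' y} ∪ {y | y ∈ Λ ∧ σ' y < 0} = Λ := by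
    ext y
    exact ⟨fun h => h.elim And.left And.left, fun h => (lt_or_gt_of_ne (hne y h).2).symm.imp
      (fun g => ⟨h, g⟩) fun g => ⟨h, g⟩⟩
  rw [e3] at f3
  obtain ⟨sm, ⟨Z0, ⟨m0, an0, c0⟩, v0, d0⟩, Z1, dz1, c1⟩ :=
    thetaCont thetaBd hK ε Λ hε hΛ hs h0 _ f3
  have rp : ∀ x : ℝ, 1 < x → Summable fun i => nm σ σ' (bp i) ^ (-x) := fun x hx =>
    ((sm x hx).comp_injective Sum.inl_injective).congr fun i => rfl
  have rn : ∀ x : ℝ, 1 < x → Summable fun i => nm σ σ' (bm i) ^ (-x) := fun x hx =>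
    ((sm x hx).comp_injective Sum.inr_injective).congr fun i => rfl
  have hp : ∀ y ∈ Λ, 0 < nm σ σ' y := fun y hy => abs_pos.2 (mul_ne_zero (hne y hy).1 (hne y hy).2)
  have sp : ∀ s : ℂ, 1 < s.re → Summable fun i => (nm σ σ' (bp i) : ℂ) ^ (-s) :=
    fun s hs => summable_cpow (fun i => hp _ (f1.1 i).1) (rp _ hs)
  have sn : ∀ s : ℂ, 1 < s.re → Summable fun i => (nm σ σ' (bm i) : ℂ) ^ (-s) :=
    fun s hs => summable_cpow (fun i => hp _ (f2.1 i).1) (rn _ hs)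
  have g0 : ∀ s : ℂ, 1 < s.re → Z0 s = ∑' i, (nm σ σ' (bp i) : ℂ) ^ (-s) +
      ∑' i, (nm σ σ' (bm i) : ℂ) ^ (-s) := fun s hs => by
    rw [c0 s hs, zfam]
    exact (HasSum.sum ((sp s hs).hasSum.congr_fun fun i => rfl)
      ((sn s hs).hasSum.congr_fun fun i => rfl)).tsum_eq
  have g1 : ∀ s : ℂ, 1 < s.re → Z1 s = ∑' i, (nm σ σ' (bp i) : ℂ) ^ (-s) -
      ∑' i, (nm σ σ' (bm i) : ℂ) ^ (-s) := fun s hs => by
    rw [c1 s hs]
    refine (HasSum.sum ((sp s hs).hasSum.congr_fun fun i => ?_)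
      ((sn s hs).hasSum.neg.congr_fun fun i => ?_)).tsum_eq.trans (sub_eq_add_neg _ _).symm
    · simp only [Function.comp, Sum.elim_inl, sign_pos (f1.1 i).2, nm]; simp
    · simp only [Function.comp, Sum.elim_inr, sign_neg (f2.1 i).2, nm]; simp
  refine ⟨rp, rn, sp, sn, fun s => (Z0 s + Z1 s) / 2, Z1, ⟨fun s hs => ?_, ?_, fun s hs => ?_⟩,
    ?_, ?_, dz1, g1⟩
  · exact ((m0 s hs).add (dz1.analyticAt s).meromorphicAt).div (MeromorphicAt.const 2 s)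
  · exact (an0.add (dz1.analyticAt 0)).div_const
  · simp only [g0 s hs, g1 s hs]
    ring
  · simp [v0]
  · rw [deriv_div_const, deriv_fun_add an0.differentiableAt (dz1 0), d0, zero_add]

omit [CharZero K] in
theorem quad_union (hε : Eps σ σ' ε) {Λ : Set K} (hs : Stab ε Λ) (h0 : 0 ∉ Λ) {w v : K}
    (w2 : 0 < σ' w) (v2 : σ' v < 0) {A B : Type*} {a a' : A → K} {b b' : B → K}
    (z3 : IsFD ε (quad σ σ' Λ w) a) (z4 : IsFD ε (quad σ σ' {y | -y ∈ Λ} w) a')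
    (u3 : IsFD ε (quad σ σ' Λ v) b) (u4 : IsFD ε (quad σ σ' {y | -y ∈ Λ} v) b') :
    IsFD ε {y | y ∈ Λ ∧ 0 < σ' y} (Sum.elim a fun j => -b' j) ∧
      IsFD ε {y | y ∈ Λ ∧ σ' y < 0} (Sum.elim (fun j => -a' j) b) := by
  have hS : Stab ε {y | -y ∈ Λ} := neg_set Λ ▸ hs.smul _
  have hsn : ∀ {U : Set K}, Stab ε U → Stab ε {y | -y ∈ U} := fun {U} h => neg_set U ▸ h.smul _
  have hne : ∀ y ∈ Λ, σ y ≠ 0 := fun y hy => emb_ne σ fun h => h0 (h ▸ hy)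
  have f1 := z3.sum hε.ne u4.neg (quad_stab hε hs w) (hsn (quad_stab hε hS v))
    (Set.disjoint_left.2 fun y h1 h2 => by
      have := h2.2.1
      rw [map_neg] at this
      linarith [h1.2.1])
  have f2 := z4.neg.sum hε.ne u3 (hsn (quad_stab hε hS w)) (quad_stab hε hs v)
    (Set.disjoint_left.2 fun y h2 h1 => by
      have := h2.2.1
      rw [map_neg] at this
      linarith [h1.2.1])
  have e1 : quad σ σ' Λ w ∪ {y | -y ∈ quad σ σ' {y | -y ∈ Λ} v} = {y | y ∈ Λ ∧ 0 < σ' y} := by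
    ext y
    simp only [quad, mem_union, mem_ofPred_eq, neg_neg, map_neg, mul_pos_iff_of_pos_right w2,
      neg_mul_comm, mul_pos_iff_of_pos_right (neg_pos.2 v2), neg_pos]
    constructor
    · rintro (h | h) <;> exact ⟨h.1, h.2.2⟩
    · rintro ⟨h1, h2⟩
      rcases lt_or_gt_of_ne (hne y h1) with h | h
      exacts [Or.inr ⟨h1, h, h2⟩, Or.inl ⟨h1, h, h2⟩]
  have e2 : {y | -y ∈ quad σ σ' {y | -y ∈ Λ} w} ∪ quad σ σ' Λ v = {y | y ∈ Λ ∧ σ' y < 0} := by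
    ext y
    have : 0 < σ' y * σ' v ↔ σ' y < 0 := by
      rw [← neg_mul_neg, mul_pos_iff_of_pos_right (neg_pos.2 v2), neg_pos]
    simp only [quad, mem_union, mem_ofPred_eq, neg_neg, map_neg, mul_pos_iff_of_pos_right w2,
      neg_pos, this]
    constructor
    · rintro (h | h) <;> exact ⟨h.1, h.2.2⟩
    · rintro ⟨h1, h2⟩
      rcases lt_or_gt_of_ne (hne y h1) with h | h
      exacts [Or.inl ⟨h1, h, h2⟩, Or.inr ⟨h1, h, h2⟩]
  rw [e1] at f1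
  rw [e2] at f2
  exact ⟨f1, f2⟩

theorem four_terms (hK : RQ σ σ') {Λ : Set K} (hε : Eps σ σ' ε) (hΛ : Lat Λ) (hs : Stab ε Λ)
    (h0 : 0 ∉ Λ) {w v : K} (hw : w ∈ per Λ) (w1 : 0 < σ w) (w2 : 0 < σ' w) (hv : v ∈ per Λ)
    (v1 : 0 < σ v) (v2 : σ' v < 0) :
    (LF σ Λ w (ε * w)).re + (LF σ' Λ w (ε * w)).re -
      ((LF σ Λ v (ε * v)).re + (LF σ' {y | -y ∈ Λ} (-v) (-(ε * v))).re) =
      2 * (LX σ σ' ε Λ).re := by
  have hL : Lat {y | -y ∈ Λ} := neg_set Λ ▸ hΛ.smul (by simp)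
  have hS : Stab ε {y | -y ∈ Λ} := neg_set Λ ▸ hs.smul _
  have k1 := basis_pos hK hε hΛ hs hw w1 w2
  have k2 := basis_neg hK hε hΛ hs hv v1 v2
  rw [LF_swap hK hε hΛ hs h0 hv v1] at k2
  have hw' : 0 < σ' (ε * w) := by rw [map_mul]; exact mul_pos hε.pos' w2
  have k3 := basis_pos hK.symm hε.inv hΛ (hs.inv hε.ne) (hs.mul_per hε.ne hw) hw'
    (by rw [map_mul]; exact mul_pos hε.pos w1)
  rw [← LF_swap hK.symm hε.inv hΛ (hs.inv hε.ne) h0 (hs.mul_per hε.ne hw) hw',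
    inv_mul_cancel_left₀ hε.ne] at k3
  have k4 := basis_neg hK.symm hε.inv hL (hS.inv hε.ne) (w := -(ε * v))
    (neg_set Λ ▸ (per_smul (by simp)).2 (by simpa using hs.mul_per hε.ne hv))
    (by rw [map_neg, map_mul]; exact neg_pos.2 (mul_neg_of_pos_of_neg hε.pos' v2))
    (by rw [map_neg, map_mul]; exact neg_neg_of_pos (mul_pos hε.pos v1))
  rw [mul_neg, inv_mul_cancel_left₀ hε.ne] at k4
  have k5 := LX_neg hK.symm hε.inv hΛ (hs.inv hε.ne) h0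
  rw [k4, neg_re, k5, k1, k2, k3, neg_re]
  ring

theorem shintani (hK : RQ σ σ') {Λ : Set K} (hε : Eps σ σ' ε) (hΛ : Lat Λ) (hs : Stab ε Λ)
    (h0 : 0 ∉ Λ) {ι : Type*} (a : ι → K) (ha : IsFD ε {y | y ∈ Λ ∧ 0 < σ' y} a) :
    ∃ Z : ℂ → ℂ, StarkStmt.IsCont (zfam σ σ' a) Z ∧ Z 0 = 0 ∧
      deriv Z 0 = ((LX σ σ' ε Λ).re : ℝ) := by
  obtain ⟨w, hw, w1, w2⟩ := hΛ.exists_pos σ σ'
  obtain ⟨v, hv, v1, v2⟩ := hΛ.exists_neg hK
  obtain ⟨n, z, z1, z2, z3, z4⟩ := cone_family hK hε hΛ hs hw w1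
  obtain ⟨m, u, u1, u2, u3, u4⟩ := cone_family hK hε hΛ hs hv v1
  obtain ⟨f1, f2⟩ := quad_union hε hs h0 w2 v2 z3 z4 u3 u4
  obtain ⟨rp, rn, sp, sn, Z, Z1, c0, v0, d0, dz1, g1⟩ := theta4 hK hε hΛ hs h0 _ _ f1 f2
  obtain ⟨W, hW1, hW2, hW3⟩ := quad_W (Or.inl rfl) hε w1 (by simpa using w2) z z1
    (fun x hx => ((rp x hx).comp_injective Sum.inl_injective).congr fun c => rfl)
    (fun x hx => ((rn x hx).comp_injective Sum.inl_injective).congr fun c => by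
      simp only [Function.comp, Sum.elim_inl, nm_neg])
  obtain ⟨V, hV1, hV2, hV3⟩ := quad_W (Or.inr rfl) hε v1 (by simpa using v2) u u1
    (fun x hx => ((rn x hx).comp_injective Sum.inr_injective).congr fun c => rfl)
    (fun x hx => ((rp x hx).comp_injective Sum.inr_injective).congr fun c => by
      simp only [Function.comp, Sum.elim_inr, nm_neg])
  have hZ := deriv_of_W dz1 (hW1.sub hV1) (c := ((2 * (LX σ σ' ε Λ).re : ℝ) : ℂ)) (fun s hs => by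
    have a1 := Summable.tsum_sum
      ((sp s hs).comp_injective Sum.inl_injective) ((sp s hs).comp_injective Sum.inr_injective)
    have a2 := Summable.tsum_sum
      ((sn s hs).comp_injective Sum.inl_injective) ((sn s hs).comp_injective Sum.inr_injective)
    rw [Pi.sub_apply, hW2 s hs, hV2 s hs, g1 s hs, a1, a2]
    simp only [Sum.elim_inl, Sum.elim_inr, nm_neg]
    ring) (by
    have := hW3.sub hV3
    simp only [← mul_sub] at this
    refine this.mono_right (le_of_eq ?_)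
    congr 2
    rw [← ofReal_sub, ← z2 fun y => dl (σ w) (σ (ε * w)) (σ y),
      ← u2 fun y => dl (σ v) (σ (ε * v)) (σ y),
      ← z2 fun y => dl (1 * σ' w) (1 * σ' (ε * w)) ((1 * σ' y : ℝ) : ℂ),
      ← u2 fun y => dl (-1 * σ' v) (-1 * σ' (ε * v)) ((-1 * σ' y : ℝ) : ℂ), ← LF_neg]
    simp only [one_mul]
    exact congrArg ofReal (four_terms hK hε hΛ hs h0 hw w1 w2 hv v1 v2))
  refine ⟨Z, ⟨c0.1, c0.2.1, fun s hs => ?_⟩, by rw [v0, hZ.1, zero_div], ?_⟩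
  · rw [c0.2.2 s hs]
    exact (ha.tsum_eq hε.ne f1 (fun y => (nm σ σ' y : ℂ) ^ (-s))
      (fun k y => by rw [nm_zpow hε])).symm
  · rw [d0, hZ.2]
    push_cast; ring

theorem partA (hK : RQ σ σ') : PartA σ σ' where
  basis_pos := fun _ _ h1 h2 h3 _ h4 h5 h6 => basis_pos hK h1 h2 h3 h4 h5 h6
  basis_neg := fun _ _ h1 h2 h3 _ h4 h5 h6 => basis_neg hK h1 h2 h3 h4 h5 h6
  swap := fun _ _ h1 h2 h3 h0 _ h4 h5 => LF_swap hK h1 h2 h3 h0 h4 h5
  union := fun _ h1 _ s Λ h2 h3 h4 => LX_union hK h1 s Λ h2 h3 h4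
  smul := fun _ _ h1 h2 h3 _ h4 h5 => LX_smul hK h1 h2 h3 h4 h5
  smul_neg := fun _ _ h1 h2 h3 h0 _ h4 h5 => LX_smul_neg hK h1 h2 h3 h0 h4 h5
  pow := fun _ _ h1 h2 h3 _ hn => LX_pow hK h1 h2 h3 hn
  orbit := fun _ _ h1 h2 _ hn h3 h4 => LX_orbit hK h1 h2 hn h3 h4
  neg := fun _ _ h1 h2 h3 h0 => LX_neg hK h1 h2 h3 h0
  neg_conj := fun _ _ h1 h2 h3 h0 => LX_neg_conj hK h1 h2 h3 h0
  shintani := fun _ _ h1 h2 h3 h0 _ a ha => shintani hK h1 h2 h3 h0 a ha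

end Pool.Agent.RM
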