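import Pool.Agent.Lib.MP_ca56d1_nt.RM.StubA
import Pool.Agent.Shared.HoloIntegral

/-! The contour integral defining the logarithm of the double sine function. -/

namespace Pool.Agent.RM

open Complex MeasureTheory Set

theorem den_sq {w : ℂ} {a : ℝ} (ha : 0 ≤ a) (h1 : a ≤ |w.im|) (h2 : |w.im| ≤ Real.pi) :
    (1 - Real.cos a) / 2 * (1 + Real.exp (-w.re) ^ 2) ≤ ‖1 - cexp (-w)‖ ^ 2 := by
  have hc : Real.cos w.im ≤ Real.cos a := by
    rw [← Real.cos_abs w.im]
    exact Real.cos_le_cos_of_nonneg_of_le_pi ha h2 h1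
  rw [Complex.sq_norm, Complex.normSq_apply]
  simp only [sub_re, one_re, sub_im, one_im, Complex.exp_re, Complex.exp_im, neg_re, neg_im,
    Real.cos_neg, Real.sin_neg]
  have h3 := Real.sin_sq_add_cos_sq w.im
  have h4 := Real.exp_pos (-w.re)
  have h5 := Real.cos_le_one a
  have h6 := Real.neg_one_le_cos a
  set ρ := Real.exp (-w.re)
  have e : (1 - ρ * Real.cos w.im) * (1 - ρ * Real.cos w.im) +
      (0 - ρ * -Real.sin w.im) * (0 - ρ * -Real.sin w.im) = 1 - 2 * ρ * Real.cos w.im + ρ ^ 2 := by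
    linear_combination ρ ^ 2 * h3
  rw [e]
  nlinarith [mul_nonneg (by linarith : 0 ≤ 1 + Real.cos a) (sq_nonneg (1 - ρ)),
    mul_nonneg h4.le (sub_nonneg.2 hc), mul_nonneg h4.le (sub_nonneg.2 h5)]

/-- Lower bound for the denominators on horizontal strips. -/
theorem den_lower {a : ℝ} (ha : 0 < a) (ha' : a ≤ Real.pi) : ∃ c : ℝ, 0 < c ∧ ∀ w : ℂ, a ≤ |w.im| →
    |w.im| ≤ Real.pi → c ≤ ‖1 - cexp (-w)‖ ∧ c * Real.exp (-w.re) ≤ ‖1 - cexp (-w)‖ := by
  have hc : 0 < (1 - Real.cos a) / 2 := by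
    have := Real.cos_lt_cos_of_nonneg_of_le_pi le_rfl ha' ha
    rw [Real.cos_zero] at this
    linarith
  refine ⟨Real.sqrt ((1 - Real.cos a) / 2), Real.sqrt_pos.2 hc, fun w h1 h2 => ?_⟩
  have h := den_sq ha.le h1 h2
  have h3 := Real.sq_sqrt hc.le
  have h4 := Real.exp_pos (-w.re)
  constructor
  · refine (abs_le_of_sq_le_sq' ?_ (norm_nonneg _)).2
    rw [h3]; nlinarith [sq_nonneg (Real.exp (-w.re))]
  · refine (abs_le_of_sq_le_sq' ?_ (norm_nonneg _)).2
    rw [mul_pow, h3]; nlinarith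

/-- Uniform exponential bound for the kernel on closed substrips (above or below the axis). -/
theorem kern_bound {p q a b : ℝ} (hp : 0 < p) (hq : 0 < q) (ha : 0 < a) (hab : a ≤ b)
    (hb : b * (p + q) ≤ Real.pi) : ∃ C : ℝ, 0 < C ∧ ∀ z t : ℂ, a ≤ |t.im| → |t.im| ≤ b →
      (1 - cexp (-p * t)) ≠ 0 ∧ (1 - cexp (-q * t)) ≠ 0 ∧ t ≠ 0 ∧
      ‖kern p q z t‖ ≤ C * Real.exp (z.im * t.im) *
        Real.exp (-(min z.re (p + q - z.re)) * |t.re|) := by
  have hb0 : 0 < b := ha.trans_le hab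
  obtain ⟨c1, hc1, h1⟩ := den_lower (a := p * a) (by positivity) (by nlinarith)
  obtain ⟨c2, hc2, h2⟩ := den_lower (a := q * a) (by positivity) (by nlinarith)
  refine ⟨1 / (c1 * c2 * a), by positivity, fun z t ht1 ht2 => ?_⟩
  have e1 : |((p : ℂ) * t).im| = p * |t.im| := by simp [abs_mul, abs_of_pos hp]
  have e2 : |((q : ℂ) * t).im| = q * |t.im| := by simp [abs_mul, abs_of_pos hq]
  obtain ⟨g1, g2⟩ := h1 (p * t) (by rw [e1]; gcongr) (by rw [e1]; nlinarith)
  obtain ⟨g3, g4⟩ := h2 (q * t) (by rw [e2]; gcongr) (by rw [e2]; nlinarith)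
  have g5 : a ≤ ‖t‖ := ht1.trans (Complex.abs_im_le_norm t)
  rw [← neg_mul] at g1 g2 g3 g4
  refine ⟨norm_pos_iff.1 (hc1.trans_le g1), norm_pos_iff.1 (hc2.trans_le g3),
    norm_pos_iff.1 (ha.trans_le g5), ?_⟩
  rw [kern, norm_div, norm_mul, norm_mul, Complex.norm_exp]
  have e3 : (-z * t).re = z.im * t.im - z.re * t.re := by simp
  simp only [re_ofReal_mul] at g2 g4
  rw [e3]
  rcases le_total 0 t.re with h | h
  · rw [div_le_iff₀ (by have := hc1.trans_le g1; have := hc2.trans_le g3; have := ha.trans_le g5; positivity), abs_of_nonneg h]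
    calc Real.exp (z.im * t.im - z.re * t.re)
        ≤ Real.exp (z.im * t.im) * Real.exp (-(min z.re (p + q - z.re)) * t.re) := by
          rw [← Real.exp_add, Real.exp_le_exp]
          nlinarith [min_le_left z.re (p + q - z.re)]
      _ = 1 / (c1 * c2 * a) * Real.exp (z.im * t.im) *
          Real.exp (-(min z.re (p + q - z.re)) * t.re) * (c1 * c2 * a) := by field_simp
      _ ≤ _ := by gcongr
  · rw [div_le_iff₀ (by have := hc1.trans_le g1; have := hc2.trans_le g3; have := ha.trans_le g5; positivity), abs_of_nonpos h]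
    calc Real.exp (z.im * t.im - z.re * t.re)
        ≤ Real.exp (z.im * t.im) * Real.exp (-(min z.re (p + q - z.re)) * -t.re) *
            (Real.exp (-(p * t.re)) * Real.exp (-(q * t.re))) := by
          rw [← Real.exp_add, ← Real.exp_add, ← Real.exp_add, Real.exp_le_exp]
          nlinarith [min_le_right z.re (p + q - z.re)]
      _ = 1 / (c1 * c2 * a) * Real.exp (z.im * t.im) *
          Real.exp (-(min z.re (p + q - z.re)) * -t.re) *
            (c1 * Real.exp (-(p * t.re)) * (c2 * Real.exp (-(q * t.re))) * a) := by field_simp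
      _ ≤ _ := by gcongr

theorem integrable_exp_abs {m : ℝ} (hm : 0 < m) : Integrable fun x : ℝ => Real.exp (-m * |x|) := by
  rw [← integrableOn_univ, ← Iic_union_Ioi (a := (0 : ℝ)), integrableOn_union]
  constructor
  · refine (integrableOn_exp_mul_Iic hm 0).congr_fun (fun x hx => ?_) measurableSet_Iic
    simp only [abs_of_nonpos (mem_Iic.1 hx)]; ring_nf
  · refine (exp_neg_integrableOn_Ioi 0 hm).congr_fun (fun x hx => ?_) measurableSet_Ioi
    simp only [abs_of_pos (mem_Ioi.1 hx)]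

theorem kern_diff {p q : ℝ} (z : ℂ) {t : ℂ} (h1 : 1 - cexp (-p * t) ≠ 0) (h2 : 1 - cexp (-q * t) ≠ 0)
    (h3 : t ≠ 0) : DifferentiableAt ℂ (kern p q z) t := by
  unfold kern
  exact DifferentiableAt.div (by fun_prop) (by fun_prop) (mul_ne_zero (mul_ne_zero h1 h2) h3)

theorem kern_ne {p q : ℝ} (hp : 0 < p) (hq : 0 < q) {t : ℂ} (h1 : t.im ≠ 0)
    (h2 : |t.im| * (p + q) ≤ Real.pi) :
    (1 - cexp (-p * t)) ≠ 0 ∧ (1 - cexp (-q * t)) ≠ 0 ∧ t ≠ 0 := by
  obtain ⟨C, -, h⟩ := kern_bound hp hq (abs_pos.2 h1) le_rfl h2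
  obtain ⟨g1, g2, g3, -⟩ := h 0 t le_rfl le_rfl
  exact ⟨g1, g2, g3⟩

theorem kern_integrable {p q : ℝ} (hp : 0 < p) (hq : 0 < q) {z : ℂ} (hz : 0 < z.re)
    (hz' : z.re < p + q) {y : ℝ} (h1 : y ≠ 0) (h2 : |y| * (p + q) ≤ Real.pi) :
    Integrable fun r : ℝ => kern p q z (r + y * I) := by
  obtain ⟨C, -, h⟩ := kern_bound hp hq (abs_pos.2 h1) le_rfl h2
  have hm : 0 < min z.re (p + q - z.re) := lt_min hz (by linarith)
  refine ((integrable_exp_abs hm).const_mul (C * Real.exp (z.im * y))).mono' ?_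
    (Filter.Eventually.of_forall fun r => ?_)
  · refine Continuous.aestronglyMeasurable (continuous_iff_continuousAt.2 fun r => ?_)
    obtain ⟨g1, g2, g3, -⟩ := h z (r + y * I) (by simp) (by simp)
    exact ContinuousAt.comp (f := fun r : ℝ => (r : ℂ) + y * I) (kern_diff z g1 g2 g3).continuousAt
      (by fun_prop)
  · simpa using (h z (r + y * I) (by simp) (by simp)).2.2.2

theorem kern_shift {p q : ℝ} (hp : 0 < p) (hq : 0 < q) {z : ℂ} (hz : 0 < z.re)
    (hz' : z.re < p + q) {a b : ℝ} (ha : 0 < a) (hab : a ≤ b) (hb : b * (p + q) ≤ 2) :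
    ∫ r : ℝ, kern p q z (r - a * I) = ∫ r : ℝ, kern p q z (r - b * I) := by
  have hb0 : 0 < b := ha.trans_le hab
  have hpi := Real.pi_gt_three
  obtain ⟨C, hC, h⟩ := kern_bound (a := a / 2) (b := b + a / 2) hp hq (by positivity) (by linarith)
    (by nlinarith)
  set m := min z.re (p + q - z.re) with hmd
  have hm : 0 < m := lt_min hz (by linarith)
  have hin : ∀ w ∈ Shared.HoloIntegral.strip (b / 2), a / 2 ≤ |(w - ((a + b) / 2 : ℝ) * I).im| ∧
      |(w - ((a + b) / 2 : ℝ) * I).im| ≤ b + a / 2 := by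
    intro w hw
    have hw' : |w.im| < b / 2 := hw
    have e : (w - ((a + b) / 2 : ℝ) * I).im = w.im - (a + b) / 2 := by simp
    rw [abs_lt] at hw'
    rw [e, abs_of_neg (by linarith)]
    constructor <;> linarith
  have key := fun (y : ℝ) (hy : |y| < b / 2) => Shared.HoloIntegral.integral_shift
    (f := fun w => kern p q z (w - ((a + b) / 2 : ℝ) * I)) (a := b / 2) (by positivity)
    (fun w hw => by
      obtain ⟨g1, g2, g3, -⟩ := h z _ (hin w hw).1 (hin w hw).2
      exact (DifferentiableAt.comp (f := fun w : ℂ => w - ((a + b) / 2 : ℝ) * I) w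
        (kern_diff z g1 g2 g3) (by fun_prop)).differentiableWithinAt)
    ((integrable_exp_abs hm).const_mul (C * Real.exp (|z.im| * (b + a / 2)) * Real.exp m))
    (fun x w hw hx => by
      refine (h z _ (hin w hw).1 (hin w hw).2).2.2.2.trans ?_
      rw [mul_assoc (C * _), ← Real.exp_add]
      have e : (w - ((a + b) / 2 : ℝ) * I).re = w.re := by simp
      rw [e]
      refine mul_le_mul (mul_le_mul_of_nonneg_left (Real.exp_le_exp.2 ?_) hC.le)
        (Real.exp_le_exp.2 ?_) (Real.exp_pos _).le (by positivity)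
      · refine (le_abs_self _).trans ?_
        rw [abs_mul]
        exact mul_le_mul_of_nonneg_left (hin w hw).2 (abs_nonneg _)
      · have : |x| ≤ |w.re| + 1 := by
          have := abs_sub_abs_le_abs_sub x w.re
          rw [abs_sub_comm] at this
          linarith
        nlinarith) hy
  have k1 := key ((b - a) / 2) (by rw [abs_of_nonneg (by linarith)]; linarith)
  have k2 := key (-((b - a) / 2)) (by rw [abs_neg, abs_of_nonneg (by linarith)]; linarith)
  have e1 : ∀ r : ℝ, (r : ℂ) + ((b - a) / 2 : ℝ) * I - ((a + b) / 2 : ℝ) * I = r - a * I :=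
    fun r => by push_cast; ring
  have e2 : ∀ r : ℝ, (r : ℂ) + (-((b - a) / 2) : ℝ) * I - ((a + b) / 2 : ℝ) * I = r - b * I :=
    fun r => by push_cast; ring
  simp only [e1, e2] at k1 k2
  rw [k1, k2]

/-- Independence of the contour. -/
theorem dl_eq {p q : ℝ} (hp : 0 < p) (hq : 0 < q) {z : ℂ} (hz : 0 < z.re) (hz' : z.re < p + q)
    {δ : ℝ} (h1 : 0 < δ) (h2 : δ * (p + q) ≤ 2) :
    dl p q z = ∫ r : ℝ, kern p q z (r - δ * I) := by
  have h3 : 1 / (p + q) * (p + q) ≤ 2 := by rw [one_div_mul_cancel (by positivity)]; norm_num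
  rcases le_total δ (1 / (p + q)) with h | h
  · exact (kern_shift hp hq hz hz' h1 h h3).symm
  · exact kern_shift hp hq hz hz' (by positivity) h h2

theorem kern_integrable' {p q : ℝ} (hp : 0 < p) (hq : 0 < q) {z : ℂ} (hz : 0 < z.re)
    (hz' : z.re < p + q) {δ : ℝ} (h1 : 0 < δ) (h2 : δ * (p + q) ≤ 2) :
    Integrable fun r : ℝ => kern p q z (r - δ * I) := by
  have := kern_integrable hp hq hz hz' (y := -δ) (by linarith)
    (by rw [abs_neg, abs_of_pos h1]; linarith [Real.pi_gt_three])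
  simpa [sub_eq_add_neg] using this

theorem kern_comm (p q : ℝ) (z t : ℂ) : kern p q z t = kern q p z t := by
  simp only [kern, mul_comm (1 - cexp (-p * t))]

theorem dl_comm (p q : ℝ) (z : ℂ) : dl p q z = dl q p z := by
  simp only [dl, kern_comm p q, add_comm p q]

theorem kern_mul (c p q : ℝ) (z t : ℂ) :
    kern (c * p) (c * q) (c * z) t = c * kern p q z (c * t) := by
  by_cases hc : (c : ℂ) = 0
  · have : c = 0 := by exact_mod_cast hc
    simp [kern, this]
  simp only [kern]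
  push_cast
  rw [show -(c * z) * t = -z * (c * t) by ring, show -(c * p : ℂ) * t = -p * (c * t) by ring,
    show -(c * q : ℂ) * t = -q * (c * t) by ring, mul_div_assoc', ← mul_div_mul_left _ _ hc]
  congr 1
  ring

theorem integral_scale {c : ℝ} (hc : 0 < c) (f : ℂ → ℂ) (δ : ℝ) :
    ∫ r : ℝ, c * f (c * (r - δ * I)) = ∫ r : ℝ, f (r - (c * δ : ℝ) * I) := by
  have := Measure.integral_comp_mul_left (fun r : ℝ => f (r - (c * δ : ℝ) * I)) c
  rw [abs_of_pos (inv_pos.2 hc)] at this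
  rw [integral_const_mul]
  have e : ∀ r : ℝ, (c : ℂ) * (r - δ * I) = ((c * r : ℝ) : ℂ) - (c * δ : ℝ) * I := fun r => by
    push_cast; ring
  simp only [e]
  rw [this, real_smul, ← mul_assoc]
  have : (c : ℂ) ≠ 0 := by exact_mod_cast hc.ne'
  simp [this]

theorem dl_mul {c : ℝ} (hc : 0 < c) (p q : ℝ) (z : ℂ) :
    dl (c * p) (c * q) (c * z) = dl p q z := by
  simp only [dl, kern_mul]
  rw [integral_scale hc]
  congr 4
  rw [← mul_add, one_div, mul_inv, ← mul_assoc, mul_inv_cancel₀ hc.ne', one_mul, one_div]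

/-- The difference equation of the kernel. -/
theorem kern_sub {p q : ℝ} (z : ℂ) {t : ℂ} (h : 1 - cexp (-q * t) ≠ 0) :
    kern p q z t - kern p q (z + q) t = cexp (-z * t) / ((1 - cexp (-p * t)) * t) := by
  simp only [kern]
  rw [← sub_div, show -(z + q) * t = -z * t + -q * t by ring, Complex.exp_add,
    show cexp (-z * t) - cexp (-z * t) * cexp (-q * t) = (1 - cexp (-q * t)) * cexp (-z * t) by ring,
    show (1 - cexp (-p * t)) * (1 - cexp (-q * t)) * t
      = (1 - cexp (-q * t)) * ((1 - cexp (-p * t)) * t) by ring, mul_div_mul_left _ _ h]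

theorem dl_sub {p q : ℝ} (hp : 0 < p) (hq : 0 < q) {z : ℂ} (hz : 0 < z.re) (hz' : z.re < p)
    {δ : ℝ} (h1 : 0 < δ) (h2 : δ * (p + q) ≤ 2) : dl p q z - dl p q (z + q) =
      ∫ r : ℝ, cexp (-z * (r - δ * I)) / ((1 - cexp (-p * (r - δ * I))) * (r - δ * I)) := by
  have h3 : 0 < (z + q).re := by simp; linarith
  have h4 : (z + q).re < p + q := by simpa using hz'
  rw [dl_eq hp hq hz (by linarith) h1 h2, dl_eq hp hq h3 h4 h1 h2,
    ← integral_sub (kern_integrable' hp hq hz (by linarith) h1 h2)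
      (kern_integrable' hp hq h3 h4 h1 h2)]
  refine integral_congr_ae (Filter.Eventually.of_forall fun r => kern_sub z ?_)
  refine (kern_ne hp hq (by simp; linarith) ?_).2.1
  simp only [sub_im, ofReal_im, mul_im, ofReal_re, I_im, mul_one, I_re, mul_zero, add_zero,
    zero_sub, abs_neg, abs_of_pos h1]
  linarith [Real.pi_gt_three]

/-- The contribution of a boundary ray depends only on the relative position on the ray. -/
theorem dl_ray {p q a : ℝ} (hp : 0 < p) (hq : 0 < q) (h0 : 0 < a) (h1 : a < 1) :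
    dl p q (a * p : ℝ) - dl p q ((a * p : ℝ) + q) =
      dl q p (a * q : ℝ) - dl q p ((a * q : ℝ) + p) := by
  have hc : 0 < q / p := by positivity
  set δ := 1 / ((p + q) * (1 + q / p)) with hδ
  have hδ0 : 0 < δ := by positivity
  have hδ1 : δ * ((p + q) * (1 + q / p)) = 1 := one_div_mul_cancel (by positivity)
  have hδ2 : 0 < δ * (p + q) := by positivity
  rw [dl_sub hp hq (by simp; positivity) (by simp; nlinarith) (δ := q / p * δ) (by positivity)
      (by nlinarith),
    dl_sub hq hp (by simp; positivity) (by simp; nlinarith) hδ0 (by nlinarith),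
    ← integral_scale hc (fun t => cexp (-((a * p : ℝ) : ℂ) * t) / ((1 - cexp (-p * t)) * t))]
  refine integral_congr_ae (Filter.Eventually.of_forall fun r => ?_)
  have hp' : (p : ℂ) ≠ 0 := by exact_mod_cast hp.ne'
  have hc' : ((q / p : ℝ) : ℂ) ≠ 0 := by exact_mod_cast hc.ne'
  simp only
  rw [show -((a * p : ℝ) : ℂ) * (((q / p : ℝ) : ℂ) * (r - δ * I)) = -((a * q : ℝ) : ℂ) * (r - δ * I) by
      push_cast; field_simp,
    show -(p : ℂ) * (((q / p : ℝ) : ℂ) * (r - δ * I)) = -(q : ℂ) * (r - δ * I) by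
      push_cast; field_simp, mul_div_assoc', mul_left_comm, mul_div_mul_left _ _ hc']

end Pool.Agent.RM
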