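import Pool.Agent.Lib.MP_ca56d1_nt.RM.Cone

/-! Basis independence, distribution relations and reflection. -/

namespace Pool.Agent.RM

open Complex MeasureTheory Set

variable {K : Type*} [Field K] [CharZero K] {σ σ' : K →+* ℝ}

theorem mul_mem_par {u : K} (hu : u ≠ 0) {p q z : K} : u * z ∈ par (u * p) (u * q) ↔ z ∈ par p q := by
  refine exists_congr fun a => exists_congr fun b => and_congr_right' (and_congr_right'
    (and_congr_right' (and_congr_right' ⟨fun h => mul_left_cancel₀ hu ?_, fun h => ?_⟩)))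
  · rw [h]; ring
  · rw [h]; ring

theorem LF_smul {u : K} (hu : 0 < σ u) (Λ : Set K) (p q : K) :
    LF σ {y | u * y ∈ Λ} p q = LF σ Λ (u * p) (u * q) := by
  have hu0 : u ≠ 0 := fun h => by simp [h] at hu
  refine finsum_mem_eq_of_bijOn (fun y => u * y) ⟨fun y hy => ⟨hy.1, (mul_mem_par hu0).2 hy.2⟩,
    fun x _ y _ h => mul_left_cancel₀ hu0 h, fun y hy => ⟨u⁻¹ * y, ?_, by field_simp⟩⟩
    fun y _ => ?_
  · have e : u * (u⁻¹ * y) = y := by field_simp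
    exact ⟨by simpa [e] using hy.1, (mul_mem_par hu0).1 (by rw [e]; exact hy.2)⟩
  · simp only [map_mul, ofReal_mul]
    rw [dl_mul hu]

theorem LC_smul {u : K} (hu : 0 < σ u) (hu' : 0 < σ' u) (Λ : Set K) (p q : K) :
    LC σ σ' {y | u * y ∈ Λ} p q = LC σ σ' Λ (u * p) (u * q) := by
  have h : ∀ x y, dt σ σ' (u * x) (u * y) < 0 ↔ dt σ σ' x y < 0 := fun x y => by
    rw [dt_mul]
    exact ⟨fun h => neg_of_mul_neg_right h (mul_pos hu hu').le,
      fun h => mul_neg_of_pos_of_neg (mul_pos hu hu') h⟩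
  simp only [LC, h, LF_smul hu]

omit [CharZero K] in
theorem per_smul {u : K} (hu : u ≠ 0) {Λ : Set K} {w : K} :
    w ∈ per {y | u * y ∈ Λ} ↔ u * w ∈ per Λ := by
  refine ⟨fun h y => ?_, fun h y => ?_⟩
  · have := h (u⁻¹ * y)
    simp only [mem_ofPred_eq, mul_add, ← mul_assoc, mul_inv_cancel₀ hu, one_mul] at this
    exact this
  · simp only [mem_ofPred_eq, mul_add]
    exact h _

omit [CharZero K] in
theorem Lat.smul {Λ : Set K} (h : Lat Λ) {u : K} (hu : u ≠ 0) : Lat {y | u * y ∈ Λ} := by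
  refine ⟨?_, fun y => ?_⟩
  · obtain ⟨M, hM, hs⟩ := h.fg
    refine ⟨M.map (LinearMap.mulLeft ℤ u⁻¹), hM.map _, fun y hy => ⟨u * y, hs hy, ?_⟩⟩
    simp [← mul_assoc, inv_mul_cancel₀ hu]
  · obtain ⟨n, hn, hw⟩ := h.full (u * y)
    exact ⟨n, hn, (per_smul hu).2 (by rwa [mul_left_comm])⟩

omit [CharZero K] in
theorem Stab.smul {ε : K} {Λ : Set K} (h : Stab ε Λ) (u : K) : Stab ε {y | u * y ∈ Λ} := fun y => by
  simp only [mem_ofPred_eq]
  rw [mul_left_comm, h]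

omit [CharZero K] in
theorem per_nsmul {Λ : Set K} {w : K} (h : w ∈ per Λ) (n : ℕ) : (n : K) * w ∈ per Λ := by
  simpa using (per Λ).nsmul_mem h n

omit [CharZero K] in
theorem common_per {ι : Type*} (s : Finset ι) {Λ : ι → Set K} (h : ∀ i ∈ s, Lat (Λ i)) (y : K) :
    ∃ n : ℕ, n ≠ 0 ∧ ∀ i ∈ s, (n : K) * y ∈ per (Λ i) := by
  choose! n hn hw using fun i hi => (h i hi).full y
  refine ⟨∏ i ∈ s, n i, Finset.prod_ne_zero_iff.2 hn, fun i hi => ?_⟩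
  obtain ⟨c, hc⟩ := Finset.dvd_prod_of_mem n hi
  rw [hc, mul_comm (n i), Nat.cast_mul, mul_assoc]
  exact per_nsmul (hw i hi) c

omit [CharZero K] in
theorem per_union {ι : Type*} {s : Finset ι} {Λ : ι → Set K} {w : K} (h : ∀ i ∈ s, w ∈ per (Λ i)) :
    w ∈ per (⋃ i ∈ s, Λ i) := fun y => by
  simp only [mem_iUnion]
  exact exists_congr fun i => exists_congr fun hi => h i hi y

omit [CharZero K] in
theorem Lat.union {ι : Type*} (s : Finset ι) {Λ : ι → Set K} (h : ∀ i ∈ s, Lat (Λ i)) :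
    Lat (⋃ i ∈ s, Λ i) := by
  refine ⟨?_, fun y => ?_⟩
  · choose! M hM hs using fun i hi => (h i hi).fg
    refine ⟨s.sup M, Submodule.fg_finset_sup s M hM, fun y hy => ?_⟩
    simp only [mem_iUnion] at hy
    obtain ⟨i, hi, hy⟩ := hy
    exact (Finset.le_sup (f := M) hi : M i ≤ s.sup M) (hs i hi hy)
  · obtain ⟨n, hn, hw⟩ := common_per s h y
    exact ⟨n, hn, per_union hw⟩

theorem LF_union (hK : RQ σ σ') {ι : Type*} (s : Finset ι) {Λ : ι → Set K}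
    (h : ∀ i ∈ s, Lat (Λ i)) (hd : ∀ i ∈ s, ∀ j ∈ s, i ≠ j → Disjoint (Λ i) (Λ j)) {p q : K}
    (hpq : dt σ σ' p q ≠ 0) : LF σ (⋃ i ∈ s, Λ i) p q = ∑ i ∈ s, LF σ (Λ i) p q := by
  simp only [LF]
  rw [iUnion₂_inter, ← finsum_mem_finset_eq_sum]
  exact finsum_mem_biUnion (I := (s : Set ι)) (t := fun i => Λ i ∩ par p q)
    (fun i hi j hj hij => (hd i hi j hj hij).mono inter_subset_left inter_subset_left)
    s.finite_toSet fun i hi => (h i hi).par_finite hK hpq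

theorem LC_self (Λ : Set K) (p : K) : LC σ σ' Λ p p = 0 := by simp [LC, dt_self]

theorem LC_pos {ε : K} (hε : Eps σ σ' ε) (Λ : Set K) {w : K} (h1 : 0 < σ w) (h2 : 0 < σ' w) :
    LC σ σ' Λ w (ε * w) = LF σ Λ w (ε * w) := by
  rw [LC, if_pos]
  rw [dt_eps hε]
  exact neg_neg_of_pos (mul_pos (by linarith [hε.one_lt, hε.lt_one]) (mul_pos h1 h2))

theorem LC_neg {ε : K} (hε : Eps σ σ' ε) (Λ : Set K) {w : K} (h1 : 0 < σ w) (h2 : σ' w < 0) :
    LC σ σ' Λ w (ε * w) = -LF σ Λ (ε * w) w := by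
  have : 0 < dt σ σ' w (ε * w) := by
    rw [dt_eps hε]
    exact neg_pos.2 (mul_neg_of_pos_of_neg (by linarith [hε.one_lt, hε.lt_one])
      (mul_neg_of_pos_of_neg h1 h2))
  rw [LC, if_neg this.not_gt, if_pos (by rw [dt_swap]; linarith)]

theorem LC_basis (hK : RQ σ σ') {ε : K} {Λ : Set K} (hε : Eps σ σ' ε) (hΛ : Lat Λ)
    (hs : Stab ε Λ) {w : K} (hw : w ∈ per Λ) (h1 : 0 < σ w) :
    LC σ σ' Λ w (ε * w) = LX σ σ' ε Λ := by
  obtain ⟨b1, b2, b3⟩ := hΛ.base_spec σ σ'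
  rw [LX, ← LC_pos hε Λ b2 b3]
  set v := base σ σ' Λ
  have hev := hs.mul_per hε.ne b1
  have hew := hs.mul_per hε.ne hw
  have pv : 0 < σ (ε * v) := by rw [map_mul]; exact mul_pos hε.pos b2
  have pw : 0 < σ (ε * w) := by rw [map_mul]; exact mul_pos hε.pos h1
  have e1 := LC_add hK hΛ hw hew hev h1 pw pv
  have e2 := LC_add hK hΛ hw b1 hev h1 b2 pv
  have e3 := LC_smul hε.pos hε.pos' Λ w v
  rw [show {y | ε * y ∈ Λ} = Λ from Set.ext hs] at e3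
  linear_combination e1 - e2 + e3

theorem basis_pos (hK : RQ σ σ') {ε : K} {Λ : Set K} (hε : Eps σ σ' ε) (hΛ : Lat Λ)
    (hs : Stab ε Λ) {w : K} (hw : w ∈ per Λ) (h1 : 0 < σ w) (h2 : 0 < σ' w) :
    LF σ Λ w (ε * w) = LX σ σ' ε Λ := by
  rw [← LC_pos hε Λ h1 h2, LC_basis hK hε hΛ hs hw h1]

theorem basis_neg (hK : RQ σ σ') {ε : K} {Λ : Set K} (hε : Eps σ σ' ε) (hΛ : Lat Λ)
    (hs : Stab ε Λ) {w : K} (hw : w ∈ per Λ) (h1 : 0 < σ w) (h2 : σ' w < 0) :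
    LF σ Λ (ε * w) w = -LX σ σ' ε Λ := by
  rw [← LC_basis hK hε hΛ hs hw h1, LC_neg hε Λ h1 h2, neg_neg]

theorem LX_union (hK : RQ σ σ') {ε : K} (hε : Eps σ σ' ε) {ι : Type*} (s : Finset ι)
    (Λ : ι → Set K) (h : ∀ i ∈ s, Lat (Λ i)) (hs : ∀ i ∈ s, Stab ε (Λ i))
    (hd : ∀ i ∈ s, ∀ j ∈ s, i ≠ j → Disjoint (Λ i) (Λ j)) :
    LX σ σ' ε (⋃ i ∈ s, Λ i) = ∑ i ∈ s, LX σ σ' ε (Λ i) := by
  obtain ⟨n, hn, hw⟩ := common_per s h 1
  have h1 : ∀ τ : K →+* ℝ, 0 < τ ((n : K) * 1) := fun τ => by simp [Nat.pos_of_ne_zero hn]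
  have hS : Stab ε (⋃ i ∈ s, Λ i) := fun y => by
    simp only [mem_iUnion]
    exact exists_congr fun i => exists_congr fun hi => hs i hi y
  rw [← basis_pos hK hε (Lat.union s h) hS (per_union hw) (h1 σ) (h1 σ'),
    LF_union hK s h hd (dt_eps_ne hε (by simpa using hn))]
  exact Finset.sum_congr rfl fun i hi => basis_pos hK hε (h i hi) (hs i hi) (hw i hi) (h1 σ) (h1 σ')

theorem LX_smul (hK : RQ σ σ') {ε : K} {Λ : Set K} (hε : Eps σ σ' ε) (hΛ : Lat Λ)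
    (hs : Stab ε Λ) {u : K} (h1 : 0 < σ u) (h2 : 0 < σ' u) :
    LX σ σ' ε {y | u * y ∈ Λ} = LX σ σ' ε Λ := by
  have hu0 : u ≠ 0 := fun h => by simp [h] at h1
  obtain ⟨b1, b2, b3⟩ := (hΛ.smul hu0).base_spec σ σ'
  rw [LX, LF_smul h1, mul_left_comm]
  exact basis_pos hK hε hΛ hs ((per_smul hu0).1 b1) (by rw [map_mul]; positivity)
    (by rw [map_mul]; positivity)

theorem LX_pow_sum (hK : RQ σ σ') {ε : K} {Λ : Set K} (hε : Eps σ σ' ε) (hΛ : Lat Λ) {n : ℕ}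
    (hn : n ≠ 0) (hs : Stab (ε ^ n) Λ) {w : K} (hw : ∀ i ≤ n, ε ^ i * w ∈ per Λ) (h1 : 0 < σ w)
    (h2 : 0 < σ' w) :
    LX σ σ' (ε ^ n) Λ = ∑ i ∈ Finset.range n, LF σ {y | ε ^ i * y ∈ Λ} w (ε * w) := by
  have hw0 : w ∈ per Λ := by simpa using hw 0 (Nat.zero_le n)
  have hp : ∀ i : ℕ, 0 < σ (ε ^ i * w) := fun i => by
    rw [map_mul, map_pow]; exact mul_pos (pow_pos hε.pos i) h1
  have key : ∀ m ≤ n, LC σ σ' Λ w (ε ^ m * w) =
      ∑ i ∈ Finset.range m, LF σ {y | ε ^ i * y ∈ Λ} w (ε * w) := by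
    intro m hm
    induction m with
    | zero => simp [LC_self]
    | succ m ih =>
      rw [Finset.sum_range_succ, ← ih (by omega), ← LC_pos hε _ h1 h2,
        LC_smul (by rw [map_pow]; exact pow_pos hε.pos m) (by rw [map_pow]; exact pow_pos hε.pos' m),
        ← mul_assoc, ← pow_succ]
      exact (LC_add hK hΛ hw0 (hw m (by omega)) (hw _ hm) h1 (hp _) (hp _)).symm
  rw [← key n le_rfl, LC_basis hK (hε.pow hn) hΛ hs hw0 h1]

theorem LX_pow (hK : RQ σ σ') {ε : K} {Λ : Set K} (hε : Eps σ σ' ε) (hΛ : Lat Λ)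
    (hs : Stab ε Λ) {n : ℕ} (hn : n ≠ 0) : LX σ σ' (ε ^ n) Λ = n * LX σ σ' ε Λ := by
  obtain ⟨b1, b2, b3⟩ := hΛ.base_spec σ σ'
  rw [LX_pow_sum hK hε hΛ hn (hs.pow n) (fun i _ => (hs.pow i).mul_per (pow_ne_zero i hε.ne) b1)
    b2 b3]
  have : ∀ i : ℕ, {y | ε ^ i * y ∈ Λ} = Λ := fun i => Set.ext (hs.pow i)
  simp [this, LX]

theorem LX_orbit (hK : RQ σ σ') {ε : K} {Λ : Set K} (hε : Eps σ σ' ε) (hΛ : Lat Λ) {n : ℕ}
    (hn : n ≠ 0) (hs : Stab (ε ^ n) Λ)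
    (hd : ∀ i < n, ∀ j < n, i ≠ j → Disjoint {y | ε ^ i * y ∈ Λ} {y | ε ^ j * y ∈ Λ}) :
    LX σ σ' ε (⋃ i ∈ Finset.range n, {y | ε ^ i * y ∈ Λ}) = LX σ σ' (ε ^ n) Λ := by
  have hL : ∀ i : ℕ, Lat {y | ε ^ i * y ∈ Λ} := fun i => hΛ.smul (pow_ne_zero i hε.ne)
  obtain ⟨m, hm, hw⟩ := common_per (Finset.range (n + 1)) (fun i _ => hL i) 1
  have h1 : ∀ τ : K →+* ℝ, 0 < τ ((m : K) * 1) := fun τ => by simp [Nat.pos_of_ne_zero hm]
  have hS : Stab ε (⋃ i ∈ Finset.range n, {y | ε ^ i * y ∈ Λ}) := fun y => by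
    simp only [mem_iUnion, Finset.mem_range, mem_ofPred_eq, ← mul_assoc, ← pow_succ]
    constructor
    · rintro ⟨i, hi, h⟩
      by_cases h' : i + 1 = n
      · exact ⟨0, Nat.pos_of_ne_zero hn, by rw [h', hs] at h; simpa using h⟩
      · exact ⟨i + 1, by omega, h⟩
    · rintro ⟨i, hi, h⟩
      rcases i with _ | i
      · refine ⟨n - 1, by omega, ?_⟩
        rw [Nat.sub_add_cancel (Nat.pos_of_ne_zero hn), hs]
        simpa using h
      · exact ⟨i, by omega, h⟩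
  rw [← basis_pos hK hε (Lat.union _ fun i _ => hL i) hS
      (per_union fun i hi => hw i (Finset.mem_range.2 (by have := Finset.mem_range.1 hi; omega)))
      (h1 σ) (h1 σ'),
    LF_union hK _ (fun i _ => hL i)
      (fun i hi j hj => hd i (Finset.mem_range.1 hi) j (Finset.mem_range.1 hj))
      (dt_eps_ne hε (by simpa using hm)),
    LX_pow_sum hK hε hΛ hn hs (fun i hi => (per_smul (pow_ne_zero i hε.ne)).1
      (hw i (Finset.mem_range.2 (by omega)))) (h1 σ) (h1 σ')]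

theorem dl_conj (p q z : ℝ) : dl p q (p + q - z : ℝ) = -(starRingEnd ℂ) (dl p q z) := by
  rw [dl, dl, ← integral_conj, ← integral_neg, ← integral_neg_eq_self]
  refine integral_congr_ae (Filter.Eventually.of_forall fun r => ?_)
  simp only [kern, map_div₀, map_mul, map_sub, map_neg, map_one, ← Complex.exp_conj, conj_ofReal,
    conj_I]
  set t : ℂ := r - (1 / (p + q) : ℝ) * -I with ht
  have e : (((-r : ℝ) : ℂ) - (1 / (p + q) : ℝ) * I) = -t := by rw [ht]; push_cast; ring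
  rw [e]
  have h1 : ∀ c : ℝ, 1 - cexp (-c * -t) = -cexp (c * t) * (1 - cexp (-c * t)) := fun c => by
    have h2 : cexp (c * t) * cexp (-c * t) = 1 := by rw [← Complex.exp_add]; simp
    rw [neg_mul_neg]
    linear_combination -h2
  rw [h1, h1, show -((p + q - z : ℝ) : ℂ) * -t = p * t + q * t + -z * t by push_cast; ring,
    Complex.exp_add, Complex.exp_add,
    show -cexp (p * t) * (1 - cexp (-p * t)) * (-cexp (q * t) * (1 - cexp (-q * t))) * -t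
      = -(cexp (p * t) * cexp (q * t) * ((1 - cexp (-p * t)) * (1 - cexp (-q * t)) * t)) by ring,
    div_neg, mul_div_mul_left _ _ (mul_ne_zero (Complex.exp_ne_zero _) (Complex.exp_ne_zero _))]

theorem refl_mem_par {p q z : K} (h : z ∈ par p q) : p + q - z ∈ par q p := by
  obtain ⟨a, b, h1, h2, h3, h4, rfl⟩ := h
  exact ⟨1 - b, 1 - a, by linarith, by linarith, by linarith, by linarith, by push_cast; ring⟩

theorem refl_bijOn {Λ : Set K} {p q : K} (hp : p ∈ per Λ) (hq : q ∈ per Λ) :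
    BijOn (fun z => p + q - z) (Λ ∩ par p q) ({y | -y ∈ Λ} ∩ par q p) := by
  refine ⟨fun z hz => ⟨?_, refl_mem_par hz.2⟩, fun x _ y _ h => sub_right_injective h,
    fun y hy => ⟨q + p - y, ⟨?_, refl_mem_par hy.2⟩, by simp only; ring⟩⟩
  · have := (add_per hp hq (-1) (-1) z).2 hz.1
    rwa [show z + ((-1 : ℤ) : K) * p + ((-1 : ℤ) : K) * q = -(p + q - z) by push_cast; ring] at this
  · have := (add_per hp hq 1 1 (-y)).2 hy.1
    rwa [show -y + ((1 : ℤ) : K) * p + ((1 : ℤ) : K) * q = q + p - y by push_cast; ring] at this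

theorem LF_refl (hK : RQ σ σ') {Λ : Set K} (hΛ : Lat Λ) {p q : K} (hp : p ∈ per Λ)
    (hq : q ∈ per Λ) (h : dt σ σ' p q ≠ 0) :
    LF σ {y | -y ∈ Λ} q p = -(starRingEnd ℂ) (LF σ Λ p q) := by
  have hf := hΛ.par_finite hK h
  rw [LF, ← finsum_mem_eq_of_bijOn (f := fun z => -(starRingEnd ℂ) (dl (σ p) (σ q) (σ z))) _
    (refl_bijOn hp hq) fun z _ => by
      rw [← dl_conj, dl_comm, map_sub, map_add], LF, finsum_mem_eq_finite_toFinset_sum _ hf,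
    finsum_mem_eq_finite_toFinset_sum _ hf, map_sum, Finset.sum_neg_distrib]

/-- The points of `Λ` on the open segment from `0` to `p`. -/
def seg (Λ : Set K) (p : K) : Set K := {z | z ∈ Λ ∧ ∃ a : ℚ, 0 < a ∧ a < 1 ∧ z = a * p}

/-- The points of `Λ` in the open parallelogram. -/
def inner (Λ : Set K) (p q : K) : Set K :=
  {z | z ∈ Λ ∧ ∃ a b : ℚ, 0 < a ∧ a < 1 ∧ 0 < b ∧ b < 1 ∧ z = a * p + b * q}

omit [CharZero K] in
theorem inner_comm (Λ : Set K) (p q : K) : inner Λ p q = inner Λ q p := by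
  have : ∀ p q : K, inner Λ p q ⊆ inner Λ q p := fun p q z ⟨h, a, b, h1, h2, h3, h4, e⟩ =>
    ⟨h, b, a, h3, h4, h1, h2, by rw [e, add_comm]⟩
  exact (this p q).antisymm (this q p)

theorem LF_split (hK : RQ σ σ') {Λ : Set K} (hΛ : Lat Λ) (h0 : 0 ∉ Λ) {p q : K} (hp : p ∈ per Λ)
    (h : dt σ σ' p q ≠ 0) : (seg Λ p).Finite ∧
    LF σ Λ p q = ∑ᶠ z ∈ inner Λ p q, dl (σ p) (σ q) (σ z) + ∑ᶠ z ∈ seg Λ p, dl (σ p) (σ q) (σ z) +
      ∑ᶠ z ∈ seg Λ q, dl (σ p) (σ q) (σ z + σ p) := by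
  have hf := hΛ.par_finite hK h
  have e : Λ ∩ par p q = (inner Λ p q ∪ seg Λ p) ∪ (fun z => z + p) '' seg Λ q := by
    ext z
    constructor
    · rintro ⟨hz, a, b, h1, h2, h3, h4, rfl⟩
      rcases h2.eq_or_lt with rfl | h2
      · rcases h3.eq_or_lt with rfl | h3
        · exact absurd ((hp 0).1 (by simpa using hz)) h0
        · exact Or.inr ⟨b * q, ⟨(hp _).1 (by simpa [add_comm] using hz), b, h3, h4, rfl⟩,
            by simp [add_comm]⟩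
      · rcases h3.eq_or_lt with rfl | h3
        · exact Or.inl (Or.inr ⟨hz, a, h1, h2, by simp⟩)
        · exact Or.inl (Or.inl ⟨hz, a, b, h1, h2, h3, h4, rfl⟩)
    · rintro ((⟨hz, a, b, h1, h2, h3, h4, e⟩ | ⟨hz, a, h1, h2, e⟩) | ⟨y, ⟨hy, b, h1, h2, e⟩, rfl⟩)
      · exact ⟨hz, a, b, h1, h2.le, h3.le, h4, e⟩
      · exact ⟨hz, a, 0, h1, h2.le, le_rfl, one_pos, by simp [e]⟩
      · exact ⟨(hp y).2 hy, 1, b, one_pos, le_rfl, h1.le, h2, by simp [e, add_comm]⟩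
  rw [e] at hf
  refine ⟨hf.subset (subset_union_right.trans subset_union_left), ?_⟩
  rw [LF, e, finsum_mem_union _ (hf.subset subset_union_left) (hf.subset subset_union_right),
    finsum_mem_union _ (hf.subset (subset_union_left.trans subset_union_left))
      (hf.subset (subset_union_right.trans subset_union_left)),
    finsum_mem_image (add_left_injective p).injOn]
  · simp only [map_add, ofReal_add]
  · rw [Set.disjoint_left]
    rintro z ⟨-, a, b, -, -, h3, -, rfl⟩ ⟨-, c, -, -, e⟩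
    exact h3.ne' (coord_inj h (a' := c) (b' := 0) (by simpa using e)).2
  · rw [Set.disjoint_left]
    rintro z (⟨-, a, b, -, h2, -, -, rfl⟩ | ⟨-, a, -, h2, rfl⟩) ⟨y, ⟨-, c, -, -, rfl⟩, e⟩
    · exact h2.ne (coord_inj h (a' := 1) (b' := c) (by simpa [add_comm] using e.symm)).1
    · exact h2.ne (coord_inj h (b := 0) (a' := 1) (b' := c) (by simpa [add_comm] using e.symm)).1

theorem LF_swap (hK : RQ σ σ') {ε : K} {Λ : Set K} (hε : Eps σ σ' ε) (hΛ : Lat Λ)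
    (hs : Stab ε Λ) (h0 : 0 ∉ Λ) {w : K} (hw : w ∈ per Λ) (h1 : 0 < σ w) :
    LF σ Λ (ε * w) w = LF σ Λ w (ε * w) := by
  have hw0 : w ≠ 0 := fun h => by simp [h] at h1
  have hd := dt_eps_ne hε hw0
  have h2 : 0 < σ (ε * w) := by rw [map_mul]; exact mul_pos hε.pos h1
  obtain ⟨f1, e1⟩ := LF_split hK hΛ h0 hw hd
  obtain ⟨f2, e2⟩ := LF_split hK hΛ h0 (hs.mul_per hε.ne hw) (q := w)
    (by rw [dt_swap]; exact neg_ne_zero.2 hd)
  have key : ∑ᶠ z ∈ seg Λ w, (dl (σ w) (σ (ε * w)) (σ z) - dl (σ w) (σ (ε * w)) (σ z + σ (ε * w)))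
      = ∑ᶠ z ∈ seg Λ (ε * w), (dl (σ (ε * w)) (σ w) (σ z) - dl (σ (ε * w)) (σ w) (σ z + σ w)) := by
    refine finsum_mem_eq_of_bijOn (fun z => ε * z) ⟨?_, fun x _ y _ h => mul_left_cancel₀ hε.ne h,
      ?_⟩ ?_
    · rintro z ⟨hz, a, a1, a2, rfl⟩
      exact ⟨(hs _).2 hz, a, a1, a2, by simp only; ring⟩
    · rintro z ⟨hz, a, a1, a2, rfl⟩
      exact ⟨a * w, ⟨(hs _).1 (by rwa [mul_left_comm]), a, a1, a2, rfl⟩, by simp only; ring⟩
    · rintro z ⟨-, a, a1, a2, rfl⟩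
      have := dl_ray h1 h2 (a := a) (by exact_mod_cast a1) (by exact_mod_cast a2)
      rw [mul_left_comm ε, map_mul σ (a : K), map_mul σ (a : K), map_ratCast]
      exact this
  rw [finsum_mem_sub_distrib _ _ f1, finsum_mem_sub_distrib _ _ f2] at key
  rw [e1, e2, inner_comm Λ w]
  simp only [dl_comm (σ (ε * w)) (σ w)] at key ⊢
  linear_combination -key

theorem LX_smul_neg (hK : RQ σ σ') {ε : K} {Λ : Set K} (hε : Eps σ σ' ε) (hΛ : Lat Λ)
    (hs : Stab ε Λ) (h0 : 0 ∉ Λ) {u : K} (h1 : 0 < σ u) (h2 : σ' u < 0) :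
    LX σ σ' ε {y | u * y ∈ Λ} = -LX σ σ' ε Λ := by
  have hu0 : u ≠ 0 := fun h => by simp [h] at h1
  obtain ⟨b1, b2, b3⟩ := (hΛ.smul hu0).base_spec σ σ'
  have h3 : 0 < σ (u * base σ σ' {y | u * y ∈ Λ}) := by rw [map_mul]; positivity
  rw [LX, LF_smul h1, mul_left_comm, ← LF_swap hK hε hΛ hs h0 ((per_smul hu0).1 b1) h3]
  exact basis_neg hK hε hΛ hs ((per_smul hu0).1 b1) h3
    (by rw [map_mul]; exact mul_neg_of_neg_of_pos h2 b3)

omit [CharZero K] in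
theorem neg_set (Λ : Set K) : {y | -y ∈ Λ} = {y | -1 * y ∈ Λ} := by simp

theorem LX_neg_conj (hK : RQ σ σ') {ε : K} {Λ : Set K} (hε : Eps σ σ' ε) (hΛ : Lat Λ)
    (hs : Stab ε Λ) (h0 : 0 ∉ Λ) :
    LX σ σ' ε {y | -y ∈ Λ} = -(starRingEnd ℂ) (LX σ σ' ε Λ) := by
  obtain ⟨b1, b2, b3⟩ := hΛ.base_spec σ σ'
  have hL : Lat {y | -y ∈ Λ} := neg_set Λ ▸ hΛ.smul (by simp)
  have hS : Stab ε {y | -y ∈ Λ} := neg_set Λ ▸ hs.smul _
  have hw : base σ σ' Λ ∈ per {y | -y ∈ Λ} :=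
    neg_set Λ ▸ (per_smul (by simp)).2 (by simpa using (per Λ).neg_mem b1)
  rw [← basis_pos hK hε hL hS hw b2 b3, ← LF_swap hK hε hL hS (by simpa using h0) hw b2,
    LF_refl hK hΛ b1 (hs.mul_per hε.ne b1) (dt_eps_ne hε fun h => by simp [h] at b2), LX]

theorem LX_neg (hK : RQ σ σ') {ε : K} {Λ : Set K} (hε : Eps σ σ' ε) (hΛ : Lat Λ)
    (hs : Stab ε Λ) (h0 : 0 ∉ Λ) : (LX σ σ' ε {y | -y ∈ Λ}).re = -(LX σ σ' ε Λ).re := by
  rw [LX_neg_conj hK hε hΛ hs h0, neg_re, conj_re]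

end Pool.Agent.RM
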