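import Pool.Agent.Lib.MP_ca56d1_nt.RM.StubA
import Pool.Agent.Lib.MP_ca56d1_nt.ZetaZero1
import Pool.Agent.Shared.HoloIntegral

/-! Unfolding of theta integrals over a strip. -/

namespace Pool.Agent.RM.ThetaContAux

open Complex MeasureTheory Set Pool.Agent.Stark

theorem plane {g h : ℝ → ℂ} (hg : Integrable g) (hh : Integrable h) :
    Integrable (fun p : ℝ × ℝ => g (p.2 + p.1) * h (p.2 - p.1)) ∧
      ∫ p : ℝ × ℝ, g (p.2 + p.1) * h (p.2 - p.1) = ((∫ x, g x) * ∫ y, h y) / 2 := by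
  let T := Matrix.toLin (Module.Basis.finTwoProd ℝ) (Module.Basis.finTwoProd ℝ) !![1, 1; -1, 1]
  have hT : ∀ p : ℝ × ℝ, T p = (p.2 + p.1, p.2 - p.1) := fun p => by
    rw [Matrix.toLin_finTwoProd_apply]
    ext <;> simp only <;> ring
  have hd : LinearMap.det T = 2 := by
    rw [LinearMap.det_toLin, Matrix.det_fin_two_of]
    norm_num
  have hm := Measure.map_linearMap_addHaar_eq_smul_addHaar (volume : Measure (ℝ × ℝ))
    (f := T) (by rw [hd]; norm_num)
  have hc : Continuous T := LinearMap.continuous_of_finiteDimensional _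
  have h1 : Integrable (fun p : ℝ × ℝ => g p.1 * h p.2) := hg.mul_prod hh
  have h2 : Integrable (fun p : ℝ × ℝ => g p.1 * h p.2) (Measure.map T volume) := by
    rw [hm]
    exact h1.smul_measure ENNReal.ofReal_ne_top
  have h3 := integral_map hc.aemeasurable h2.1
  have h4 := (integrable_map_measure h2.1 hc.aemeasurable).1 h2
  rw [hm, integral_smul_measure, hd, ENNReal.toReal_ofReal (abs_nonneg _),
    Measure.volume_eq_prod, integral_prod_mul, ← Measure.volume_eq_prod] at h3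
  simp only [hT, Function.comp_def] at h3 h4
  refine ⟨h4, ?_⟩
  rw [← h3, abs_of_pos (by norm_num), real_smul]
  push_cast
  ring

/-- The measure on the strip. -/
noncomputable def mu (l : ℝ) : Measure (ℝ × ℝ) := (volume.restrict (Ioc 0 l)).prod volume

theorem mu_eq (l : ℝ) : mu l = volume.restrict (Ioc 0 l ×ˢ univ) := by
  rw [mu, Measure.volume_eq_prod, ← Measure.prod_restrict, Measure.restrict_univ]

/-- Translation in the first coordinate. -/
def sh (t : ℝ) (p : ℝ × ℝ) : ℝ × ℝ := p + (t, 0)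

theorem strip {E : Type*} [NormedAddCommGroup E] [NormedSpace ℝ E] {l : ℝ} (hl : 0 < l)
    {f : ℝ × ℝ → E} (hf : Integrable f) :
    HasSum (fun n : ℤ => ∫ p, f (sh (n * l) p) ∂mu l) (∫ p, f p) := by
  have hu : ⋃ n : ℤ, Ioc (n • l) ((n + 1) • l) ×ˢ (univ : Set ℝ) = univ := by
    rw [← iUnion_prod_const, iUnion_Ioc_zsmul hl, univ_prod_univ]
  have h := hasSum_integral_iUnion (μ := volume) (f := f)
    (s := fun n : ℤ => Ioc (n • l) ((n + 1) • l) ×ˢ (univ : Set ℝ))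
    (fun n => measurableSet_Ioc.prod MeasurableSet.univ)
    (fun n m hnm => Set.disjoint_prod.2 (Or.inl (pairwise_disjoint_Ioc_zsmul l hnm)))
    hf.integrableOn
  rw [hu, Measure.restrict_univ] at h
  refine (congrArg (HasSum · _) (funext fun n => ?_)).mpr h
  refine Eq.trans ?_ ((measurePreserving_add_right volume
    ((n : ℝ) * l, (0 : ℝ))).setIntegral_preimage_emb (measurableEmbedding_addRight _) f _)
  rw [mu_eq]
  congr 2
  ext p
  simp only [mem_prod, mem_Ioc, mem_univ, and_true, mem_preimage, Prod.fst_add, zsmul_eq_mul]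
  push_cast
  constructor <;> rintro ⟨h1, h2⟩ <;> constructor <;> linarith

/-- One term of the theta series. -/
noncomputable def tm (j : ℕ) (α β x y : ℝ) : ℝ :=
  (Real.exp y * β) ^ j * Real.exp (-Real.pi * ((Real.exp x * α) ^ 2 + (Real.exp y * β) ^ 2))

theorem tm_shift (j : ℕ) (α β x y t : ℝ) :
    tm j (Real.exp t * α) (Real.exp (-t) * β) x y = tm j α β (x + t) (y - t) := by
  rw [tm, tm, Real.exp_add, sub_eq_add_neg, Real.exp_add, mul_assoc (Real.exp x),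
    mul_assoc (Real.exp y)]

theorem abs_tm (j : ℕ) (α β x y : ℝ) : |tm j α β x y| = tm j α |β| x y := by
  rw [tm, tm, abs_mul, abs_pow, abs_mul, Real.abs_exp, Real.abs_exp, mul_pow _ |β| 2, sq_abs,
    ← mul_pow]

/-- One term of the Mellin integrand. -/
noncomputable def G (j : ℕ) (α β : ℝ) (s : ℂ) (p : ℝ × ℝ) : ℂ :=
  (tm j α β (p.2 + p.1) (p.2 - p.1) : ℝ) * cexp (2 * s * p.2)

theorem G_eq (j : ℕ) (α β : ℝ) (s : ℂ) (p : ℝ × ℝ) : G j α β s p =
    (β : ℂ) ^ j * (PhiAux.f1 |α| s (p.2 + p.1) * PhiAux.f1 |β| (s + j) (p.2 - p.1)) := by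
  have e : ∀ x a : ℝ, (Real.exp x * a) ^ 2 = Real.exp (2 * x) * |a| ^ 2 := fun x a => by
    rw [mul_pow, sq_abs, ← Real.exp_nat_mul, Nat.cast_ofNat]
  have e1 : cexp (s * ((p.2 + p.1 : ℝ) : ℂ)) * cexp ((s + j) * ((p.2 - p.1 : ℝ) : ℂ)) =
      ((Real.exp (p.2 - p.1) ^ j : ℝ) : ℂ) * cexp (2 * s * p.2) := by
    rw [← Real.exp_nat_mul, ofReal_exp, ← Complex.exp_add, ← Complex.exp_add]
    congr 1
    push_cast
    ring
  rw [G, tm, e, e, mul_add, Real.exp_add, PhiAux.f1, PhiAux.f1, mul_mul_mul_comm, e1, mul_pow,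
    ofReal_mul, ofReal_mul, ofReal_mul, ofReal_pow β]
  ring

theorem norm_G (j : ℕ) (α β : ℝ) (s : ℂ) (p : ℝ × ℝ) :
    ‖G j α β s p‖ = (G j α |β| s.re p).re := by
  rw [G, G, norm_mul, norm_real, norm_exp, Real.norm_eq_abs, abs_tm, re_ofReal_mul,
    ← ofReal_ofNat 2, ← ofReal_mul, ← ofReal_mul, exp_ofReal_re]
  simp

theorem G_int (j : ℕ) {α β : ℝ} (hα : α ≠ 0) (hβ : β ≠ 0) {s : ℂ} (hs : 0 < s.re) :
    Integrable (G j α β s) ∧ ∫ p, G j α β s p = Gammaℝ s * Gammaℝ (s + j) / 8 *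
      ((((SignType.sign β : ℝ) : ℂ)) ^ j * ((|α * β| : ℝ) : ℂ) ^ (-s)) := by
  have hs' : 0 < (s + j).re := by
    rw [add_re, natCast_re]
    positivity
  have hi : ∀ {x : ℝ} {z : ℂ}, 0 < x → 0 < z.re → Integrable (PhiAux.f1 x z) := fun hx hz =>
    Integrable.of_integral_ne_zero (by
      rw [PhiAux.integral_f1 hx hz, PhiAux.ofReal_cpow_eq hx]
      exact mul_ne_zero (div_ne_zero (Gammaℝ_ne_zero_of_re_pos hz) two_ne_zero)
        (Complex.exp_ne_zero _))
  have a0 := abs_pos.2 hα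
  have b0 := abs_pos.2 hβ
  obtain ⟨h1, h2⟩ := plane (hi a0 hs) (hi b0 hs')
  rw [funext (G_eq j α β s)]
  refine ⟨h1.const_mul _, ?_⟩
  have h3 : (β : ℂ) = ((SignType.sign β : ℝ) : ℂ) * (|β| : ℝ) := by
    rw [← ofReal_mul, sign_mul_abs]
  have h4 : ((|β| : ℝ) : ℂ) ^ (-(s + j)) * ((|β| : ℝ) : ℂ) ^ j = ((|β| : ℝ) : ℂ) ^ (-s) := by
    rw [← cpow_natCast, ← cpow_add _ _ (ofReal_ne_zero.2 b0.ne')]
    congr 1
    ring
  rw [integral_const_mul, h2, PhiAux.integral_f1 a0 hs, PhiAux.integral_f1 b0 hs', abs_mul,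
    ofReal_mul, mul_cpow_ofReal_nonneg a0.le b0.le, ← h4, congrArg (· ^ j) h3, mul_pow]
  ring

variable {ι : Type} {α β : ι → ℝ} {l : ℝ}

theorem int_sh (j : ℕ) {a b : ℝ} (ha : a ≠ 0) (hb : b ≠ 0) {s : ℂ} (hs : 0 < s.re) (l t : ℝ) :
    Integrable (fun p => G j a b s (sh t p)) (mu l) := by
  rw [mu_eq]
  exact ((G_int j ha hb hs).1.comp_add_right _).integrableOn

theorem int_norm (j : ℕ) {a b : ℝ} (ha : a ≠ 0) (hb : b ≠ 0) {s : ℂ} (hs : 0 < s.re) :
    ∫ p, ‖G j a b s p‖ = (Gammaℝ s.re * Gammaℝ (s.re + j) / 8).re * |a * b| ^ (-s.re) := by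
  have h := G_int j ha (abs_pos.2 hb).ne' (s := s.re) hs
  have h1 := integral_re h.1
  simp only [RCLike.re_to_complex] at h1
  simp_rw [norm_G]
  rw [h1, h.2, sign_pos (abs_pos.2 hb), abs_mul, abs_abs, ← abs_mul, ← ofReal_neg,
    ← ofReal_cpow (abs_nonneg _)]
  simp only [SignType.coe_one, ofReal_one, one_pow, one_mul, re_mul_ofReal]

theorem unfold [Countable ι] (hl : 0 < l) (hα : ∀ i, α i ≠ 0) (hβ : ∀ i, β i ≠ 0) (j : ℕ) {s : ℂ}
    (hs : 0 < s.re) (hS : Summable fun i => |α i * β i| ^ (-s.re)) :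
    ∫ p, ∑' q : ι × ℤ, G j (α q.1) (β q.1) s (sh (q.2 * l) p) ∂mu l =
      Gammaℝ s * Gammaℝ (s + j) / 8 *
        ∑' i, (((SignType.sign (β i) : ℝ) : ℂ)) ^ j * ((|α i * β i| : ℝ) : ℂ) ^ (-s) := by
  have hI := fun i => G_int j (hα i) (hβ i) hs
  have h1 := fun q : ι × ℤ => int_sh j (hα q.1) (hβ q.1) hs l (q.2 * l)
  have h2 : Summable fun q : ι × ℤ => ∫ p, ‖G j (α q.1) (β q.1) s (sh (q.2 * l) p)‖ ∂mu l := by
    refine (summable_prod_of_nonneg fun q => integral_nonneg fun _ => norm_nonneg _).2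
      ⟨fun a => (strip hl (hI a).1.norm).summable, (hS.mul_left _).congr fun a =>
        ((strip hl (hI a).1.norm).tsum_eq.trans (int_norm j (hα a) (hβ a) hs)).symm⟩
  have h4 := hasSum_integral_of_summable_integral_norm h1 h2
  have h5 := (h4.prod_fiberwise fun a => strip hl (hI a).1).tsum_eq
  simp_rw [(hI _).2] at h5
  rw [← tsum_mul_left, h5]

theorem summ (hl : 0 < l) (hα : ∀ i, α i ≠ 0) (hβ : ∀ i, β i ≠ 0) {x : ℝ} (hx : 0 < x)
    {Φ : ℝ × ℝ → ℂ} (hΦ : Integrable Φ (mu l))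
    (h : ∀ p, HasSum (fun q : ι × ℤ => G 0 (α q.1) (β q.1) x (sh (q.2 * l) p)) (Φ p)) :
    Summable fun i => |α i * β i| ^ (-x) := by
  have hs : 0 < (x : ℂ).re := hx
  have hI := fun i => G_int 0 (hα i) (hβ i) hs
  have h1 := fun q : ι × ℤ => int_sh 0 (hα q.1) (hβ q.1) hs l (q.2 * l)
  have h0 : ∀ a b p, ‖G 0 a b x p‖ = (G 0 a b x p).re := fun a b p => by
    rw [norm_G, ofReal_re, G, G, ← abs_tm, abs_of_nonneg (by unfold tm; positivity)]
  have h2 : Summable fun q : ι × ℤ => ∫ p, ‖G 0 (α q.1) (β q.1) x (sh (q.2 * l) p)‖ ∂mu l := by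
    refine summable_of_sum_le (c := ∫ p, (Φ p).re ∂mu l)
      (fun q => integral_nonneg fun _ => norm_nonneg _) fun u => ?_
    rw [← integral_finsetSum _ fun q _ => (h1 q).norm]
    refine integral_mono (integrable_finsetSum _ fun q _ => (h1 q).norm) hΦ.re fun p => ?_
    have h3 := hasSum_re (h p)
    simp only [← h0] at h3
    exact sum_le_hasSum u (fun _ _ => norm_nonneg _) h3
  have h3 := h2.prod.congr fun a =>
    (strip hl (hI a).1.norm).tsum_eq.trans (int_norm 0 (hα a) (hβ a) hs)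
  refine (summable_mul_left_iff ?_).1 h3
  have h4 : Gammaℝ x = (Real.pi ^ (-x / 2) * Real.Gamma (x / 2) : ℝ) := by
    rw [Gammaℝ_def, ofReal_mul, ofReal_cpow Real.pi_pos.le, ← Gamma_ofReal]
    push_cast
    rfl
  have h5 := Real.Gamma_pos_of_pos (half_pos hx)
  have h6 := Real.pi_pos
  rw [ofReal_re, Nat.cast_zero, add_zero, h4, ← ofReal_mul, ← ofReal_ofNat 8, ← ofReal_div,
    ofReal_re]
  positivity

theorem int_exp : Integrable fun τ : ℝ => Real.exp (-|τ|) := by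
  rw [← integrableOn_univ, ← Iic_union_Ioi (a := (0 : ℝ)), integrableOn_union]
  exact ⟨(integrableOn_exp_Iic 0).congr_fun (fun τ h => by rw [abs_of_nonpos h, neg_neg])
      measurableSet_Iic,
    (integrableOn_exp_neg_Ioi 0).congr_fun (fun τ h => by rw [abs_of_pos h]) measurableSet_Ioi⟩

theorem entire {Ψ : ℝ × ℝ → ℝ} (hm : Measurable Ψ)
    (hb : ∀ R : ℝ, ∃ C : ℝ, ∀ u τ : ℝ, |u| ≤ l → |Ψ (u, τ)| ≤ C * Real.exp (-R * |τ|)) :
    (∀ s : ℂ, Integrable (fun p => (Ψ p : ℂ) * cexp (2 * s * p.2)) (mu l)) ∧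
      Differentiable ℂ fun s : ℂ => ∫ p, (Ψ p : ℂ) * cexp (2 * s * p.2) ∂mu l := by
  have h1 : ∀ s : ℂ, AEStronglyMeasurable (fun p => (Ψ p : ℂ) * cexp (2 * s * p.2)) (mu l) :=
    fun s => Measurable.aestronglyMeasurable (by fun_prop)
  have h2 : ∀ ρ : ℝ, ∃ b : ℝ × ℝ → ℝ, Integrable b (mu l) ∧ ∀ᵐ p ∂mu l,
      ∀ s ∈ Metric.ball (0 : ℂ) ρ, ‖(Ψ p : ℂ) * cexp (2 * s * p.2)‖ ≤ b p := by
    intro ρ
    obtain ⟨C, hC⟩ := hb (2 * ρ + 1)
    refine ⟨fun p => C * Real.exp (-|p.2|), (int_exp.const_mul C).comp_snd _, ?_⟩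
    rw [mu_eq]
    filter_upwards [ae_restrict_mem (measurableSet_Ioc.prod MeasurableSet.univ)] with p hp s hs
    have h3 := hC p.1 p.2 (abs_le.2 ⟨by linarith [hp.1.1, hp.1.2], hp.1.2⟩)
    have h4 : ‖cexp (2 * s * p.2)‖ ≤ Real.exp (2 * ρ * |p.2|) := by
      refine (norm_exp_le_exp_norm _).trans (Real.exp_le_exp.2 ?_)
      rw [norm_mul, norm_mul, norm_real, Real.norm_eq_abs, Complex.norm_ofNat]
      have := (mem_ball_zero_iff.1 hs).le
      gcongr
    rw [norm_mul, norm_real, Real.norm_eq_abs]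
    refine (mul_le_mul h3 h4 (norm_nonneg _) ((abs_nonneg _).trans h3)).trans_eq ?_
    rw [mul_assoc, ← Real.exp_add]
    congr 2
    ring
  refine ⟨fun s => ?_, fun s => ?_⟩
  · obtain ⟨b, h3, h4⟩ := h2 (‖s‖ + 1)
    exact h3.mono' (h1 s) (h4.mono fun p hp => hp s (by simp))
  · obtain ⟨b, h3, h4⟩ := h2 (‖s‖ + 1)
    exact (Shared.HoloIntegral.differentiableOn_integral Metric.isOpen_ball (fun w _ => h1 w)
      (Filter.Eventually.of_forall fun p => by fun_prop) h4 h3).differentiableAt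
      (Metric.isOpen_ball.mem_nhds (by simp))

theorem pole (hl : 0 < l) (c : ℝ) {s : ℂ} (hs : 1 < s.re) :
    Integrable (fun p : ℝ × ℝ => (((Iic 0).indicator (fun τ => c * Real.exp (-2 * τ)) p.2 : ℝ) : ℂ) *
      cexp (2 * s * p.2)) (mu l) ∧
    ∫ p : ℝ × ℝ, (((Iic 0).indicator (fun τ => c * Real.exp (-2 * τ)) p.2 : ℝ) : ℂ) *
      cexp (2 * s * p.2) ∂mu l = l * c / (2 * (s - 1)) := by
  have ha : 0 < (2 * (s - 1)).re := by
    simp only [mul_re, re_ofNat, sub_re, one_re, im_ofNat, zero_mul, sub_zero]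
    linarith
  have e : ∀ τ : ℝ, (((Iic 0).indicator (fun τ => c * Real.exp (-2 * τ)) τ : ℝ) : ℂ) *
      cexp (2 * s * τ) = (Iic 0).indicator (fun τ : ℝ => c * cexp (2 * (s - 1) * τ)) τ := by
    intro τ
    by_cases h : τ ∈ Iic (0 : ℝ)
    · rw [indicator_of_mem h, indicator_of_mem h, ofReal_mul, ofReal_exp, mul_assoc,
        ← Complex.exp_add]
      congr 2
      push_cast
      ring
    · simp [indicator_of_notMem h]
  simp only [e]
  refine ⟨((integrable_indicator_iff measurableSet_Iic).2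
    ((integrableOn_exp_mul_complex_Iic ha 0).const_mul _)).comp_snd _, ?_⟩
  rw [mu, integral_fun_snd, integral_indicator measurableSet_Iic, integral_const_mul,
    integral_exp_mul_complex_Iic ha, mul_div_assoc]
  simp [hl.le, div_eq_mul_inv]

end Pool.Agent.RM.ThetaContAux
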