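import Pool.Agent.Lib.MP_ca56d1_nt.RM.Cone2

/-! Systems of representatives modulo the powers of a unit. -/

namespace Pool.Agent.RM

open Complex Set

variable {K : Type*} [Field K] [CharZero K] {σ σ' : K →+* ℝ} {ε : K}

omit [CharZero K] in
theorem IsFD.equiv {ι ι' : Type*} {U : Set K} {a : ι → K} {b : ι' → K} (hε : ε ≠ 0)
    (ha : IsFD ε U a) (hb : IsFD ε U b) : ∃ e : ι ≃ ι', ∀ i, ∃ k : ℤ, a i = ε ^ k * b (e i) := by
  choose f hf _ using fun i => hb.2 _ (ha.1 i)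
  choose g hg _ using fun j => ha.2 _ (hb.1 j)
  refine ⟨⟨fun i => (f i).1, fun j => (g j).1, fun i => ?_, fun j => ?_⟩, fun i => ⟨_, hf i⟩⟩
  · have h := (ha.2 _ (ha.1 i)).unique (y₁ := ((g (f i).1).1, (f i).2 + (g (f i).1).2))
      (y₂ := (i, 0)) (by simp only; rw [zpow_add₀ hε, mul_assoc, ← hg, ← hf]) (by simp)
    exact congrArg Prod.fst h
  · have h := (hb.2 _ (hb.1 j)).unique (y₁ := ((f (g j).1).1, (g j).2 + (f (g j).1).2))
      (y₂ := (j, 0)) (by simp only; rw [zpow_add₀ hε, mul_assoc, ← hf, ← hg]) (by simp)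
    exact congrArg Prod.fst h

omit [CharZero K] in
theorem IsFD.tsum_eq {ι ι' : Type*} {U : Set K} {a : ι → K} {b : ι' → K} (hε : ε ≠ 0)
    (ha : IsFD ε U a) (hb : IsFD ε U b) (φ : K → ℂ) (hφ : ∀ (k : ℤ) y, φ (ε ^ k * y) = φ y) :
    ∑' i, φ (a i) = ∑' j, φ (b j) := by
  obtain ⟨e, he⟩ := ha.equiv hε hb
  rw [← e.tsum_eq]
  refine tsum_congr fun i => ?_
  obtain ⟨k, hk⟩ := he i
  rw [hk, hφ]

omit [CharZero K] in
theorem IsFD.comp {ι ι' : Type*} {U : Set K} {a : ι → K} (ha : IsFD ε U a) (e : ι' ≃ ι) :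
    IsFD ε U (fun j => a (e j)) := by
  refine ⟨fun j => ha.1 _, fun y hy => ?_⟩
  exact (e.prodCongr (Equiv.refl ℤ)).bijective.existsUnique_iff.1 (ha.2 y hy)

omit [CharZero K] in
theorem IsFD.neg {ι : Type*} {U : Set K} {a : ι → K} (ha : IsFD ε U a) :
    IsFD ε {y | -y ∈ U} (fun j => -a j) := by
  refine ⟨fun j => by simpa using ha.1 j, fun y hy => ?_⟩
  refine (existsUnique_congr fun c => ?_).1 (ha.2 _ hy)
  rw [mul_neg, neg_eq_iff_eq_neg]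

omit [CharZero K] in
theorem IsFD.sum {ι ι' : Type*} {U V : Set K} {a : ι → K} {b : ι' → K} (hε : ε ≠ 0)
    (ha : IsFD ε U a) (hb : IsFD ε V b) (hU : Stab ε U) (hV : Stab ε V) (hd : Disjoint U V) :
    IsFD ε (U ∪ V) (Sum.elim a b) := by
  refine ⟨?_, ?_⟩
  · rintro (i | j)
    exacts [Or.inl (ha.1 i), Or.inr (hb.1 j)]
  · rintro y (hy | hy)
    · obtain ⟨c, h1, h2⟩ := ha.2 y hy
      refine ⟨(Sum.inl c.1, c.2), h1, ?_⟩
      rintro ⟨i | j, k⟩ h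
      · rw [← h2 (i, k) h]
      · exact absurd (h ▸ (hV.zpow hε k _).2 (hb.1 j)) (Set.disjoint_left.1 hd hy)
    · obtain ⟨c, h1, h2⟩ := hb.2 y hy
      refine ⟨(Sum.inr c.1, c.2), h1, ?_⟩
      rintro ⟨i | j, k⟩ h
      · exact absurd (h ▸ (hU.zpow hε k _).2 (ha.1 i)) (Set.disjoint_right.1 hd hy)
      · rw [← h2 (j, k) h]

omit [CharZero K] in
theorem isFD_set (hε : ε ≠ 0) {U R : Set K} (hR : R ⊆ U)
    (h : ∀ y ∈ U, ∃! k : ℤ, ε ^ k * y ∈ R) : IsFD ε U (Subtype.val : R → K) := by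
  refine ⟨fun r => hR r.2, fun y hy => ?_⟩
  obtain ⟨k, h1, h2⟩ := h y hy
  have hz : ∀ m : ℤ, ε ^ m ≠ 0 := fun m => zpow_ne_zero m hε
  refine ⟨(⟨_, h1⟩, -k), by simp only; rw [← mul_assoc, ← zpow_add₀ hε]; simp, ?_⟩
  rintro ⟨r, m⟩ e
  have e' : ε ^ (-m) * y = r := by
    simp only at e
    rw [e, ← mul_assoc, ← zpow_add₀ hε]; simp
  have := h2 (-m) (by simp only; rw [e']; exact r.2)
  subst this
  exact Prod.ext (Subtype.ext e'.symm) (by simp)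

/-- The relative slope. -/
noncomputable def rho (σ σ' : K →+* ℝ) (v y : K) : ℝ := σ' y * σ v / (σ y * σ' v)

omit [CharZero K] in
theorem rho_zpow (hε : Eps σ σ' ε) (v y : K) (k : ℤ) :
    rho σ σ' v (ε ^ k * y) = (σ ε ^ 2)⁻¹ ^ k * rho σ σ' v y := by
  have := zpow_ne_zero k hε.pos.ne'
  simp only [rho, map_mul, map_zpow₀, hε.snd, inv_zpow, sq, mul_zpow]
  rw [div_eq_mul_inv, div_eq_mul_inv]
  simp only [mul_inv]; ring

theorem cone_iff (hK : RQ σ σ') (hε : Eps σ σ' ε) {v : K} (hv : 0 < σ v) (y : K) :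
    (y ∈ cone v (ε * v) ↔ 0 < σ y ∧ (σ ε ^ 2)⁻¹ < rho σ σ' v y ∧ rho σ σ' v y ≤ 1) ∧
    (y ∈ cone (ε * v) v ↔ 0 < σ y ∧ (σ ε ^ 2)⁻¹ ≤ rho σ σ' v y ∧ rho σ σ' v y < 1) := by
  have hv0 : v ≠ 0 := fun h => by simp [h] at hv
  have hd := dt_eps_ne hε hv0
  obtain ⟨a, b, rfl⟩ := hK.coord hd y
  have hE := hε.one_lt
  have hE0 := hε.pos
  set E := σ ε with hEd
  have e1 : σ (a * v + b * (ε * v)) = σ v * (a + b * E) := by
    simp only [map_add, map_mul, map_ratCast]; ring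
  have e2 : 0 < (a : ℝ) + b * E → rho σ σ' v (a * v + b * (ε * v)) = (a * E + b) / (E * (a + b * E)) :=
    fun h => by
      have := emb_ne σ' hv0
      rw [rho, e1]
      simp only [map_add, map_mul, map_ratCast, hε.snd, ← hEd]
      field_simp
  have k1 : (a : K) * v + b * (ε * v) ∈ cone v (ε * v) ↔ (0 : ℝ) < a ∧ (0 : ℝ) ≤ b :=
    ⟨fun ⟨a', b', h1, h2, e⟩ => by
      obtain ⟨rfl, rfl⟩ := coord_inj hd e
      exact ⟨by exact_mod_cast h1, by exact_mod_cast h2⟩,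
    fun ⟨h1, h2⟩ => ⟨a, b, by exact_mod_cast h1, by exact_mod_cast h2, rfl⟩⟩
  have k2 : (a : K) * v + b * (ε * v) ∈ cone (ε * v) v ↔ (0 : ℝ) ≤ a ∧ (0 : ℝ) < b :=
    ⟨fun ⟨b', a', h1, h2, e⟩ => by
      obtain ⟨rfl, rfl⟩ := coord_inj hd (e.trans (add_comm _ _))
      exact ⟨by exact_mod_cast h2, by exact_mod_cast h1⟩,
    fun ⟨h1, h2⟩ => ⟨b, a, by exact_mod_cast h2, by exact_mod_cast h1, add_comm _ _⟩⟩
  have hE2 : 0 < E ^ 2 - 1 := by nlinarith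
  have q1 : 0 < (a : ℝ) + b * E → (((E ^ 2)⁻¹ < (a * E + b) / (E * (a + b * E)) ↔ (0 : ℝ) < a) ∧
      ((E ^ 2)⁻¹ ≤ (a * E + b) / (E * (a + b * E)) ↔ (0 : ℝ) ≤ a) ∧
      ((a * E + b) / (E * (a + b * E)) ≤ 1 ↔ (0 : ℝ) ≤ b) ∧
      ((a * E + b) / (E * (a + b * E)) < 1 ↔ (0 : ℝ) < b)) := fun h => by
    have hD : 0 < E * (a + b * E) := mul_pos hE0 h
    have s1 : (a * E + b) * E ^ 2 - 1 * (E * (a + b * E)) = E * (E ^ 2 - 1) * a := by ring
    have s2 : E * (a + b * E) - (a * E + b) = (E ^ 2 - 1) * b := by ring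
    have hF : 0 < E * (E ^ 2 - 1) := mul_pos hE0 hE2
    rw [inv_eq_one_div, div_lt_div_iff₀ (by positivity) hD, div_le_div_iff₀ (by positivity) hD,
      div_le_one hD, div_lt_one hD, ← sub_pos, s1, ← sub_nonneg (a := (a * E + b) * E ^ 2), s1,
      ← sub_nonneg (a := E * (a + b * E)), s2, ← sub_pos (a := E * (a + b * E)), s2]
    exact ⟨mul_pos_iff_of_pos_left hF, mul_nonneg_iff_of_pos_left hF,
      mul_nonneg_iff_of_pos_left hE2, mul_pos_iff_of_pos_left hE2⟩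
  rw [k1, k2, e1, mul_pos_iff_of_pos_left hv]
  refine ⟨⟨fun ⟨h1, h2⟩ => ?_, fun ⟨h, h1, h2⟩ => ?_⟩, ⟨fun ⟨h1, h2⟩ => ?_, fun ⟨h, h1, h2⟩ => ?_⟩⟩
  · have h : 0 < (a : ℝ) + b * E := by positivity
    rw [e2 h]
    exact ⟨h, (q1 h).1.2 h1, (q1 h).2.2.1.2 h2⟩
  · rw [e2 h] at h1 h2
    exact ⟨(q1 h).1.1 h1, (q1 h).2.2.1.1 h2⟩
  · have h : 0 < (a : ℝ) + b * E := by positivity
    rw [e2 h]
    exact ⟨h, (q1 h).2.1.2 h1, (q1 h).2.2.2.2 h2⟩
  · rw [e2 h] at h1 h2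
    exact ⟨(q1 h).2.1.1 h1, (q1 h).2.2.2.1 h2⟩

theorem exu_Ioc {c r : ℝ} (hc : 1 < c) (hr : 0 < r) :
    (∃! k : ℤ, c⁻¹ < c⁻¹ ^ k * r ∧ c⁻¹ ^ k * r ≤ 1) ∧
      ∃! k : ℤ, c⁻¹ ≤ c⁻¹ ^ k * r ∧ c⁻¹ ^ k * r < 1 := by
  have h0 : 0 < c := by linarith
  have hl : 0 < Real.log c := Real.log_pos hc
  have hp : ∀ k : ℤ, 0 < c⁻¹ ^ k * r := fun k => by positivity
  have e : ∀ k : ℤ, Real.log (c⁻¹ ^ k * r) = Real.log r - k • Real.log c := fun k => by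
    rw [Real.log_mul (by positivity) hr.ne', Real.log_zpow, Real.log_inv, zsmul_eq_mul]; ring
  constructor
  · refine (existsUnique_congr fun k => ?_).1
      (existsUnique_sub_zsmul_mem_Ioc hl (Real.log r) (-Real.log c))
    rw [← Real.log_lt_log_iff (by positivity) (hp k), ← Real.log_le_log_iff (hp k) one_pos, e,
      Real.log_inv, Real.log_one, neg_add_cancel, mem_Ioc]
  · refine (existsUnique_congr fun k => ?_).1
      (existsUnique_sub_zsmul_mem_Ico hl (Real.log r) (-Real.log c))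
    rw [← Real.log_le_log_iff (by positivity) (hp k), ← Real.log_lt_log_iff (hp k) one_pos, e,
      Real.log_inv, Real.log_one, neg_add_cancel, mem_Ico]

/-- The points of `Λ` in the quadrant of `v`, for `σ v > 0`. -/
def quad (σ σ' : K →+* ℝ) (Λ : Set K) (v : K) : Set K := {y | y ∈ Λ ∧ 0 < σ y ∧ 0 < σ' y * σ' v}

omit [CharZero K] in
theorem quad_stab (hε : Eps σ σ' ε) {Λ : Set K} (hs : Stab ε Λ) (v : K) :
    Stab ε (quad σ σ' Λ v) := fun y => by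
  simp only [quad, mem_ofPred_eq, hs y, map_mul, mul_assoc, mul_pos_iff_of_pos_left hε.pos,
    mul_pos_iff_of_pos_left hε.pos']

theorem cone_fd (hK : RQ σ σ') (hε : Eps σ σ' ε) {Λ : Set K} (hs : Stab ε Λ) {v : K}
    (hv : 0 < σ v) : IsFD ε (quad σ σ' Λ v) (Subtype.val : ↥(Λ ∩ cone v (ε * v)) → K) ∧
      IsFD ε (quad σ σ' Λ v) (Subtype.val : ↥(Λ ∩ cone (ε * v) v) → K) := by
  have hv0 : v ≠ 0 := fun h => by simp [h] at hv
  have hv' := mul_self_pos.2 (emb_ne σ' hv0)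
  have hc : 1 < σ ε ^ 2 := one_lt_pow₀ hε.one_lt two_ne_zero
  have hr : ∀ y, 0 < σ y → (0 < rho σ σ' v y ↔ 0 < σ' y * σ' v) := fun y hy => by
    have : rho σ σ' v y = σ v / (σ y * (σ' v * σ' v)) * (σ' y * σ' v) := by
      have := emb_ne σ' hv0
      rw [rho]; field_simp
    rw [this, mul_pos_iff_of_pos_left (by positivity)]
  have hp : ∀ (k : ℤ) y, 0 < σ y → 0 < σ (ε ^ k * y) := fun k y hy => by
    rw [map_mul, map_zpow₀]; exact mul_pos (zpow_pos hε.pos k) hy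
  constructor
  · refine isFD_set hε.ne (fun y hy => ?_) fun y hy => ?_
    · obtain ⟨h1, h2, -⟩ := (cone_iff hK hε hv y).1.1 hy.2
      exact ⟨hy.1, h1, (hr y h1).1 (lt_trans (by positivity) h2)⟩
    · refine (existsUnique_congr fun k => ?_).1 (exu_Ioc hc ((hr y hy.2.1).2 hy.2.2)).1
      simp only [mem_inter_iff, (cone_iff hK hε hv _).1, hs.zpow hε.ne k y, hy.1, hp k y hy.2.1,
        true_and, rho_zpow hε]
  · refine isFD_set hε.ne (fun y hy => ?_) fun y hy => ?_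
    · obtain ⟨h1, h2, -⟩ := (cone_iff hK hε hv y).2.1 hy.2
      exact ⟨hy.1, h1, (hr y h1).1 (lt_of_lt_of_le (by positivity) h2)⟩
    · refine (existsUnique_congr fun k => ?_).1 (exu_Ioc hc ((hr y hy.2.1).2 hy.2.2)).2
      simp only [mem_inter_iff, (cone_iff hK hε hv _).2, hs.zpow hε.ne k y, hy.1, hp k y hy.2.1,
        true_and, rho_zpow hε]

theorem cone_family (hK : RQ σ σ') (hε : Eps σ σ' ε) {Λ : Set K} (hΛ : Lat Λ) (hs : Stab ε Λ)
    {v : K} (hv : v ∈ per Λ) (hv0 : 0 < σ v) : ∃ (n : ℕ) (z : Fin n → K),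
      (∀ i, z i ∈ par v (ε * v)) ∧
      (∀ F : K → ℂ, ∑ᶠ y ∈ Λ ∩ par v (ε * v), F y = ∑ i, F (z i)) ∧
      IsFD ε (quad σ σ' Λ v)
        (fun c : Fin n × (ℕ × ℕ) => z c.1 + c.2.1 * v + c.2.2 * (ε * v)) ∧
      IsFD ε (quad σ σ' {y | -y ∈ Λ} v)
        (fun c : Fin n × (ℕ × ℕ) => (v + ε * v - z c.1) + c.2.1 * v + c.2.2 * (ε * v)) := by
  have hv1 : v ≠ 0 := fun h => by simp [h] at hv0
  have hd := dt_eps_ne hε hv1
  have hev := hs.mul_per hε.ne hv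
  have hf := hΛ.par_finite hK hd
  have := hf.fintype
  set e0 := (Fintype.equivFin ↥(Λ ∩ par v (ε * v))).symm
  refine ⟨_, fun i => e0 i, fun i => (e0 i).2.2, fun F => ?_, ?_, ?_⟩
  · rw [← finsum_set_coe_eq_finsum_mem, finsum_eq_sum_of_fintype, ← e0.sum_comp]
  · obtain ⟨e, he⟩ := cone_equiv hv hev hd
    have := (cone_fd hK hε hs hv0).1.comp ((e0.prodCongr (Equiv.refl _)).trans e)
    simpa [he] using this
  · have hn : ∀ w ∈ per Λ, w ∈ per {y | -y ∈ Λ} := fun w hw =>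
      neg_set Λ ▸ (per_smul (by simp)).2 (by simpa using (per Λ).neg_mem hw)
    obtain ⟨e, he⟩ := cone_equiv (hn _ hev) (hn _ hv) (σ := σ) (σ' := σ')
      (by rw [dt_swap]; exact neg_ne_zero.2 hd)
    have := (cone_fd hK hε (neg_set Λ ▸ hs.smul (-1) : Stab ε {y | -y ∈ Λ}) hv0).2.comp
      (((e0.trans ((refl_bijOn hv hev).equiv _)).prodCongr (Equiv.prodComm ℕ ℕ)).trans e)
    have e2 : (fun c : Fin (Fintype.card ↥(Λ ∩ par v (ε * v))) × (ℕ × ℕ) =>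
        (v + ε * v - e0 c.1) + c.2.1 * v + c.2.2 * (ε * v)) = fun c => (((((e0.trans
        ((refl_bijOn hv hev).equiv _)).prodCongr (Equiv.prodComm ℕ ℕ)).trans e) c : _) : K) := by
      funext c
      rw [Equiv.trans_apply, he, add_right_comm]
      rfl
    rw [e2]
    exact this

end Pool.Agent.RM
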