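import Pool.Agent.Lib.MP_ca56d1_nt.RM.Basic
import Pool.Agent.Lib.MP_ca56d1_nt.RM.DL

/-! Additivity in the cone. -/

namespace Pool.Agent.RM

open Complex MeasureTheory Set

variable {K : Type*} [Field K] [CharZero K] {σ σ' : K →+* ℝ}

/-- The generating function of the points of `Λ` in a cone, divided by `t`. -/
noncomputable def gen (σ : K →+* ℝ) (Λ : Set K) (p q : K) (t : ℂ) : ℂ :=
  ∑ᶠ z ∈ Λ ∩ par p q, kern (σ p) (σ q) (σ z) t

/-- The signed generating function. -/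
noncomputable def GC (σ σ' : K →+* ℝ) (Λ : Set K) (p q : K) (t : ℂ) : ℂ :=
  if dt σ σ' p q < 0 then gen σ Λ p q t else if dt σ σ' q p < 0 then -gen σ Λ q p t else 0

/-- The signed version of `LF`. -/
noncomputable def LC (σ σ' : K →+* ℝ) (Λ : Set K) (p q : K) : ℂ :=
  if dt σ σ' p q < 0 then LF σ Λ p q else if dt σ σ' q p < 0 then -LF σ Λ q p else 0

/-- The indicator of the points below the ray through `p`. -/
noncomputable def ind (σ σ' : K →+* ℝ) (p y : K) : ℂ := if 0 < σ y ∧ dt σ σ' p y ≤ 0 then 1 else 0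

theorem hasSum_geo {p : ℝ} (hp : 0 < p) {t : ℂ} (ht : 0 < t.re) :
    HasSum (fun m : ℕ => cexp (-p * t) ^ m) (1 - cexp (-p * t))⁻¹ ∧
      Summable fun m : ℕ => ‖cexp (-p * t) ^ m‖ := by
  have h : ‖cexp (-p * t)‖ < 1 := by
    rw [Complex.norm_exp, Real.exp_lt_one_iff]
    simp only [neg_mul, neg_re, re_ofReal_mul]
    nlinarith [mul_pos hp ht]
  exact ⟨hasSum_geometric_of_norm_lt_one h, by
    simpa [norm_pow] using summable_geometric_of_lt_one (norm_nonneg _) h⟩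

theorem hasSum_prod3 {ι : Type*} [Fintype ι] (f : ι → ℂ) {g h : ℕ → ℂ} {a b : ℂ} (a1 : HasSum g a)
    (a2 : Summable fun m => ‖g m‖) (b1 : HasSum h b) (b2 : Summable fun m => ‖h m‖) :
    HasSum (fun c : ι × (ℕ × ℕ) => f c.1 * (g c.2.1 * h c.2.2)) ((∑ z, f z) * (a * b)) := by
  have c2 : Summable fun c : ℕ × ℕ => ‖g c.1 * h c.2‖ := Summable.mul_norm (f := g) (g := h) a2 b2
  have c1 : HasSum (fun c : ℕ × ℕ => g c.1 * h c.2) (a * b) :=
    HasSum.mul (f := g) (g := h) a1 b1 (Summable.of_norm c2)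
  have d2 : Summable fun z => ‖f z‖ := (hasSum_fintype _).summable
  have d3 := summable_mul_of_summable_norm (f := f) (g := fun c : ℕ × ℕ => g c.1 * h c.2) d2 c2
  exact HasSum.mul (f := f) (g := fun c : ℕ × ℕ => g c.1 * h c.2) (hasSum_fintype f) c1 d3

theorem hasSum_cone (hK : RQ σ σ') {Λ : Set K} (hΛ : Lat Λ) {p q : K} (hp : p ∈ per Λ)
    (hq : q ∈ per Λ) (h : dt σ σ' p q ≠ 0) (hp0 : 0 < σ p) (hq0 : 0 < σ q) {t : ℂ}
    (ht : 0 < t.re) :
    HasSum (fun y : ↥(Λ ∩ cone p q) => cexp (-σ y * t) / t) (gen σ Λ p q t) := by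
  obtain ⟨e, he⟩ := cone_equiv hp hq h
  have hf := hΛ.par_finite hK h
  have := hf.fintype
  obtain ⟨a1, a2⟩ := hasSum_geo hp0 ht
  obtain ⟨b1, b2⟩ := hasSum_geo hq0 ht
  have h3 := hasSum_prod3 (fun z : ↥(Λ ∩ par p q) => cexp (-σ z * t) / t) a1 a2 b1 b2
  have e1 : gen σ Λ p q t = (∑ z : ↥(Λ ∩ par p q), cexp (-σ z * t) / t) *
      ((1 - cexp (-σ p * t))⁻¹ * (1 - cexp (-σ q * t))⁻¹) := by
    rw [gen, ← finsum_set_coe_eq_finsum_mem, finsum_eq_sum_of_fintype, Finset.sum_mul]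
    refine Finset.sum_congr rfl fun z _ => ?_
    rw [kern, div_eq_mul_inv, div_eq_mul_inv, mul_inv, mul_inv]; ring
  rw [e1]
  refine e.hasSum_iff.1 (h3.congr_fun fun c => ?_)
  simp only [Function.comp, he, map_add, map_mul, map_natCast, ← Complex.exp_nat_mul]
  rw [div_mul_eq_mul_div, ← Complex.exp_add, ← Complex.exp_add]
  congr 2
  push_cast; ring

omit [CharZero K] in
theorem pluecker (p q y : K) :
    σ y * dt σ σ' p q + σ p * dt σ σ' q y = σ q * dt σ σ' p y := by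
  simp only [dt]; ring

open scoped Classical in
theorem ind_sub (hK : RQ σ σ') {p q : K} (h : dt σ σ' p q < 0) (hp0 : 0 < σ p) (hq0 : 0 < σ q)
    (y : K) : ind σ σ' p y - ind σ σ' q y = if y ∈ cone p q then 1 else 0 := by
  have hc : y ∈ cone p q ↔ 0 < dt σ σ' q y ∧ dt σ σ' p y ≤ 0 := by
    rw [mem_cone hK h.ne, dt_swap q y, div_pos_iff, div_nonneg_iff]
    constructor
    · rintro ⟨h1 | h1, h2 | h2⟩ <;> constructor <;> linarith [h1.1, h1.2, h2.1, h2.2]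
    · rintro ⟨h1, h2⟩
      exact ⟨Or.inr ⟨by linarith, h⟩, Or.inr ⟨h2, h.le⟩⟩
  have hP := pluecker (σ := σ) (σ' := σ') p q y
  simp only [ind, hc]
  by_cases h1 : 0 < σ y
  · by_cases h2 : dt σ σ' q y ≤ 0
    · have h3 : dt σ σ' p y ≤ 0 := by
        by_contra h4
        push Not at h4
        nlinarith [mul_pos hq0 h4, mul_neg_of_pos_of_neg h1 h, mul_nonneg hp0.le (neg_nonneg.2 h2)]
      simp [h1, h2, h3, not_lt.2 h2]
    · simp [h1, h2, not_le.1 h2]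
  · have h3 : ¬ (0 < dt σ σ' q y ∧ dt σ σ' p y ≤ 0) := by
      rintro ⟨h4, h5⟩
      push Not at h1
      nlinarith [mul_pos hp0 h4, mul_nonneg (neg_nonneg.2 h1) (neg_nonneg.2 h.le),
        mul_nonneg hq0.le (neg_nonneg.2 h5)]
    simp [h1, h3]

theorem hasSum_ind (hK : RQ σ σ') {Λ : Set K} (hΛ : Lat Λ) {p q : K} (hp : p ∈ per Λ)
    (hq : q ∈ per Λ) (h : dt σ σ' p q < 0) (hp0 : 0 < σ p) (hq0 : 0 < σ q) {t : ℂ}
    (ht : 0 < t.re) :
    HasSum (fun y : K => Λ.indicator (fun y => (ind σ σ' p y - ind σ σ' q y) *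
      (cexp (-σ y * t) / t)) y) (gen σ Λ p q t) := by
  classical
  have := (hasSum_subtype_iff_indicator (f := fun y : K => cexp (-σ y * t) / t)
    (s := Λ ∩ cone p q)).1 (hasSum_cone hK hΛ hp hq h.ne hp0 hq0 ht)
  refine this.congr_fun fun y => ?_
  simp only [indicator, ind_sub hK h hp0 hq0, mem_inter_iff]
  by_cases h1 : y ∈ Λ <;> by_cases h2 : y ∈ cone p q <;> simp [h1, h2]

theorem hasSum_GC (hK : RQ σ σ') {Λ : Set K} (hΛ : Lat Λ) {p q : K} (hp : p ∈ per Λ)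
    (hq : q ∈ per Λ) (hp0 : 0 < σ p) (hq0 : 0 < σ q) {t : ℂ} (ht : 0 < t.re) :
    HasSum (fun y : K => Λ.indicator (fun y => (ind σ σ' p y - ind σ σ' q y) *
      (cexp (-σ y * t) / t)) y) (GC σ σ' Λ p q t) := by
  unfold GC
  split_ifs with h1 h2
  · exact hasSum_ind hK hΛ hp hq h1 hp0 hq0 ht
  · refine (hasSum_ind hK hΛ hq hp h2 hq0 hp0 ht).neg.congr_fun fun y => ?_
    by_cases h : y ∈ Λ <;> simp [h]
    ring
  · have h0 : dt σ σ' p q = 0 := by rw [dt_swap] at h2; linarith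
    refine hasSum_zero.congr_fun fun y => ?_
    have hP := pluecker (σ := σ) (σ' := σ') p q y
    rw [h0, mul_zero, zero_add] at hP
    have : dt σ σ' p y ≤ 0 ↔ dt σ σ' q y ≤ 0 := by
      constructor <;> intro h <;> by_contra h4 <;> push Not at h4
      · nlinarith [mul_pos hp0 h4, mul_nonneg hq0.le (neg_nonneg.2 h)]
      · nlinarith [mul_pos hq0 h4, mul_nonneg hp0.le (neg_nonneg.2 h)]
    by_cases h : y ∈ Λ <;> simp [h, ind, this]

theorem gen_diff (hK : RQ σ σ') {Λ : Set K} (hΛ : Lat Λ) {p q : K} (h : dt σ σ' p q ≠ 0)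
    (hp0 : 0 < σ p) (hq0 : 0 < σ q) {t : ℂ} (h1 : t.im ≠ 0) (h2 : |t.im| * (σ p + σ q) ≤ Real.pi) :
    DifferentiableAt ℂ (gen σ Λ p q) t := by
  have hf := hΛ.par_finite hK h
  have : gen σ Λ p q = fun t => ∑ z ∈ hf.toFinset, kern (σ p) (σ q) (σ z) t :=
    funext fun t => finsum_mem_eq_finite_toFinset_sum _ hf
  rw [this]
  obtain ⟨g1, g2, g3⟩ := kern_ne hp0 hq0 h1 h2
  exact DifferentiableAt.fun_sum fun z _ => kern_diff _ g1 g2 g3

theorem GC_diff (hK : RQ σ σ') {Λ : Set K} (hΛ : Lat Λ) {p q : K}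
    (hp0 : 0 < σ p) (hq0 : 0 < σ q) {t : ℂ} (h1 : t.im ≠ 0) (h2 : |t.im| * (σ p + σ q) ≤ Real.pi) :
    DifferentiableAt ℂ (GC σ σ' Λ p q) t := by
  unfold GC
  split_ifs with g1 g2
  · exact gen_diff hK hΛ g1.ne hp0 hq0 h1 h2
  · exact (gen_diff hK hΛ g2.ne hq0 hp0 h1 (by rwa [add_comm])).neg
  · exact differentiableAt_const _

theorem LF_eq (hK : RQ σ σ') {Λ : Set K} (hΛ : Lat Λ) {p q : K} (h : dt σ σ' p q ≠ 0)
    (hp0 : 0 < σ p) (hq0 : 0 < σ q) {δ : ℝ} (h1 : 0 < δ) (h2 : δ * (σ p + σ q) ≤ 2) :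
    Integrable (fun r : ℝ => gen σ Λ p q (r - δ * I)) ∧
      LF σ Λ p q = ∫ r : ℝ, gen σ Λ p q (r - δ * I) := by
  have hf := hΛ.par_finite hK h
  have hb : ∀ z ∈ hf.toFinset, 0 < ((σ z : ℝ) : ℂ).re ∧ ((σ z : ℝ) : ℂ).re < σ p + σ q :=
    fun z hz => par_bounds hp0 hq0 (hf.mem_toFinset.1 hz).2
  have hi := fun z hz => kern_integrable' hp0 hq0 (hb z hz).1 (hb z hz).2 h1 h2
  simp only [gen, LF, finsum_mem_eq_finite_toFinset_sum _ hf]
  refine ⟨integrable_finsetSum _ hi, ?_⟩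
  rw [integral_finsetSum _ hi]
  exact Finset.sum_congr rfl fun z hz => dl_eq hp0 hq0 (hb z hz).1 (hb z hz).2 h1 h2

theorem LC_eq (hK : RQ σ σ') {Λ : Set K} (hΛ : Lat Λ) {p q : K}
    (hp0 : 0 < σ p) (hq0 : 0 < σ q) {δ : ℝ} (h1 : 0 < δ) (h2 : δ * (σ p + σ q) ≤ 2) :
    Integrable (fun r : ℝ => GC σ σ' Λ p q (r - δ * I)) ∧
      LC σ σ' Λ p q = ∫ r : ℝ, GC σ σ' Λ p q (r - δ * I) := by
  unfold GC LC
  split_ifs with g1 g2
  · exact LF_eq hK hΛ g1.ne hp0 hq0 h1 h2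
  · obtain ⟨a, b⟩ := LF_eq hK hΛ g2.ne hq0 hp0 h1 (by rwa [add_comm])
    exact ⟨a.neg, by rw [b, integral_neg]⟩
  · simp

/-- The cocycle relation. -/
theorem LC_add (hK : RQ σ σ') {Λ : Set K} (hΛ : Lat Λ) {p q r : K} (hp : p ∈ per Λ)
    (hq : q ∈ per Λ) (hr : r ∈ per Λ) (hp0 : 0 < σ p) (hq0 : 0 < σ q) (hr0 : 0 < σ r) :
    LC σ σ' Λ p q + LC σ σ' Λ q r = LC σ σ' Λ p r := by
  set δ := 1 / (σ p + σ q + σ r) with hδ
  have hδ0 : 0 < δ := by positivity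
  have hδ1 : δ * (σ p + σ q + σ r) = 1 := one_div_mul_cancel (by positivity)
  have k1 := mul_pos hδ0 hp0
  have k2 := mul_pos hδ0 hq0
  have k3 := mul_pos hδ0 hr0
  set U : Set ℂ := {t | -(2 * δ) < t.im} ∩ {t | t.im < 0} with hU
  have hUo : IsOpen U := (isOpen_lt continuous_const continuous_im).inter
    (isOpen_lt continuous_im continuous_const)
  have hUc : Convex ℝ U := (convex_halfSpace_im_gt _).inter (convex_halfSpace_im_lt _)
  have hd : ∀ {a b : K}, 0 < σ a → 0 < σ b → δ * (σ a + σ b) ≤ 1 →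
      AnalyticOnNhd ℂ (GC σ σ' Λ a b) U := fun {a b} ha hb hab =>
    DifferentiableOn.analyticOnNhd (fun t ht => (GC_diff hK hΛ ha hb ht.2.ne (by
      have h1 : -(2 * δ) < t.im := ht.1
      have h2 : t.im < 0 := ht.2
      rw [abs_of_neg h2]
      nlinarith [Real.pi_gt_three])).differentiableWithinAt) hUo
  have hm : (1 : ℂ) - δ * I ∈ U := ⟨by simp; linarith, by simpa using hδ0⟩
  have key := ((hd hp0 hq0 (by nlinarith)).add (hd hq0 hr0 (by nlinarith))).eqOn_of_preconnected_of_eventuallyEq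
    (hd hp0 hr0 (by nlinarith)) hUc.isPreconnected hm (by
      filter_upwards [(isOpen_lt continuous_const continuous_re).mem_nhds
        (show (0 : ℝ) < ((1 : ℂ) - δ * I).re by simp)] with t ht
      refine (((hasSum_GC hK hΛ hp hq hp0 hq0 ht).add (hasSum_GC hK hΛ hq hr hq0 hr0 ht)).congr_fun
        fun y => ?_).unique (hasSum_GC hK hΛ hp hr hp0 hr0 ht)
      by_cases h : y ∈ Λ <;> simp [h]
      ring)
  obtain ⟨a1, a2⟩ := LC_eq hK hΛ hp0 hq0 hδ0 (by nlinarith)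
  obtain ⟨b1, b2⟩ := LC_eq hK hΛ hq0 hr0 hδ0 (by nlinarith)
  obtain ⟨-, c2⟩ := LC_eq hK hΛ hp0 hr0 hδ0 (by nlinarith)
  rw [a2, b2, c2, ← integral_add a1 b1]
  refine integral_congr_ae (Filter.Eventually.of_forall fun x => key ⟨?_, ?_⟩)
  · simp; linarith
  · simpa using hδ0

end Pool.Agent.RM
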