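import Pool.Agent.Lib.MP_ca56d1_nt.RM.StubA

/-! Bounds for the odd generating function `gOdd` near `0` and near infinity. -/

namespace Pool.Agent.RM.ConeLimAux

open Complex Filter Topology Set

theorem abs_exp_sub_le (x : ℝ) :
    |Real.exp x - (1 + x + x ^ 2 / 2)| ≤ |x| ^ 3 * Real.exp |x| := by
  have h := Complex.norm_exp_sub_sum_le_norm_mul_exp (x : ℂ) 3
  have e : cexp x - ∑ m ∈ Finset.range 3, (x : ℂ) ^ m / (m.factorial : ℂ) =
      ((Real.exp x - (1 + x + x ^ 2 / 2) : ℝ) : ℂ) := by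
    simp only [Finset.sum_range_succ, Finset.sum_range_zero, Nat.factorial]
    push_cast
    ring
  rw [e, Complex.norm_real, Complex.norm_real, Real.norm_eq_abs, Real.norm_eq_abs] at h
  exact h

theorem abs_sinh_sub_le (x : ℝ) : |Real.sinh x - x| ≤ |x| ^ 3 * Real.exp |x| := by
  have h1 := abs_exp_sub_le x
  have h2 := abs_exp_sub_le (-x)
  rw [abs_neg] at h2
  have e : Real.sinh x - x = ((Real.exp x - (1 + x + x ^ 2 / 2)) -
      (Real.exp (-x) - (1 + -x + (-x) ^ 2 / 2))) / 2 := by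
    rw [Real.sinh_eq]; ring
  rw [e, abs_div, abs_two]
  have := abs_sub (Real.exp x - (1 + x + x ^ 2 / 2)) (Real.exp (-x) - (1 + -x + (-x) ^ 2 / 2))
  linarith

theorem abs_sinh_sub_le' {x M r : ℝ} (hM0 : 0 ≤ M) (hr1 : r ≤ 1) (hx : |x| ≤ M * r) :
    |Real.sinh x - x| ≤ |x| * (M ^ 2 * Real.exp M * r ^ 2) := by
  have hM : 0 ≤ M * r := (abs_nonneg x).trans hx
  refine (abs_sinh_sub_le x).trans ?_
  have h0 := abs_nonneg x
  have h1 : |x| ^ 2 ≤ (M * r) ^ 2 := pow_le_pow_left₀ h0 hx 2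
  have h2 : Real.exp |x| ≤ Real.exp M := by
    apply Real.exp_le_exp.mpr
    nlinarith
  calc |x| ^ 3 * Real.exp |x| = |x| * (|x| ^ 2 * Real.exp |x|) := by ring
    _ ≤ |x| * ((M * r) ^ 2 * Real.exp M) := by gcongr
    _ = _ := by ring

theorem gOdd_eq_sinh {P Q Z r : ℝ} (hP : 0 < P) (hQ : 0 < Q) (hr : 0 < r) :
    gOdd P Q Z r = Real.sinh (((P + Q) / 2 - Z) * r) /
      (2 * Real.sinh (P * r / 2) * Real.sinh (Q * r / 2)) := by
  have ha : 0 < Real.sinh (P * r / 2) := Real.sinh_pos_iff.mpr (by positivity)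
  have hb : 0 < Real.sinh (Q * r / 2) := Real.sinh_pos_iff.mpr (by positivity)
  have h1 : 1 - Real.exp (-P * r) = 2 * Real.sinh (P * r / 2) * Real.exp (-(P * r / 2)) := by
    rw [Real.sinh_eq, show -P * r = -(P * r / 2) + -(P * r / 2) by ring, Real.exp_add]
    have := Real.exp_add (P * r / 2) (-(P * r / 2))
    rw [add_neg_cancel, Real.exp_zero] at this
    linear_combination this
  have h2 : 1 - Real.exp (-Q * r) = 2 * Real.sinh (Q * r / 2) * Real.exp (-(Q * r / 2)) := by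
    rw [Real.sinh_eq, show -Q * r = -(Q * r / 2) + -(Q * r / 2) by ring, Real.exp_add]
    have := Real.exp_add (Q * r / 2) (-(Q * r / 2))
    rw [add_neg_cancel, Real.exp_zero] at this
    linear_combination this
  have h3 : Real.exp (-Z * r) - Real.exp (-(P + Q - Z) * r) =
      2 * Real.sinh (((P + Q) / 2 - Z) * r) * Real.exp (-(P * r / 2)) *
        Real.exp (-(Q * r / 2)) := by
    rw [Real.sinh_eq,
      show -Z * r = ((P + Q) / 2 - Z) * r + -(P * r / 2) + -(Q * r / 2) by ring,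
      show -(P + Q - Z) * r = -(((P + Q) / 2 - Z) * r) + -(P * r / 2) + -(Q * r / 2) by ring]
    simp only [Real.exp_add]
    ring
  unfold gOdd
  rw [h1, h2, h3]
  have := Real.exp_pos (-(P * r / 2))
  have := Real.exp_pos (-(Q * r / 2))
  field_simp

theorem frac_bound {a b w sa sb sw δ : ℝ} (ha : 0 < a) (hb : 0 < b) (hδ : 0 ≤ δ)
    (h1 : a ≤ sa) (h2 : b ≤ sb) (h3 : sa ≤ a * (1 + δ)) (h4 : sb ≤ b * (1 + δ))
    (h5 : |sw - w| ≤ |w| * δ) :
    |sw / (2 * sa * sb) - w / (2 * a * b)| ≤ |w| / (2 * a * b) * (3 * δ + δ ^ 2) := by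
  have hsa : 0 < sa := ha.trans_le h1
  have hsb : 0 < sb := hb.trans_le h2
  have hab : a * b ≤ sa * sb := mul_le_mul h1 h2 hb.le hsa.le
  have hab' : sa * sb ≤ a * b * (1 + δ) ^ 2 := by
    calc sa * sb ≤ (a * (1 + δ)) * (b * (1 + δ)) := mul_le_mul h3 h4 hsb.le (by positivity)
      _ = _ := by ring
  have e : sw / (2 * sa * sb) - w / (2 * a * b) =
      (sw - w) / (2 * sa * sb) - w / (2 * a * b) * ((sa * sb - a * b) / (sa * sb)) := by
    field_simp
    ring
  have k1 : |(sw - w) / (2 * sa * sb)| ≤ |w| / (2 * a * b) * δ := by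
    rw [abs_div, abs_of_pos (by positivity : 0 < 2 * sa * sb)]
    calc |sw - w| / (2 * sa * sb) ≤ |w| * δ / (2 * a * b) := by
          apply div_le_div₀ (by positivity) h5 (by positivity)
          linarith
      _ = _ := by ring
  have k2 : |w / (2 * a * b) * ((sa * sb - a * b) / (sa * sb))| ≤
      |w| / (2 * a * b) * (2 * δ + δ ^ 2) := by
    rw [abs_mul, abs_div, abs_of_pos (by positivity : 0 < 2 * a * b)]
    apply mul_le_mul_of_nonneg_left _ (by positivity)
    rw [abs_of_nonneg (div_nonneg (by linarith) (by positivity)), div_le_iff₀ (by positivity)]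
    have : a * b * (2 * δ + δ ^ 2) ≤ sa * sb * (2 * δ + δ ^ 2) :=
      mul_le_mul_of_nonneg_right hab (by positivity)
    nlinarith
  rw [e]
  refine (abs_sub _ _).trans ?_
  nlinarith

/-- The bound near `0`. -/
theorem gOdd_small {m M : ℝ} (hm : 0 < m) : ∃ C : ℝ, 0 ≤ C ∧ ∀ P Q Z r : ℝ, m ≤ P → m ≤ Q →
    P ≤ M → Q ≤ M → 0 ≤ Z → Z ≤ P + Q → 0 < r → r ≤ 1 →
    |gOdd P Q Z r - (P + Q - 2 * Z) / (P * Q) / r| ≤ C * r := by
  set K := M ^ 2 * Real.exp M with hK
  have hK0 : 0 ≤ K := by positivity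
  refine ⟨2 * |M| / m ^ 2 * (3 * K + K ^ 2), by positivity, ?_⟩
  intro P Q Z r hP hQ hPM hQM hZ hZ' hr hr1
  have hP0 : 0 < P := hm.trans_le hP
  have hQ0 : 0 < Q := hm.trans_le hQ
  have hM : 0 < M := hP0.trans_le hPM
  rw [abs_of_pos hM]
  have ha : 0 < P * r / 2 := by positivity
  have hb : 0 < Q * r / 2 := by positivity
  have hw : |((P + Q) / 2 - Z) * r| ≤ M * r := by
    rw [abs_mul, abs_of_pos hr]
    apply mul_le_mul_of_nonneg_right _ hr.le
    rw [abs_le]
    constructor <;> linarith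
  have hδ : 0 ≤ K * r ^ 2 := by positivity
  have b1 := abs_sinh_sub_le' (x := P * r / 2) (M := M) hM.le hr1
    (by rw [abs_of_pos ha]; nlinarith)
  have b2 := abs_sinh_sub_le' (x := Q * r / 2) (M := M) hM.le hr1
    (by rw [abs_of_pos hb]; nlinarith)
  have b3 := abs_sinh_sub_le' (M := M) hM.le hr1 hw
  rw [abs_of_pos ha] at b1
  rw [abs_of_pos hb] at b2
  have key := frac_bound ha hb hδ (Real.self_le_sinh_iff.mpr ha.le)
    (Real.self_le_sinh_iff.mpr hb.le) (by have := (abs_le.mp b1).2; linarith)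
    (by have := (abs_le.mp b2).2; linarith) b3
  have e : (P + Q - 2 * Z) / (P * Q) / r =
      ((P + Q) / 2 - Z) * r / (2 * (P * r / 2) * (Q * r / 2)) := by
    field_simp
  rw [gOdd_eq_sinh hP0 hQ0 hr, e]
  refine key.trans ?_
  have k1 : |((P + Q) / 2 - Z) * r| / (2 * (P * r / 2) * (Q * r / 2)) ≤ 2 * M / m ^ 2 / r := by
    rw [div_le_iff₀ (by positivity)]
    refine hw.trans ?_
    have e2 : 2 * M / m ^ 2 / r * (2 * (P * r / 2) * (Q * r / 2)) =
        M * r * (P * Q / m ^ 2) := by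
      field_simp
    rw [e2]
    have : 1 ≤ P * Q / m ^ 2 := by
      rw [le_div_iff₀ (by positivity)]
      nlinarith
    nlinarith [mul_pos hM hr]
  have k2 : 3 * (K * r ^ 2) + (K * r ^ 2) ^ 2 ≤ (3 * K + K ^ 2) * r ^ 2 := by
    have : r ^ 2 ≤ 1 := by nlinarith
    have h3 : (K * r ^ 2) ^ 2 = K ^ 2 * r ^ 2 * r ^ 2 := by ring
    have h4 : K ^ 2 * r ^ 2 * r ^ 2 ≤ K ^ 2 * r ^ 2 * 1 :=
      mul_le_mul_of_nonneg_left this (by positivity)
    nlinarith
  calc _ ≤ 2 * M / m ^ 2 / r * ((3 * K + K ^ 2) * r ^ 2) :=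
        mul_le_mul k1 k2 (by positivity) (by positivity)
    _ = _ := by field_simp

/-- The bound near infinity. -/
theorem gOdd_large {m P Q Z r : ℝ} (hm : 0 < m) (hP : m ≤ P) (hQ : m ≤ Q) (hZ : m ≤ Z)
    (hZ' : m ≤ P + Q - Z) (hr : 1 ≤ r) :
    |gOdd P Q Z r| ≤ Real.exp (-(m * r)) / (1 - Real.exp (-m)) ^ 2 := by
  have h0 : 0 < 1 - Real.exp (-m) := by
    have := Real.exp_lt_one_iff.mpr (show -m < 0 by linarith)
    linarith
  have h1 : 1 - Real.exp (-m) ≤ 1 - Real.exp (-P * r) := by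
    have : Real.exp (-P * r) ≤ Real.exp (-m) := Real.exp_le_exp.mpr (by nlinarith)
    linarith
  have h2 : 1 - Real.exp (-m) ≤ 1 - Real.exp (-Q * r) := by
    have : Real.exp (-Q * r) ≤ Real.exp (-m) := Real.exp_le_exp.mpr (by nlinarith)
    linarith
  have h3 : Real.exp (-Z * r) ≤ Real.exp (-(m * r)) := Real.exp_le_exp.mpr (by nlinarith)
  have h4 : Real.exp (-(P + Q - Z) * r) ≤ Real.exp (-(m * r)) :=
    Real.exp_le_exp.mpr (by nlinarith)
  have h5 := Real.exp_pos (-Z * r)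
  have h6 := Real.exp_pos (-(P + Q - Z) * r)
  unfold gOdd
  rw [abs_div, abs_of_pos (mul_pos (h0.trans_le h1) (h0.trans_le h2))]
  apply div_le_div₀ (Real.exp_pos _).le _ (by positivity)
  · rw [sq]
    exact mul_le_mul h1 h2 h0.le (h0.trans_le h1).le
  · rw [abs_le]
    constructor <;> linarith

theorem exp_mul_exp_le {m : ℝ} (hm : 0 < m) (n : ℕ) (x : ℝ) :
    Real.exp (n * x) * Real.exp (-(m * Real.exp x)) ≤ n.factorial / m ^ n := by
  have h := Real.pow_div_factorial_le_exp (m * Real.exp x) (by positivity) n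
  have hf : (0 : ℝ) < n.factorial := by exact_mod_cast n.factorial_pos
  rw [div_le_iff₀ hf, mul_pow, ← Real.exp_nat_mul] at h
  rw [Real.exp_neg, le_div_iff₀ (by positivity)]
  have := Real.exp_pos (m * Real.exp x)
  field_simp
  linarith

/-- The regularised kernel in logarithmic coordinates. -/
noncomputable def kap (P Q Z x : ℝ) : ℝ :=
  gOdd P Q Z (Real.exp x) - (Iic (0 : ℝ)).indicator
    (fun x => (P + Q - 2 * Z) / (P * Q) * Real.exp (-x)) x

theorem kap_bound {m M : ℝ} (hm : 0 < m) (R : ℝ) : ∃ C : ℝ, ∀ P Q Z : ℝ, m ≤ P → m ≤ Q →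
    P ≤ M → Q ≤ M → m ≤ Z → m ≤ P + Q - Z → ∀ σ ∈ Icc 0 R, ∀ x : ℝ,
    Real.exp (2 * σ * x) * |kap P Q Z x| ≤ C * Real.exp (-|x|) := by
  obtain ⟨C, hC0, hC⟩ := gOdd_small (M := M) hm
  obtain ⟨n, hn⟩ := exists_nat_ge (2 * R + 1)
  have h0 : 0 < 1 - Real.exp (-m) := by
    have := Real.exp_lt_one_iff.mpr (show -m < 0 by linarith)
    linarith
  refine ⟨C + n.factorial / m ^ n / (1 - Real.exp (-m)) ^ 2, ?_⟩
  intro P Q Z hP hQ hPM hQM hZ hZ' σ hσ x
  have hD : 0 ≤ (n.factorial : ℝ) / m ^ n / (1 - Real.exp (-m)) ^ 2 := by positivity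
  have hE := Real.exp_pos (-|x|)
  rcases le_or_gt x 0 with hx | hx
  · have h1 := hC P Q Z (Real.exp x) hP hQ hPM hQM (by linarith) (by linarith) (Real.exp_pos x)
      (Real.exp_le_one_iff.mpr hx)
    have e : kap P Q Z x = gOdd P Q Z (Real.exp x) - (P + Q - 2 * Z) / (P * Q) / Real.exp x := by
      unfold kap
      rw [indicator_of_mem (show x ∈ Iic 0 from hx), Real.exp_neg, div_eq_mul_inv _ (Real.exp x)]
    rw [e, abs_of_nonpos hx, neg_neg]
    have h2 : Real.exp (2 * σ * x) ≤ 1 := Real.exp_le_one_iff.mpr (by nlinarith [hσ.1])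
    have h3 := Real.exp_pos x
    calc _ ≤ 1 * (C * Real.exp x) := mul_le_mul h2 h1 (abs_nonneg _) zero_le_one
      _ ≤ _ := by nlinarith
  · have h1 := gOdd_large hm hP hQ hZ hZ' (Real.one_le_exp hx.le)
    have e : kap P Q Z x = gOdd P Q Z (Real.exp x) := by
      unfold kap
      rw [indicator_of_notMem (show x ∉ Iic 0 from not_le.mpr hx), sub_zero]
    rw [e, abs_of_pos hx]
    have h2 := exp_mul_exp_le hm n x
    have h3 : Real.exp (2 * σ * x) ≤ Real.exp (n * x) * Real.exp (-x) := by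
      rw [← Real.exp_add]
      exact Real.exp_le_exp.mpr (by nlinarith [hσ.2])
    have h4 := Real.exp_pos (-x)
    calc _ ≤ (Real.exp (n * x) * Real.exp (-x)) *
          (Real.exp (-(m * Real.exp x)) / (1 - Real.exp (-m)) ^ 2) :=
          mul_le_mul h3 h1 (abs_nonneg _) (by positivity)
      _ = (Real.exp (n * x) * Real.exp (-(m * Real.exp x))) / (1 - Real.exp (-m)) ^ 2 *
          Real.exp (-x) := by ring
      _ ≤ (n.factorial / m ^ n) / (1 - Real.exp (-m)) ^ 2 * Real.exp (-x) := by gcongr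
      _ ≤ _ := by nlinarith

theorem integrable_exp_neg_abs :
    MeasureTheory.Integrable (fun x : ℝ => Real.exp (-|x|)) := by
  rw [← MeasureTheory.integrableOn_univ, ← Iic_union_Ioi (a := (0 : ℝ))]
  apply MeasureTheory.IntegrableOn.union
  · refine (integrableOn_exp_Iic 0).congr_fun (fun x hx => ?_) measurableSet_Iic
    show Real.exp x = Real.exp (-|x|)
    rw [abs_of_nonpos hx, neg_neg]
  · refine (integrableOn_exp_neg_Ioi 0).congr_fun (fun x hx => ?_) measurableSet_Ioi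
    simp only
    rw [abs_of_pos hx]

end Pool.Agent.RM.ConeLimAux
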