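import Pool.Agent.Lib.MP_ca56d1_nt.RM.ConeLim1
import Pool.Agent.Shared.HoloIntegral

/-! The continuation of one sector integral and its behaviour at `s = 0`. -/

namespace Pool.Agent.RM.ConeLimAux

open Complex Filter Topology Set MeasureTheory

/-- The radial integral. -/
noncomputable def NN (κ : ℝ → ℝ → ℝ) (v : ℝ) (s : ℂ) : ℂ :=
  ∫ x : ℝ, cexp (2 * s * x) * (κ v x : ℂ)

/-- The radial integral with its polar part. -/
noncomputable def Psi (κ : ℝ → ℝ → ℝ) (A : ℝ → ℝ) (v : ℝ) (s : ℂ) : ℂ :=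
  (s - 1 / 2) * NN κ v s + (A v : ℂ) / 2

/-- The sector integral. -/
noncomputable def WW (κ : ℝ → ℝ → ℝ) (A : ℝ → ℝ) (s : ℂ) : ℂ :=
  ∫ u in Ioi (0 : ℝ), cexp (-s * u) * Psi κ A (Real.exp (-u)) s

/-- The hypotheses on the kernel. -/
structure Good (κ : ℝ → ℝ → ℝ) (A : ℝ → ℝ) : Prop where
  mκ : Measurable fun w : ℝ × ℝ => κ w.1 w.2
  mA : Measurable A
  bA : ∃ C, ∀ v ∈ Icc (0 : ℝ) 1, |A v| ≤ C
  bκ : ∀ R : ℝ, ∃ C, ∀ v ∈ Icc (0 : ℝ) 1, ∀ σ ∈ Icc 0 R, ∀ x,
    Real.exp (2 * σ * x) * |κ v x| ≤ C * Real.exp (-|x|)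
  cκ : ∀ x, ContinuousAt (fun v => κ v x) 0
  cA : ContinuousAt A 0

variable {κ : ℝ → ℝ → ℝ} {A : ℝ → ℝ}

theorem norm_term (v x : ℝ) (s : ℂ) :
    ‖cexp (2 * s * x) * (κ v x : ℂ)‖ = Real.exp (2 * s.re * x) * |κ v x| := by
  rw [norm_mul, Complex.norm_exp, Complex.norm_real, Real.norm_eq_abs]
  congr 2
  simp

theorem Good.meas_term (h : Good κ A) (v : ℝ) (s : ℂ) :
    Measurable fun x : ℝ => cexp (2 * s * x) * (κ v x : ℂ) := by
  have h1 : Measurable fun x : ℝ => κ v x := h.mκ.comp (measurable_const.prodMk measurable_id)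
  have h2 : Measurable fun x : ℝ => cexp (2 * s * x) := by fun_prop
  exact h2.mul (Complex.measurable_ofReal.comp h1)

theorem Good.int_term (h : Good κ A) {v : ℝ} (hv : v ∈ Icc (0 : ℝ) 1) {s : ℂ} (hs : 0 ≤ s.re) :
    Integrable fun x : ℝ => cexp (2 * s * x) * (κ v x : ℂ) := by
  obtain ⟨C, hC⟩ := h.bκ s.re
  refine (integrable_exp_neg_abs.const_mul C).mono' (h.meas_term v s).aestronglyMeasurable
    (Eventually.of_forall fun x => ?_)
  rw [norm_term]
  exact hC v hv s.re ⟨hs, le_rfl⟩ x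

theorem Good.NN_bound (h : Good κ A) (R : ℝ) : ∃ C, ∀ v ∈ Icc (0 : ℝ) 1, ∀ s : ℂ,
    s.re ∈ Icc 0 R → ‖NN κ v s‖ ≤ C := by
  obtain ⟨C, hC⟩ := h.bκ R
  refine ⟨∫ x : ℝ, C * Real.exp (-|x|), fun v hv s hs => ?_⟩
  refine norm_integral_le_of_norm_le (integrable_exp_neg_abs.const_mul C)
    (Eventually.of_forall fun x => ?_)
  rw [norm_term]
  exact hC v hv s.re hs x

theorem Good.Psi_bound (h : Good κ A) (R : ℝ) : ∃ C, ∀ v ∈ Icc (0 : ℝ) 1, ∀ s : ℂ,
    0 ≤ s.re → ‖s‖ ≤ R → ‖Psi κ A v s‖ ≤ C := by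
  obtain ⟨C, hC⟩ := h.NN_bound R
  obtain ⟨D, hD⟩ := h.bA
  refine ⟨(R + 1 / 2) * C + D / 2, fun v hv s hs hR => ?_⟩
  have h1 := hC v hv s ⟨hs, (Complex.re_le_norm s).trans hR⟩
  have h2 : ‖s - 1 / 2‖ ≤ R + 1 / 2 := by
    refine (norm_sub_le _ _).trans ?_
    have : ‖(1 / 2 : ℂ)‖ = 1 / 2 := by simp
    linarith
  have h3 : ‖(A v : ℂ) / 2‖ ≤ D / 2 := by
    rw [norm_div, Complex.norm_real, Real.norm_eq_abs]
    have := hD v hv
    simp only [Complex.norm_ofNat]
    linarith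
  unfold Psi
  refine (norm_add_le _ _).trans (add_le_add ?_ h3)
  rw [norm_mul]
  exact mul_le_mul h2 h1 (norm_nonneg _) ((norm_nonneg _).trans h2)

theorem Good.NN_diff (h : Good κ A) {v : ℝ} (hv : v ∈ Icc (0 : ℝ) 1) (R : ℝ) :
    DifferentiableOn ℂ (NN κ v) {s | 0 < s.re ∧ s.re < R} := by
  obtain ⟨C, hC⟩ := h.bκ R
  have hU : IsOpen {s : ℂ | 0 < s.re ∧ s.re < R} :=
    (isOpen_lt continuous_const Complex.continuous_re).inter
      (isOpen_lt Complex.continuous_re continuous_const)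
  refine Pool.Agent.Shared.HoloIntegral.differentiableOn_integral
    (F := fun s (x : ℝ) => cexp (2 * s * x) * (κ v x : ℂ)) hU
    (fun s _ => (h.meas_term v s).aestronglyMeasurable) (Eventually.of_forall fun x => ?_)
    (Eventually.of_forall fun x s hs => ?_) (integrable_exp_neg_abs.const_mul C)
  · apply Differentiable.differentiableOn
    fun_prop
  · rw [norm_term]
    exact hC v hv s.re ⟨hs.1.le, hs.2.le⟩ x

theorem Good.meas_Psi (h : Good κ A) (s : ℂ) : Measurable fun v => Psi κ A v s := by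
  have h1 : StronglyMeasurable fun w : ℝ × ℝ => cexp (2 * s * w.2) * (κ w.1 w.2 : ℂ) := by
    have h2 : Measurable fun w : ℝ × ℝ => cexp (2 * s * w.2) := by fun_prop
    exact (h2.mul (Complex.measurable_ofReal.comp h.mκ)).stronglyMeasurable
  have h2 : Measurable fun v => NN κ v s :=
    (h1.integral_prod_right' (ν := volume)).measurable
  have h3 : Measurable fun v => (A v : ℂ) := Complex.measurable_ofReal.comp h.mA
  exact (h2.const_mul _).add (h3.div_const 2)

theorem exp_neg_mem {u : ℝ} (hu : 0 ≤ u) : Real.exp (-u) ∈ Icc (0 : ℝ) 1 :=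
  ⟨(Real.exp_pos _).le, Real.exp_le_one_iff.mpr (by linarith)⟩

theorem Good.WW_diff (h : Good κ A) : DifferentiableOn ℂ (WW κ A) {s | 0 < s.re} := by
  intro s₀ hs₀
  have hs₀' : 0 < s₀.re := hs₀
  set R := ‖s₀‖ + 1 with hR
  set δ := s₀.re / 2 with hδ
  have hδ0 : 0 < δ := by positivity
  obtain ⟨C, hC⟩ := h.Psi_bound R
  have hU : IsOpen {s : ℂ | δ < s.re ∧ ‖s‖ < R} :=
    (isOpen_lt continuous_const Complex.continuous_re).inter
      (isOpen_lt continuous_norm continuous_const)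
  have key : DifferentiableOn ℂ (WW κ A) {s : ℂ | δ < s.re ∧ ‖s‖ < R} := by
    refine Pool.Agent.Shared.HoloIntegral.differentiableOn_integral
      (μ := volume.restrict (Ioi (0 : ℝ))) (b := fun u => Real.exp (-δ * u) * C)
      (F := fun s (u : ℝ) => cexp (-s * u) * Psi κ A (Real.exp (-u)) s) hU
      (fun s _ => ?_) ?_ ?_ ?_
    · have h1 : Measurable fun u : ℝ => cexp (-s * u) := by fun_prop
      have h2 : Measurable fun u : ℝ => Real.exp (-u) := by fun_prop
      exact (h1.mul ((h.meas_Psi s).comp h2)).aestronglyMeasurable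
    · filter_upwards [ae_restrict_mem measurableSet_Ioi] with u hu
      have h1 : DifferentiableOn ℂ (NN κ (Real.exp (-u))) {s : ℂ | δ < s.re ∧ ‖s‖ < R} :=
        (h.NN_diff (exp_neg_mem (le_of_lt hu)) R).mono fun s hs =>
          ⟨hδ0.trans hs.1, (Complex.re_le_norm s).trans_lt hs.2⟩
      have h2 : Differentiable ℂ fun s : ℂ => cexp (-s * u) := by fun_prop
      have h3 : Differentiable ℂ fun s : ℂ => s - 1 / 2 := by fun_prop
      exact h2.differentiableOn.mul ((h3.differentiableOn.mul h1).add_const _)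
    · filter_upwards [ae_restrict_mem measurableSet_Ioi] with u hu s hs
      have hu' : 0 < u := hu
      rw [norm_mul, Complex.norm_exp]
      have h1 := hC _ (exp_neg_mem hu'.le) s (hδ0.trans hs.1).le hs.2.le
      refine mul_le_mul (Real.exp_le_exp.mpr ?_) h1 (norm_nonneg _) (Real.exp_pos _).le
      have : (-s * u).re = -s.re * u := by simp
      rw [this]
      nlinarith [hs.1]
    · exact (integrableOn_exp_mul_Ioi (by linarith) 0).mul_const C
  refine (key.differentiableAt (hU.mem_nhds ⟨?_, ?_⟩)).differentiableWithinAt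
  · rw [hδ]; linarith
  · rw [hR]; linarith

theorem tendsto_exp_neg_div {w : ℝ} (hw : 0 < w) :
    Tendsto (fun x : ℝ => Real.exp (-(w / x))) (𝓝[>] 0) (𝓝 0) := by
  refine Real.tendsto_exp_neg_atTop_nhds_zero.comp ?_
  have := (tendsto_inv_nhdsGT_zero (𝕜 := ℝ)).const_mul_atTop hw
  exact this.congr fun x => (div_eq_mul_inv w x).symm

theorem Good.Psi_lim (h : Good κ A) {w : ℝ} (hw : 0 < w) :
    Tendsto (fun x : ℝ => Psi κ A (Real.exp (-(w / x))) x) (𝓝[>] 0) (𝓝 (Psi κ A 0 0)) := by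
  obtain ⟨C, hC⟩ := h.bκ 1
  have hx0 : Tendsto (fun x : ℝ => (x : ℂ)) (𝓝[>] 0) (𝓝 0) := by
    have := (Complex.continuous_ofReal.tendsto 0).mono_left (nhdsWithin_le_nhds (s := Ioi 0))
    simpa using this
  have h1 : Tendsto (fun x : ℝ => NN κ (Real.exp (-(w / x))) x) (𝓝[>] 0) (𝓝 (NN κ 0 0)) := by
    refine tendsto_integral_filter_of_dominated_convergence (fun y => C * Real.exp (-|y|))
      (Eventually.of_forall fun x => (h.meas_term _ _).aestronglyMeasurable) ?_
      (integrable_exp_neg_abs.const_mul C) (Eventually.of_forall fun y => ?_)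
    · filter_upwards [Ioc_mem_nhdsGT (zero_lt_one' ℝ)] with x hx
      refine Eventually.of_forall fun y => ?_
      rw [norm_term]
      exact hC _ (exp_neg_mem (div_pos hw hx.1).le) _ (by simpa using ⟨hx.1.le, hx.2⟩) y
    · have h2 : Tendsto (fun x : ℝ => cexp (2 * (x : ℂ) * y)) (𝓝[>] 0) (𝓝 (cexp (2 * 0 * y))) :=
        ((hx0.const_mul 2).mul_const _).cexp
      have h3 := (Complex.continuous_ofReal.tendsto _).comp
        ((h.cκ y).tendsto.comp (tendsto_exp_neg_div hw))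
      exact h2.mul h3
  have h2 := (Complex.continuous_ofReal.tendsto _).comp
    (h.cA.tendsto.comp (tendsto_exp_neg_div hw))
  exact ((hx0.sub_const _).mul h1).add (h2.div_const 2)

theorem Good.WW_lim (h : Good κ A) :
    Tendsto (fun x : ℝ => (x : ℂ) * WW κ A x) (𝓝[>] 0) (𝓝 (Psi κ A 0 0)) := by
  obtain ⟨C, hC⟩ := h.Psi_bound 1
  have e1 : ∀ x : ℝ, 0 < x → (x : ℂ) * WW κ A x =
      ∫ w in Ioi (0 : ℝ), (Real.exp (-w) : ℂ) * Psi κ A (Real.exp (-(w / x))) x := by
    intro x hx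
    have := integral_comp_mul_left_Ioi'
      (fun w : ℝ => (Real.exp (-w) : ℂ) * Psi κ A (Real.exp (-(w / x))) x) 0 hx
    rw [mul_zero, real_smul] at this
    rw [← this]
    unfold WW
    congr 1
    refine setIntegral_congr_fun measurableSet_Ioi fun u _ => ?_
    rw [mul_div_cancel_left₀ u hx.ne']
    congr 1
    push_cast
    congr 1
    ring
  have e2 : Psi κ A 0 0 = ∫ w in Ioi (0 : ℝ), (Real.exp (-w) : ℂ) * Psi κ A 0 0 := by
    rw [integral_mul_const, integral_complex_ofReal, integral_exp_neg_Ioi_zero]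
    simp
  rw [e2]
  refine Tendsto.congr' (f₁ := fun x : ℝ =>
    ∫ w in Ioi (0 : ℝ), (Real.exp (-w) : ℂ) * Psi κ A (Real.exp (-(w / x))) x) ?_ ?_
  · filter_upwards [self_mem_nhdsWithin] with x hx
    exact (e1 x hx).symm
  refine tendsto_integral_filter_of_dominated_convergence (fun w => Real.exp (-w) * C)
    (Eventually.of_forall fun x => ?_) ?_ ((integrableOn_exp_neg_Ioi 0).mul_const C) ?_
  · have h1 : Measurable fun w : ℝ => (Real.exp (-w) : ℂ) := by fun_prop
    have h2 : Measurable fun w : ℝ => Real.exp (-(w / x)) := by fun_prop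
    exact (h1.mul ((h.meas_Psi x).comp h2)).aestronglyMeasurable
  · filter_upwards [Ioc_mem_nhdsGT (zero_lt_one' ℝ)] with x hx
    filter_upwards [ae_restrict_mem measurableSet_Ioi] with w hw
    have hw' : 0 < w := hw
    rw [norm_mul, Complex.norm_real, Real.norm_eq_abs, abs_of_pos (Real.exp_pos _)]
    refine mul_le_mul_of_nonneg_left (hC _ (exp_neg_mem (div_pos hw' hx.1).le) _ ?_ ?_)
      (Real.exp_pos _).le
    · simpa using hx.1.le
    · rw [Complex.norm_real, Real.norm_eq_abs, abs_of_pos hx.1]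
      exact hx.2
  · filter_upwards [ae_restrict_mem measurableSet_Ioi] with w hw
    exact (h.Psi_lim hw).const_mul _

end Pool.Agent.RM.ConeLimAux
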