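import Pool.Agent.Lib.MP_ca56d1_nt.Stmt

/-! Shared definitions for real multiplication values of the double sine function. -/

namespace Pool.Agent.RM

open Complex

/-- The integrand of the logarithm of the double sine function with periods `p, q`. -/
noncomputable def kern (p q : ℝ) (z t : ℂ) : ℂ :=
  cexp (-z * t) / ((1 - cexp (-p * t)) * (1 - cexp (-q * t)) * t)

/-- The logarithm of the double sine function `S` (Faddeev normalisation) in the strip
`0 < Re z < p + q`: `S(z+q) = (1 - e(z/p)) S(z)`, `S(z+p) = (1 - e(z/q)) S(z)`, `S → 1` as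
`Im z → +∞`. -/
noncomputable def dl (p q : ℝ) (z : ℂ) : ℂ :=
  ∫ r : ℝ, kern p q z (r - (1 / (p + q) : ℝ) * I)

variable {K : Type*} [Field K] [CharZero K]

/-- The half open parallelogram `(0,1] p + [0,1) q`. -/
def par (p q : K) : Set K :=
  {z | ∃ a b : ℚ, 0 < a ∧ a ≤ 1 ∧ 0 ≤ b ∧ b < 1 ∧ z = a * p + b * q}

/-- The half open cone `ℚ_{>0} p + ℚ_{≥0} q`. -/
def cone (p q : K) : Set K := {z | ∃ a b : ℚ, 0 < a ∧ 0 ≤ b ∧ z = a * p + b * q}

/-- The sum of the logarithms of the double sine function over the points of `Λ` in the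
parallelogram spanned by `p, q`. -/
noncomputable def LF (σ : K →+* ℝ) (Λ : Set K) (p q : K) : ℂ :=
  ∑ᶠ z ∈ Λ ∩ par p q, dl (σ p) (σ q) (σ z)

/-- The group of periods of `Λ`. -/
def per (Λ : Set K) : AddSubgroup K where
  carrier := {w | ∀ y, y + w ∈ Λ ↔ y ∈ Λ}
  add_mem' := fun {a b} ha hb y => by rw [← add_assoc, hb, ha]
  zero_mem' := fun y => by rw [add_zero]
  neg_mem' := fun {a} ha y => by rw [← ha, neg_add_cancel_right]

/-- `Λ` is a finite union of cosets of a lattice. -/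
structure Lat (Λ : Set K) : Prop where
  fg : ∃ M : Submodule ℤ K, M.FG ∧ Λ ⊆ M
  full : ∀ y : K, ∃ n : ℕ, n ≠ 0 ∧ (n : K) * y ∈ per Λ

/-- `Λ` is stable under `ε` and its inverse. -/
def Stab (ε : K) (Λ : Set K) : Prop := ∀ y, ε * y ∈ Λ ↔ y ∈ Λ

/-- `K` is a real quadratic field with real embeddings `σ, σ'`. -/
structure RQ (σ σ' : K →+* ℝ) : Prop where
  two : Module.finrank ℚ K = 2
  ne : σ ≠ σ'

/-- `ε` is totally positive of norm one and `σ ε > 1`. -/
structure Eps (σ σ' : K →+* ℝ) (ε : K) : Prop where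
  one_lt : 1 < σ ε
  norm : σ ε * σ' ε = 1

/-- A totally positive period of `Λ`. -/
noncomputable def base (σ σ' : K →+* ℝ) (Λ : Set K) : K :=
  Classical.epsilon fun w => w ∈ per Λ ∧ 0 < σ w ∧ 0 < σ' w

/-- The logarithm of the real multiplication value attached to `Λ` and `ε`. -/
noncomputable def LX (σ σ' : K →+* ℝ) (ε : K) (Λ : Set K) : ℂ :=
  LF σ Λ (base σ σ' Λ) (ε * base σ σ' Λ)

/-- The coset `x + L`. -/
def coset (L : Submodule ℤ K) (x : K) : Set K := {y | y - x ∈ L}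

/-- `a` is a system of representatives of `U` modulo the powers of `ε`. -/
def IsFD {ι : Type*} (ε : K) (U : Set K) (a : ι → K) : Prop :=
  (∀ i, a i ∈ U) ∧ ∀ y ∈ U, ∃! c : ι × ℤ, y = ε ^ c.2 * a c.1

/-- The zeta function of a family of elements. -/
noncomputable def zfam (σ σ' : K →+* ℝ) {ι : Type*} (a : ι → K) (s : ℂ) : ℂ :=
  ∑' i, ((|σ (a i) * σ' (a i)| : ℝ) : ℂ) ^ (-s)

end Pool.Agent.RM
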