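import Pool.Agent.Lib.MP_ca56d1_nt.RM.Defs

/-! Interface of part A: cone calculus and the Shintani formula. -/

namespace Pool.Agent.RM

open Complex

variable {K : Type*} [Field K] [CharZero K]

/-- The conclusions of part A for a fixed real quadratic field. -/
structure PartA (σ σ' : K →+* ℝ) : Prop where
  /-- independence of the period, totally positive case -/
  basis_pos : ∀ ε Λ, Eps σ σ' ε → Lat Λ → Stab ε Λ → ∀ w ∈ per Λ, 0 < σ w → 0 < σ' w →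
    LF σ Λ w (ε * w) = LX σ σ' ε Λ
  /-- independence of the period, mixed signature -/
  basis_neg : ∀ ε Λ, Eps σ σ' ε → Lat Λ → Stab ε Λ → ∀ w ∈ per Λ, 0 < σ w → σ' w < 0 →
    LF σ Λ (ε * w) w = -LX σ σ' ε Λ
  /-- the two half open conventions agree when `0 ∉ Λ` -/
  swap : ∀ ε Λ, Eps σ σ' ε → Lat Λ → Stab ε Λ → 0 ∉ Λ → ∀ w ∈ per Λ, 0 < σ w →
    LF σ Λ (ε * w) w = LF σ Λ w (ε * w)
  /-- the distribution relation -/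
  union : ∀ ε, Eps σ σ' ε → ∀ {ι : Type} (s : Finset ι) (Λ : ι → Set K), (∀ i ∈ s, Lat (Λ i)) →
    (∀ i ∈ s, Stab ε (Λ i)) → (∀ i ∈ s, ∀ j ∈ s, i ≠ j → Disjoint (Λ i) (Λ j)) →
    LX σ σ' ε (⋃ i ∈ s, Λ i) = ∑ i ∈ s, LX σ σ' ε (Λ i)
  /-- homothety by a totally positive element -/
  smul : ∀ ε Λ, Eps σ σ' ε → Lat Λ → Stab ε Λ → ∀ u : K, 0 < σ u → 0 < σ' u →
    LX σ σ' ε {y | u * y ∈ Λ} = LX σ σ' ε Λ
  /-- homothety by an element of mixed signature -/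
  smul_neg : ∀ ε Λ, Eps σ σ' ε → Lat Λ → Stab ε Λ → 0 ∉ Λ → ∀ u : K, 0 < σ u → σ' u < 0 →
    LX σ σ' ε {y | u * y ∈ Λ} = -LX σ σ' ε Λ
  /-- change of level -/
  pow : ∀ ε Λ, Eps σ σ' ε → Lat Λ → Stab ε Λ → ∀ n : ℕ, n ≠ 0 →
    LX σ σ' (ε ^ n) Λ = n * LX σ σ' ε Λ
  /-- orbit form of the change of level -/
  orbit : ∀ ε Λ, Eps σ σ' ε → Lat Λ → ∀ n : ℕ, n ≠ 0 → Stab (ε ^ n) Λ →
    (∀ i < n, ∀ j < n, i ≠ j → Disjoint {y | ε ^ i * y ∈ Λ} {y | ε ^ j * y ∈ Λ}) →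
    LX σ σ' ε (⋃ i ∈ Finset.range n, {y | ε ^ i * y ∈ Λ}) = LX σ σ' (ε ^ n) Λ
  /-- the absolute value is inverted by `Λ ↦ -Λ` -/
  neg : ∀ ε Λ, Eps σ σ' ε → Lat Λ → Stab ε Λ → 0 ∉ Λ →
    (LX σ σ' ε {y | -y ∈ Λ}).re = -(LX σ σ' ε Λ).re
  /-- exact reflection formula -/
  neg_conj : ∀ ε Λ, Eps σ σ' ε → Lat Λ → Stab ε Λ → 0 ∉ Λ →
    LX σ σ' ε {y | -y ∈ Λ} = -(starRingEnd ℂ) (LX σ σ' ε Λ)
  /-- the Shintani formula -/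
  shintani : ∀ ε Λ, Eps σ σ' ε → Lat Λ → Stab ε Λ → 0 ∉ Λ → ∀ {ι : Type} (a : ι → K),
    IsFD ε {y | y ∈ Λ ∧ 0 < σ' y} a → ∃ Z : ℂ → ℂ, StarkStmt.IsCont (zfam σ σ' a) Z ∧ Z 0 = 0 ∧
      deriv Z 0 = ((LX σ σ' ε Λ).re : ℝ)

end Pool.Agent.RM
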