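import Pool.Agent.Lib.MP_ca56d1_nt.RM.StA

/-! Intermediate statements of part A. -/

namespace Pool.Agent.RM

open Complex Filter Topology

/-- The odd generating function of a shifted cone. -/
noncomputable def gOdd (p q z t : ℝ) : ℝ :=
  (Real.exp (-z * t) - Real.exp (-(p + q - z) * t)) /
    ((1 - Real.exp (-p * t)) * (1 - Real.exp (-q * t)))

/-- The real integral for the logarithm of the absolute value of the double sine function. -/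
noncomputable def J (p q z : ℝ) : ℝ :=
  ∫ t in Set.Ioi (0 : ℝ), (gOdd p q z t - (p + q - 2 * z) / (p * q) / t) / t

/-- The norm of the point `z + m p + n q` of a shifted cone in the positive quadrant. -/
def cn (p q z : ℝ × ℝ) (c : ℕ × ℕ) : ℝ :=
  (z.1 + c.1 * p.1 + c.2 * q.1) * (z.2 + c.1 * p.2 + c.2 * q.2)

/-- The real part of `dl` at a real point. -/
def ReDl : Prop := ∀ p q z : ℝ, 0 < p → 0 < q → 0 < z → z < p + q → (dl p q z).re = J p q z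

/-- The behaviour at `s = 0` of the odd zeta function of one shifted cone. -/
def ConeLim : Prop := ∀ p q z : ℝ × ℝ, 0 < p.1 → 0 < p.2 → 0 < q.1 → 0 < q.2 → 0 < z.1 → 0 < z.2 →
  z.1 < p.1 + q.1 → z.2 < p.2 + q.2 →
  (∀ x : ℝ, 1 < x → Summable fun c => cn p q z c ^ (-x)) →
  (∀ x : ℝ, 1 < x → Summable fun c => cn p q (p + q - z) c ^ (-x)) →
  ∃ W : ℂ → ℂ, DifferentiableOn ℂ W {s | 0 < s.re} ∧
    (∀ s : ℂ, 1 < s.re → W s = (s - 1 / 2) * Gamma s ^ 2 *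
      (∑' c, (cn p q z c : ℂ) ^ (-s) - ∑' c, (cn p q (p + q - z) c : ℂ) ^ (-s))) ∧
    Tendsto (fun x : ℝ => (x : ℂ) * W x) (𝓝[>] 0)
      (𝓝 (-(1 / 2) * ((J p.1 q.1 z.1 + J p.2 q.2 z.2 : ℝ) : ℂ)))

/-- The shifted theta series of a plane lattice (`j = 0`: even, `j = 1`: odd in the second
coordinate). -/
noncomputable def thS (j : ℕ) (B : Matrix (Fin 2) (Fin 2) ℝ) (c : Fin 2 → ℝ) (x y : ℝ) : ℝ :=
  ∑' k : Fin 2 → ℤ, (Real.exp y * (B.mulVec (fun i => (k i : ℝ)) 1 + c 1)) ^ j *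
    Real.exp (-Real.pi * ((Real.exp x * (B.mulVec (fun i => (k i : ℝ)) 0 + c 0)) ^ 2 +
      (Real.exp y * (B.mulVec (fun i => (k i : ℝ)) 1 + c 1)) ^ 2))

/-- Bounds for shifted theta series at both ends (Poisson summation). -/
def ThetaBd : Prop := ∀ (B : Matrix (Fin 2) (Fin 2) ℝ) (c : Fin 2 → ℝ) (l : ℝ), B.det ≠ 0 →
  (∀ k : Fin 2 → ℤ, B.mulVec (fun i => (k i : ℝ)) + c ≠ 0) →
  (∀ j, Continuous fun v : ℝ × ℝ => thS j B c v.1 v.2) ∧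
  (∀ j x y, Summable fun k : Fin 2 → ℤ =>
    |Real.exp y * (B.mulVec (fun i => (k i : ℝ)) 1 + c 1)| ^ j *
    Real.exp (-Real.pi * ((Real.exp x * (B.mulVec (fun i => (k i : ℝ)) 0 + c 0)) ^ 2 +
      (Real.exp y * (B.mulVec (fun i => (k i : ℝ)) 1 + c 1)) ^ 2))) ∧
  ∀ R : ℝ, ∃ C : ℝ, ∀ u τ : ℝ, |u| ≤ l →
    (0 ≤ τ → ∀ j ≤ 1, |thS j B c (τ + u) (τ - u)| ≤ C * Real.exp (-R * τ)) ∧
    (τ ≤ 0 → |thS 0 B c (τ + u) (τ - u) - Real.exp (-2 * τ) / (|B.det|)| ≤ C * Real.exp (R * τ) ∧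
      |thS 1 B c (τ + u) (τ - u)| ≤ C * Real.exp (R * τ))

variable {K : Type*} [Field K] [CharZero K]

/-- Hecke's continuation of the even and the odd zeta function of `Λ`. -/
def ThetaCont (σ σ' : K →+* ℝ) : Prop :=
  ∀ ε Λ, Eps σ σ' ε → Lat Λ → Stab ε Λ → 0 ∉ Λ → ∀ {ι : Type} (a : ι → K), IsFD ε Λ a →
    (∀ x : ℝ, 1 < x → Summable fun i => |σ (a i) * σ' (a i)| ^ (-x)) ∧
    (∃ Z : ℂ → ℂ, StarkStmt.IsCont (zfam σ σ' a) Z ∧ Z 0 = 0 ∧ deriv Z 0 = 0) ∧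
    ∃ Z : ℂ → ℂ, Differentiable ℂ Z ∧ ∀ s : ℂ, 1 < s.re →
      Z s = ∑' i, ((SignType.sign (σ' (a i)) : ℝ) : ℂ) * ((|σ (a i) * σ' (a i)| : ℝ) : ℂ) ^ (-s)

/-- The alternating form attached to the two embeddings. -/
def dt (σ σ' : K →+* ℝ) (x y : K) : ℝ := σ x * σ' y - σ' x * σ y

end Pool.Agent.RM
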